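import Pool.Agent.Lib.SW.SP3
import Pool.Agent.Lib.SW.SWFinal

/-!
# MP-1: averages of periodic functions over the primes in `(X/2, X]`

PROOF of `prime_corr`.  `K' := K + 2 B + 2`, `theta_ap K' 1` (savings, with the factor `q ^ 1`).  A prime
`p > X / 2 > M` is coprime to `M`.  Split the sum over `p` according to `x = p % M` (only `x` coprime to `M`
occurs, `F p = F x` by periodicity).  For such `x`
`∑_{p ∈ (X/2, X], p ≡ x} log p = θ(X; M, x) - θ(⌊X/2⌋; M, x) = X/φ(M) - ⌊X/2⌋/φ(M) + O(2 C M X / log^K' (X/2))`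
and `|X - ⌊X/2⌋ - X/2| ≤ 1/2`.  There are at most `M` classes and `M ≤ log^B X`, so the total error is at most
`M (1 + 2 C M X 2^K' / log^K' X) ≤ X / log^K X` for large `X` (log (X/2) ≥ log X / 2).
-/

set_option autoImplicit false

open Finset Pool.Agent.Lib.GT

namespace Pool.Agent.Lib.SW

/-- the mass of the primes of one reduced class in `(Y, X]` -/
theorem MP1_class {C : ℝ} {K' : ℕ}
    (hT : ∀ (q a : ℕ), 1 ≤ q → Nat.Coprime a q → ∀ x : ℝ, 2 ≤ x →
      |∑ n ∈ (Finset.Icc 1 ⌊x⌋₊).filter (fun n => n.Prime ∧ n ≡ a [MOD q]),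
          Real.log n - x / q.totient| ≤ C * (q : ℝ) ^ (1 : ℝ) * x / (Real.log x) ^ K')
    (hC : 0 < C) (X M x : ℕ) (hX : 16 ≤ X) (hM : 1 ≤ M) (hx : x < M) (hxM : Nat.Coprime x M) :
    |∑ p ∈ (Ioc (X / 2) X).filter (fun p => p % M = x), lam p - (X / 2 : ℝ) / (M.totient : ℝ)| ≤
      2 * (C * M * X * 2 ^ K' / (Real.log X) ^ K') + 1 / 2 := by
  set Y : ℕ := X / 2 with hY
  have hYX : Y ≤ X := Nat.div_le_self _ _
  have hY8 : 8 ≤ Y := by omega
  have hXR : (16 : ℝ) ≤ X := by exact_mod_cast hX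
  have hYR : (8 : ℝ) ≤ Y := by exact_mod_cast hY8
  have hMR : (1 : ℝ) ≤ M := by exact_mod_cast hM
  have hφ : (1 : ℝ) ≤ (M.totient : ℝ) := by
    exact_mod_cast Nat.totient_pos.2 hM
  -- the sum as a difference
  set f : ℕ → ℝ := fun n => if n.Prime ∧ n ≡ x [MOD M] then Real.log n else 0 with hf
  have hS : ∑ p ∈ (Ioc Y X).filter (fun p => p % M = x), lam p = ∑ n ∈ Ioc Y X, f n := by
    rw [Finset.sum_filter]
    refine Finset.sum_congr rfl fun n _ => ?_
    simp only [hf, lam]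
    have e : (n ≡ x [MOD M]) ↔ n % M = x := by
      unfold Nat.ModEq
      rw [Nat.mod_eq_of_lt hx]
    by_cases h1 : n % M = x
    · by_cases h2 : n.Prime
      · rw [if_pos h1, if_pos h2, if_pos ⟨h2, e.2 h1⟩]
      · rw [if_pos h1, if_neg h2, if_neg (fun h => h2 h.1)]
    · rw [if_neg h1, if_neg (fun h => h1 (e.1 h.2))]
  have hI : ∀ Z : ℕ, ∑ n ∈ (Finset.Icc 1 ⌊(Z : ℝ)⌋₊).filter (fun n => n.Prime ∧ n ≡ x [MOD M]),
      Real.log n = ∑ n ∈ Ioc 0 Z, f n := by
    intro Z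
    rw [Nat.floor_natCast, Finset.sum_filter]
    rfl
  have hdiff : ∑ n ∈ Ioc 0 Y, f n + ∑ n ∈ Ioc Y X, f n = ∑ n ∈ Ioc 0 X, f n :=
    Finset.sum_Ioc_consecutive f (Nat.zero_le _) hYX
  have t1 := hT M x hM hxM X (by linarith)
  have t2 := hT M x hM hxM Y (by linarith)
  rw [hI X, Real.rpow_one] at t1
  rw [hI Y, Real.rpow_one] at t2
  have hlX : 0 < Real.log X := Real.log_pos (by linarith)
  have hlY : Real.log X / 2 ≤ Real.log Y := by
    have h1 : (X : ℝ) ≤ (Y : ℝ) ^ 2 := by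
      have : X ≤ Y ^ 2 := by
        have h3 : X ≤ 2 * Y + 1 := by omega
        nlinarith
      exact_mod_cast this
    have h2 := Real.log_le_log (by linarith) h1
    rw [Real.log_pow] at h2
    push_cast at h2
    linarith
  have e1 : C * (M : ℝ) * X / (Real.log X) ^ K' ≤ C * M * X * 2 ^ K' / (Real.log X) ^ K' := by
    refine div_le_div_of_nonneg_right ?_ (by positivity)
    refine le_mul_of_one_le_right (by positivity) ?_
    exact one_le_pow₀ (by norm_num)
  have e2 : C * (M : ℝ) * Y / (Real.log Y) ^ K' ≤ C * M * X * 2 ^ K' / (Real.log X) ^ K' := by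
    have h1 : C * (M : ℝ) * Y / (Real.log Y) ^ K' ≤ C * M * X / (Real.log X / 2) ^ K' := by
      refine div_le_div₀ (by positivity) ?_ (by positivity) ?_
      · have : (Y : ℝ) ≤ X := by exact_mod_cast hYX
        have h5 : 0 ≤ C * (M : ℝ) := by positivity
        nlinarith
      · exact pow_le_pow_left₀ (by positivity) hlY _
    refine h1.trans (le_of_eq ?_)
    rw [div_pow, div_div_eq_mul_div]
  have e3 : |(X : ℝ) / 2 - Y| ≤ 1 / 2 := by
    have h3 : 2 * Y ≤ X := by omega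
    have h4 : X ≤ 2 * Y + 1 := by omega
    have h3' : 2 * (Y : ℝ) ≤ X := by exact_mod_cast h3
    have h4' : (X : ℝ) ≤ 2 * Y + 1 := by exact_mod_cast h4
    rw [abs_le]
    constructor <;> linarith
  have e4 : |((X : ℝ) / 2 - Y) / (M.totient : ℝ)| ≤ 1 / 2 := by
    rw [abs_div, abs_of_pos (by linarith : (0 : ℝ) < (M.totient : ℝ)), div_le_iff₀ (by linarith)]
    refine e3.trans ?_
    nlinarith
  rw [hS]
  have key : ∑ n ∈ Ioc Y X, f n - (X / 2 : ℝ) / (M.totient : ℝ) =
      (∑ n ∈ Ioc 0 X, f n - (X : ℝ) / M.totient) - (∑ n ∈ Ioc 0 Y, f n - (Y : ℝ) / M.totient) +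
        ((X : ℝ) / 2 - Y) / (M.totient : ℝ) := by
    rw [← hdiff]
    ring
  rw [key]
  calc |(∑ n ∈ Ioc 0 X, f n - (X : ℝ) / M.totient) - (∑ n ∈ Ioc 0 Y, f n - (Y : ℝ) / M.totient) +
        ((X : ℝ) / 2 - Y) / (M.totient : ℝ)|
      ≤ |(∑ n ∈ Ioc 0 X, f n - (X : ℝ) / M.totient) -
          (∑ n ∈ Ioc 0 Y, f n - (Y : ℝ) / M.totient)| +
        |((X : ℝ) / 2 - Y) / (M.totient : ℝ)| := abs_add_le _ _
    _ ≤ (|∑ n ∈ Ioc 0 X, f n - (X : ℝ) / M.totient| +
          |∑ n ∈ Ioc 0 Y, f n - (Y : ℝ) / M.totient|) +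
        |((X : ℝ) / 2 - Y) / (M.totient : ℝ)| := by
        have := abs_sub (∑ n ∈ Ioc 0 X, f n - (X : ℝ) / M.totient)
          (∑ n ∈ Ioc 0 Y, f n - (Y : ℝ) / M.totient)
        linarith
    _ ≤ _ := by linarith

theorem prime_corr (B K : ℕ) : ∃ X₀ : ℕ, ∀ X : ℕ, X₀ ≤ X → ∀ M : ℕ, 1 ≤ M →
    (M : ℝ) ≤ (Real.log X) ^ B → ∀ F : ℕ → ℝ, (∀ n, F (n + M) = F n) → (∀ n, |F n| ≤ 1) →
      |∑ p ∈ Ioc (X / 2) X, lam p * F p -
        (X / 2 : ℝ) / (M.totient : ℝ) * ∑ x ∈ (range M).filter (fun x => Nat.Coprime x M), F x| ≤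
      X / (Real.log X) ^ K := by
  obtain ⟨C, hC, hT⟩ := theta_ap (K + 2 * B + 2) 1 one_pos
  have hlog : Filter.Tendsto (fun X : ℕ => Real.log X) Filter.atTop Filter.atTop :=
    Real.tendsto_log_atTop.comp tendsto_natCast_atTop_atTop
  have e1 : ∀ᶠ X : ℕ in Filter.atTop, 4 * C * 2 ^ (K + 2 * B + 2) ≤ (Real.log X) ^ 2 :=
    ((Filter.tendsto_pow_atTop two_ne_zero).comp hlog).eventually_ge_atTop _
  have e2 : ∀ᶠ X : ℕ in Filter.atTop, (Real.log X) ^ (B + K) ≤ X := by
    have h := (Real.isLittleO_pow_log_id_atTop (n := B + K)).bound (zero_lt_one : (0 : ℝ) < 1)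
    have h' := tendsto_natCast_atTop_atTop.eventually h
    filter_upwards [h'] with X hX
    simp only [id, one_mul, Real.norm_eq_abs] at hX
    exact (le_abs_self _).trans (hX.trans (le_of_eq (abs_of_nonneg (Nat.cast_nonneg _))))
  have e3 : ∀ᶠ X : ℕ in Filter.atTop, (Real.log X) ^ B ≤ 1 / 4 * X := by
    have h := (Real.isLittleO_pow_log_id_atTop (n := B)).bound (by norm_num : (0 : ℝ) < 1 / 4)
    have h' := tendsto_natCast_atTop_atTop.eventually h
    filter_upwards [h'] with X hX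
    simp only [id, Real.norm_eq_abs] at hX
    refine (le_abs_self _).trans (hX.trans (le_of_eq ?_))
    rw [abs_of_nonneg (Nat.cast_nonneg _)]
  obtain ⟨X₀, hX₀⟩ := Filter.eventually_atTop.1
    (e1.and (e2.and (e3.and ((Filter.eventually_ge_atTop 16).and
      (hlog.eventually_ge_atTop 1)))))
  refine ⟨X₀, fun X hX M hM hMB F hF hF1 => ?_⟩
  obtain ⟨g1, g2, g3, g4, g5⟩ := hX₀ X hX
  have hXR : (16 : ℝ) ≤ X := by exact_mod_cast g4
  have hMR : (1 : ℝ) ≤ M := by exact_mod_cast hM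
  set L : ℝ := Real.log X with hL
  have hMX : M ≤ X / 2 := by
    have h1 : (M : ℝ) ≤ 1 / 4 * X := hMB.trans g3
    have h2 : (4 : ℝ) * M ≤ X := by linarith
    have h3 : 4 * M ≤ X := by exact_mod_cast h2
    omega
  have hper : ∀ n, F (n % M) = F n := fun n =>
    Function.Periodic.map_mod_nat (f := F) (a := M) (fun n => hF n) n
  -- split into classes
  have hsplit : ∑ p ∈ Ioc (X / 2) X, lam p * F p =
      ∑ x ∈ range M, F x * ∑ p ∈ (Ioc (X / 2) X).filter (fun p => p % M = x), lam p := by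
    rw [← Finset.sum_fiberwise_of_maps_to (s := Ioc (X / 2) X) (t := range M) (g := fun p => p % M)
      (fun p _ => Finset.mem_range.2 (Nat.mod_lt _ hM))]
    refine Finset.sum_congr rfl fun x _ => ?_
    rw [Finset.mul_sum]
    refine Finset.sum_congr rfl fun p hp => ?_
    rw [Finset.mem_filter] at hp
    have h1 : F p = F x := by rw [← hp.2, hper]
    rw [h1]
    ring
  have hzero : ∀ x ∈ range M, ¬ Nat.Coprime x M →
      F x * ∑ p ∈ (Ioc (X / 2) X).filter (fun p => p % M = x), lam p = 0 := by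
    intro x _ hnc
    have h0 : ∑ p ∈ (Ioc (X / 2) X).filter (fun p => p % M = x), lam p = 0 := by
      refine Finset.sum_eq_zero fun p hp => ?_
      rw [Finset.mem_filter, Finset.mem_Ioc] at hp
      unfold lam
      rw [if_neg]
      intro hpp
      apply hnc
      rw [← hp.2]
      have hcop : Nat.Coprime p M := by
        rw [Nat.Prime.coprime_iff_not_dvd hpp]
        intro hd
        have := Nat.le_of_dvd (by omega) hd
        omega
      unfold Nat.Coprime
      rw [← Nat.gcd_rec, Nat.gcd_comm]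
      exact hcop
    rw [h0, mul_zero]
  have hsum : ∑ p ∈ Ioc (X / 2) X, lam p * F p =
      ∑ x ∈ (range M).filter (fun x => Nat.Coprime x M),
        F x * ∑ p ∈ (Ioc (X / 2) X).filter (fun p => p % M = x), lam p := by
    rw [hsplit, Finset.sum_filter]
    refine Finset.sum_congr rfl fun x hx => ?_
    by_cases hc : Nat.Coprime x M
    · rw [if_pos hc]
    · rw [if_neg hc, hzero x hx hc]
  have hdec : ∑ p ∈ Ioc (X / 2) X, lam p * F p -
        (X / 2 : ℝ) / (M.totient : ℝ) * ∑ x ∈ (range M).filter (fun x => Nat.Coprime x M), F x =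
      ∑ x ∈ (range M).filter (fun x => Nat.Coprime x M),
        F x * (∑ p ∈ (Ioc (X / 2) X).filter (fun p => p % M = x), lam p -
          (X / 2 : ℝ) / (M.totient : ℝ)) := by
    rw [hsum, Finset.mul_sum, ← Finset.sum_sub_distrib]
    refine Finset.sum_congr rfl fun x _ => ?_
    ring
  rw [hdec]
  set E : ℝ := 2 * (C * M * X * 2 ^ (K + 2 * B + 2) / L ^ (K + 2 * B + 2)) + 1 / 2 with hE
  have hE0 : 0 ≤ E := by positivity
  have hbd : |∑ x ∈ (range M).filter (fun x => Nat.Coprime x M),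
        F x * (∑ p ∈ (Ioc (X / 2) X).filter (fun p => p % M = x), lam p -
          (X / 2 : ℝ) / (M.totient : ℝ))| ≤ M * E := by
    refine (Finset.abs_sum_le_sum_abs _ _).trans ?_
    have h1 : ∀ x ∈ (range M).filter (fun x => Nat.Coprime x M),
        |F x * (∑ p ∈ (Ioc (X / 2) X).filter (fun p => p % M = x), lam p -
          (X / 2 : ℝ) / (M.totient : ℝ))| ≤ E := by
      intro x hx
      rw [Finset.mem_filter, Finset.mem_range] at hx
      rw [abs_mul]
      have h2 := MP1_class hT hC X M x g4 hM hx.1 hx.2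
      calc |F x| * |∑ p ∈ (Ioc (X / 2) X).filter (fun p => p % M = x), lam p -
          (X / 2 : ℝ) / (M.totient : ℝ)| ≤ 1 * E :=
            mul_le_mul (hF1 x) h2 (abs_nonneg _) zero_le_one
        _ = E := one_mul _
    refine (Finset.sum_le_card_nsmul _ _ _ h1).trans ?_
    rw [nsmul_eq_mul]
    refine mul_le_mul_of_nonneg_right ?_ hE0
    have h3 : ((range M).filter (fun x => Nat.Coprime x M)).card ≤ M := by
      refine (Finset.card_filter_le _ _).trans ?_
      rw [Finset.card_range]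
    exact_mod_cast h3
  refine hbd.trans ?_
  -- numerics
  have hL0 : 0 < L := by linarith
  have hLB : (0 : ℝ) ≤ L ^ B := by positivity
  have h1 : (M : ℝ) * E ≤ L ^ B * (2 * (C * L ^ B * X * 2 ^ (K + 2 * B + 2) / L ^ (K + 2 * B + 2)) +
      1 / 2) := by
    refine mul_le_mul hMB ?_ hE0 hLB
    rw [hE]
    have h2 : C * (M : ℝ) * X * 2 ^ (K + 2 * B + 2) / L ^ (K + 2 * B + 2) ≤
        C * L ^ B * X * 2 ^ (K + 2 * B + 2) / L ^ (K + 2 * B + 2) := by
      refine div_le_div_of_nonneg_right ?_ (by positivity)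
      refine mul_le_mul_of_nonneg_right ?_ (by positivity)
      refine mul_le_mul_of_nonneg_right ?_ (by positivity)
      exact mul_le_mul_of_nonneg_left hMB hC.le
    linarith
  refine h1.trans ?_
  rw [le_div_iff₀ (by positivity)]
  have hLK : L ^ (K + 2 * B + 2) = L ^ K * L ^ B * L ^ B * L ^ 2 := by
    rw [← pow_add, ← pow_add, ← pow_add]
    congr 1
    omega
  have h3 : L ^ B * (2 * (C * L ^ B * X * 2 ^ (K + 2 * B + 2) / L ^ (K + 2 * B + 2)) + 1 / 2) *
      L ^ K = 2 * C * 2 ^ (K + 2 * B + 2) * X / L ^ 2 + L ^ (B + K) / 2 := by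
    rw [hLK, pow_add L B K]
    field_simp
  rw [h3]
  have h4 : 2 * C * 2 ^ (K + 2 * B + 2) * X / L ^ 2 ≤ X / 2 := by
    rw [div_le_iff₀ (by positivity)]
    nlinarith
  linarith

end Pool.Agent.Lib.SW
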