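import Pool.Agent.Lib.SW.SP3
import Pool.Agent.Lib.MP_7b7e48_nt.GT.LocalAvg

/-!
# MP-2: local averages over the reduced residues

`g_p(n) = -1` if `p ∣ n`, `1/(p-1)` otherwise (`gq q n = ∏_{p ∣ q} g_p(n)`).

`b1 p s = 1/(p-1)^2 + [p ∣ s]/(p-1)`, `b2 p h = 3/(p-1)^2 + [p ∣ h]/(p-1)`.

PROOFS.
`avg_one`: `p` odd prime.  If `p ∣ s`, no `0 < y < p` has `p ∣ 2y - s`: the sum is `(p-1)/(p-1) = 1`.  If `p ∤ s`
exactly one `0 < y < p` has `p ∣ 2y - s`: the sum is `-1 + (p-2)/(p-1) = -1/(p-1)`.  In both cases the modulus is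
at most `(p-1) b1 p s`.
`avg_two`: the terms with `p ∣ 2y - s` and `p ∣ 2y - s'` (at most one `y`, and only if `p ∣ s - s'`)
contribute at most `1`; exactly one of the two divisibilities: at most two `y`, each term has modulus `1/(p-1)`;
none: at most `p-1` terms of modulus `1/(p-1)^2`.  Total `≤ [p ∣ s - s'] + 3/(p-1) = (p-1) b2 p (s - s')`.
`local_prod`: `M = W m`, `m = lcm q q'`.  By `GT.LA.sum_prod_period` with the set of primes `W.primeFactors ∪
m.primeFactors` (product `W m`; `W`, `m` squarefree and coprime) and `f p y = [p ∤ y] [y ≡ a mod p]` for `p ∣ W`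
(sum over `y < p` is `1` since `(a, W) = 1`), `f p y = [p ∤ y] (g_p(2y - s) if p ∣ q) (g_p(2y - s') if p ∣ q')` for
`p ∣ m`.  Coprimality of `x` to `W m`, the congruence `x ≡ a mod W` and the values of gq are products over the primes;
gq only depends on `x % p`.
`local_le`: absolute values, `avg_one`, `avg_two`, `φ(m) = ∏_{p ∣ m} (p - 1)` (`sp2_phi`).
-/

set_option autoImplicit false

open Finset Pool.Agent.Lib.GT

namespace Pool.Agent.Lib.SW

/-- the factor of `gq` at `p` -/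
noncomputable def gp (p : ℕ) (n : ℤ) : ℝ := if (p : ℤ) ∣ n then (-1 : ℝ) else 1 / ((p : ℝ) - 1)

noncomputable def b1 (p : ℕ) (s : ℤ) : ℝ :=
  1 / ((p : ℝ) - 1) ^ 2 + (if (p : ℤ) ∣ s then 1 / ((p : ℝ) - 1) else 0)

noncomputable def b2 (p : ℕ) (h : ℤ) : ℝ :=
  3 / ((p : ℝ) - 1) ^ 2 + (if (p : ℤ) ∣ h then 1 / ((p : ℝ) - 1) else 0)

/-- bound at the prime `p` for the pair `q, q'` -/
noncomputable def bp (q q' : ℕ) (s s' : ℤ) (p : ℕ) : ℝ :=
  if p ∣ q ∧ p ∣ q' then b2 p (s - s') else if p ∣ q then b1 p s else b1 p s'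

/-- indicator of `p ∣ n` -/
noncomputable def MP2_ind (p : ℕ) (n : ℤ) : ℝ := if (p : ℤ) ∣ n then 1 else 0

theorem MP2_ind_nonneg (p : ℕ) (n : ℤ) : 0 ≤ MP2_ind p n := by
  unfold MP2_ind
  split_ifs
  · exact zero_le_one
  · exact le_rfl

theorem MP2_gp (p : ℕ) (n : ℤ) :
    gp p n = 1 / ((p : ℝ) - 1) - MP2_ind p n * (1 + 1 / ((p : ℝ) - 1)) := by
  unfold gp MP2_ind
  split_ifs <;> ring

theorem MP2_abs (p : ℕ) (hp : 2 < p) (n : ℤ) : |gp p n| ≤ MP2_ind p n + 1 / ((p : ℝ) - 1) := by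
  have hpR : (2 : ℝ) < p := by exact_mod_cast hp
  have h0 : 0 < 1 / ((p : ℝ) - 1) := one_div_pos.2 (by linarith)
  unfold gp MP2_ind
  split_ifs
  · rw [abs_neg, abs_one]
    linarith
  · rw [abs_of_pos h0]
    linarith

theorem MP2_uniq (p : ℕ) (hp : p.Prime) (hp2 : 2 < p) (s : ℤ) {y y' : ℕ} (hy : y < p)
    (hy' : y' < p) (h : (p : ℤ) ∣ 2 * (y : ℤ) - s) (h' : (p : ℤ) ∣ 2 * (y' : ℤ) - s) : y = y' := by
  have h1 : (p : ℤ) ∣ 2 * ((y : ℤ) - y') := by
    have := dvd_sub h h'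
    have e : 2 * (y : ℤ) - s - (2 * (y' : ℤ) - s) = 2 * ((y : ℤ) - y') := by ring
    rwa [e] at this
  have hpI : Prime (p : ℤ) := Nat.prime_iff_prime_int.1 hp
  rcases hpI.dvd_or_dvd h1 with h2 | h2
  · exfalso
    have := Int.le_of_dvd (by norm_num) h2
    omega
  · have h3 : (y : ℤ) - y' = 0 := by
      refine Int.eq_zero_of_abs_lt_dvd h2 ?_
      rw [abs_lt]
      constructor <;> omega
    omega

theorem MP2_card_le (p : ℕ) (hp : p.Prime) (hp2 : 2 < p) (s : ℤ) :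
    ∑ y ∈ (range p).filter (fun y => y ≠ 0), MP2_ind p (2 * (y : ℤ) - s) ≤ 1 := by
  unfold MP2_ind
  rw [Finset.sum_ite, Finset.sum_const_zero, add_zero, Finset.sum_const, nsmul_eq_mul, mul_one]
  have h : (((range p).filter (fun y => y ≠ 0)).filter
      (fun y : ℕ => (p : ℤ) ∣ 2 * (y : ℤ) - s)).card ≤ 1 := by
    rw [Finset.card_le_one]
    intro a ha b hb
    rw [Finset.mem_filter, Finset.mem_filter, Finset.mem_range] at ha hb
    exact MP2_uniq p hp hp2 s ha.1.1 hb.1.1 ha.2 hb.2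
  exact_mod_cast h

theorem MP2_card (p : ℕ) (hp : p.Prime) (hp2 : 2 < p) (s : ℤ) :
    ∑ y ∈ (range p).filter (fun y => y ≠ 0), MP2_ind p (2 * (y : ℤ) - s) =
      if (p : ℤ) ∣ s then 0 else 1 := by
  have hpI : Prime (p : ℤ) := Nat.prime_iff_prime_int.1 hp
  by_cases hs : (p : ℤ) ∣ s
  · rw [if_pos hs]
    refine Finset.sum_eq_zero fun y hy => ?_
    rw [Finset.mem_filter, Finset.mem_range] at hy
    unfold MP2_ind
    rw [if_neg]
    intro h
    have h1 : (p : ℤ) ∣ 2 * (y : ℤ) := by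
      have := dvd_add h hs
      rwa [sub_add_cancel] at this
    have h0 : y = 0 := by
      refine MP2_uniq p hp hp2 0 hy.1 hp.pos (by simpa using h1) (by simp)
    exact hy.2 h0
  · rw [if_neg hs]
    refine le_antisymm (MP2_card_le p hp hp2 s) ?_
    have hodd : p % 2 = 1 := by
      rcases hp.eq_two_or_odd with h | h
      · omega
      · exact h
    obtain ⟨h, hh⟩ : ∃ h : ℤ, 2 * h = (p : ℤ) + 1 := ⟨((p : ℤ) + 1) / 2, by omega⟩
    have hpos : (0 : ℤ) < p := by exact_mod_cast hp.pos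
    set z : ℤ := (s * h) % p with hz
    have hz0 : 0 ≤ z := Int.emod_nonneg _ hpos.ne'
    have hzp : z < p := Int.emod_lt_of_pos _ hpos
    have hzd : (p : ℤ) ∣ 2 * z - s := by
      have h1 : (p : ℤ) ∣ s * h - z := Int.dvd_self_sub_emod
      have h2 : 2 * z - s = (p : ℤ) * s - 2 * (s * h - z) := by
        have : s * (2 * h) = s * ((p : ℤ) + 1) := by rw [hh]
        linear_combination this
      rw [h2]
      exact dvd_sub (Dvd.intro _ rfl) (Dvd.dvd.mul_left h1 _)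
    obtain ⟨y, hy⟩ : ∃ y : ℕ, (y : ℤ) = z := ⟨z.toNat, Int.toNat_of_nonneg hz0⟩
    rw [← hy] at hzd hzp
    have hyp : y < p := by exact_mod_cast hzp
    have hy0 : y ≠ 0 := by
      rintro rfl
      apply hs
      have : (p : ℤ) ∣ -s := by simpa using hzd
      exact (dvd_neg).1 this
    have hmem : y ∈ (range p).filter (fun y => y ≠ 0) := by
      rw [Finset.mem_filter, Finset.mem_range]
      exact ⟨hyp, hy0⟩
    have h3 := Finset.single_le_sum (f := fun y : ℕ => MP2_ind p (2 * (y : ℤ) - s))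
      (fun i _ => MP2_ind_nonneg p _) hmem
    refine le_trans (le_of_eq ?_) h3
    show 1 = MP2_ind p (2 * (y : ℤ) - s)
    unfold MP2_ind
    rw [if_pos hzd]

theorem MP2_cardR (p : ℕ) (hp : p.Prime) :
    ((((range p).filter (fun y => y ≠ 0)).card : ℕ) : ℝ) = (p : ℝ) - 1 := by
  have h : ((range p).filter (fun y => y ≠ 0)).card = p - 1 := by
    have e : (range p).filter (fun y => y ≠ 0) = (range p).erase 0 := by
      ext y
      rw [Finset.mem_filter, Finset.mem_erase]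
      tauto
    rw [e, Finset.card_erase_of_mem (Finset.mem_range.2 hp.pos), Finset.card_range]
  rw [h, Nat.cast_sub hp.one_le, Nat.cast_one]

theorem avg_one (p : ℕ) (hp : p.Prime) (hp2 : 2 < p) (s : ℤ) :
    |∑ y ∈ (range p).filter (fun y => y ≠ 0), gp p (2 * (y : ℤ) - s)| ≤ ((p : ℝ) - 1) * b1 p s := by
  have hpR : (2 : ℝ) < p := by exact_mod_cast hp2
  have hp1 : (0 : ℝ) < (p : ℝ) - 1 := by linarith
  have h1 : ∑ y ∈ (range p).filter (fun y => y ≠ 0), gp p (2 * (y : ℤ) - s) =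
      1 - (if (p : ℤ) ∣ s then 0 else 1) * (1 + 1 / ((p : ℝ) - 1)) := by
    rw [← MP2_card p hp hp2 s, Finset.sum_mul]
    have e : (1 : ℝ) = ∑ _y ∈ (range p).filter (fun y => y ≠ 0), 1 / ((p : ℝ) - 1) := by
      rw [Finset.sum_const, nsmul_eq_mul, MP2_cardR p hp]
      field_simp
    conv_rhs => rw [e]
    rw [← Finset.sum_sub_distrib]
    refine Finset.sum_congr rfl fun y _ => ?_
    rw [MP2_gp, ← e]
  rw [h1]
  unfold b1
  have h0 : 0 < 1 / ((p : ℝ) - 1) := one_div_pos.2 hp1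
  have e2 : ((p : ℝ) - 1) * (1 / ((p : ℝ) - 1) ^ 2) = 1 / ((p : ℝ) - 1) := by
    field_simp
  split_ifs with hs
  · rw [zero_mul, sub_zero, abs_one, mul_add, e2]
    have e3 : ((p : ℝ) - 1) * (1 / ((p : ℝ) - 1)) = 1 := by field_simp
    rw [e3]
    linarith
  · rw [one_mul, add_zero, e2]
    have e3 : (1 : ℝ) - (1 + 1 / ((p : ℝ) - 1)) = -(1 / ((p : ℝ) - 1)) := by ring
    rw [e3, abs_neg, abs_of_pos h0]

theorem avg_two (p : ℕ) (hp : p.Prime) (hp2 : 2 < p) (s s' : ℤ) :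
    |∑ y ∈ (range p).filter (fun y => y ≠ 0), gp p (2 * (y : ℤ) - s) * gp p (2 * (y : ℤ) - s')| ≤
      ((p : ℝ) - 1) * b2 p (s - s') := by
  have hpR : (2 : ℝ) < p := by exact_mod_cast hp2
  have hp1 : (0 : ℝ) < (p : ℝ) - 1 := by linarith
  have h0 : 0 < 1 / ((p : ℝ) - 1) := one_div_pos.2 hp1
  have hterm : ∀ y ∈ (range p).filter (fun y => y ≠ 0),
      |gp p (2 * (y : ℤ) - s) * gp p (2 * (y : ℤ) - s')| ≤
        MP2_ind p (2 * (y : ℤ) - s) * MP2_ind p (s - s') +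
        (MP2_ind p (2 * (y : ℤ) - s) + MP2_ind p (2 * (y : ℤ) - s')) * (1 / ((p : ℝ) - 1)) +
        1 / ((p : ℝ) - 1) ^ 2 := by
    intro y _
    rw [abs_mul]
    have a1 := MP2_abs p hp2 (2 * (y : ℤ) - s)
    have a2 := MP2_abs p hp2 (2 * (y : ℤ) - s')
    have i1 := MP2_ind_nonneg p (2 * (y : ℤ) - s)
    have i2 := MP2_ind_nonneg p (2 * (y : ℤ) - s')
    have h1 : |gp p (2 * (y : ℤ) - s)| * |gp p (2 * (y : ℤ) - s')| ≤
        (MP2_ind p (2 * (y : ℤ) - s) + 1 / ((p : ℝ) - 1)) *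
          (MP2_ind p (2 * (y : ℤ) - s') + 1 / ((p : ℝ) - 1)) :=
      mul_le_mul a1 a2 (abs_nonneg _) (by linarith)
    have h2 : MP2_ind p (2 * (y : ℤ) - s) * MP2_ind p (2 * (y : ℤ) - s') ≤
        MP2_ind p (2 * (y : ℤ) - s) * MP2_ind p (s - s') := by
      unfold MP2_ind
      split_ifs with c1 c2 c3
      · exact le_rfl
      · exfalso
        apply c3
        have := dvd_sub c2 c1
        have e : 2 * (y : ℤ) - s' - (2 * (y : ℤ) - s) = s - s' := by ring
        rwa [e] at this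
      · norm_num
      · norm_num
      · norm_num
      · norm_num
      · norm_num
      · norm_num
    have e3 : (1 / ((p : ℝ) - 1)) * (1 / ((p : ℝ) - 1)) = 1 / ((p : ℝ) - 1) ^ 2 := by
      rw [div_mul_div_comm, one_mul, sq]
    nlinarith
  refine (Finset.abs_sum_le_sum_abs _ _).trans ((Finset.sum_le_sum hterm).trans ?_)
  rw [Finset.sum_add_distrib, Finset.sum_add_distrib, ← Finset.sum_mul, ← Finset.sum_mul,
    Finset.sum_add_distrib, Finset.sum_const, nsmul_eq_mul, MP2_cardR p hp]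
  have c1 := MP2_card_le p hp hp2 s
  have c2 := MP2_card_le p hp hp2 s'
  have i3 := MP2_ind_nonneg p (s - s')
  have e4 : ((p : ℝ) - 1) * (1 / ((p : ℝ) - 1) ^ 2) = 1 / ((p : ℝ) - 1) := by
    field_simp
  have e5 : ((p : ℝ) - 1) * b2 p (s - s') = 3 * (1 / ((p : ℝ) - 1)) + MP2_ind p (s - s') := by
    unfold b2 MP2_ind
    split_ifs
    · field_simp
    · field_simp
      ring
  rw [e5, e4]
  have k1 := mul_le_mul_of_nonneg_right c1 i3
  have k2 := mul_le_mul_of_nonneg_right (add_le_add c1 c2) h0.le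
  linarith

end Pool.Agent.Lib.SW
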