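import Pool.Agent.Lib.SW.MP.MP2

/-!
# MP-2b: the product formula for the averages over reduced residues

See the head comment of `MP2`.
-/

set_option autoImplicit false

open Finset Pool.Agent.Lib.GT

namespace Pool.Agent.Lib.SW

theorem mp2b_sqf (q q' : ℕ) (hq : Squarefree q) (hq' : Squarefree q') :
    Squarefree (Nat.lcm q q') := by
  have h0 : Nat.lcm q q' ≠ 0 := Nat.lcm_ne_zero hq.ne_zero hq'.ne_zero
  refine Nat.squarefree_of_factorization_le_one h0 fun p => ?_
  rw [Nat.factorization_lcm hq.ne_zero hq'.ne_zero, Finsupp.sup_apply]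
  exact sup_le (hq.natFactorization_le_one p) (hq'.natFactorization_le_one p)

theorem mp2b_cop (W q q' : ℕ) (h : Nat.Coprime W q) (h' : Nat.Coprime W q') :
    Nat.Coprime W (Nat.lcm q q') :=
  Nat.Coprime.coprime_dvd_right (Nat.lcm_dvd_mul q q') (Nat.Coprime.mul_right h h')

theorem mp2b_gq (q m : ℕ) (h : q ∣ m) (hm : m ≠ 0) (n : ℤ) :
    gq q n = ∏ p ∈ m.primeFactors, (if p ∣ q then gp p n else 1) := by
  have hq : q ≠ 0 := fun h0 => hm (by rw [h0, zero_dvd_iff] at h; exact h)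
  rw [← Finset.prod_filter]
  have h1 : m.primeFactors.filter (fun p => p ∣ q) = q.primeFactors := by
    ext p
    rw [Finset.mem_filter, Nat.mem_primeFactors, Nat.mem_primeFactors]
    constructor
    · rintro ⟨⟨h2, -, -⟩, h3⟩
      exact ⟨h2, h3, hq⟩
    · rintro ⟨h2, h3, -⟩
      exact ⟨⟨h2, h3.trans h, hm⟩, h3⟩
  rw [h1]
  rfl

theorem mp2b_gp (p x : ℕ) (s : ℤ) :
    gp p (2 * (x : ℤ) - s) = gp p (2 * ((x % p : ℕ) : ℤ) - s) := by
  unfold gp
  have h1 : (p : ℤ) ∣ 2 * (x : ℤ) - s ↔ (p : ℤ) ∣ 2 * ((x % p : ℕ) : ℤ) - s := by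
    have h2 : (2 * (x : ℤ) - s) = (2 * ((x % p : ℕ) : ℤ) - s) + (p : ℤ) * (2 * ((x / p : ℕ) : ℤ)) := by
      have h3 : (x : ℤ) = ((x % p : ℕ) : ℤ) + (p : ℤ) * ((x / p : ℕ) : ℤ) := by
        exact_mod_cast (Nat.mod_add_div x p).symm
      linear_combination 2 * h3
    rw [h2]
    exact dvd_add_left (dvd_mul_right _ _)
  simp only [h1]

/-- the local factor -/
noncomputable def mp2bF (W a q q' : ℕ) (s s' : ℤ) (p y : ℕ) : ℝ :=
  (if y = 0 then 0 else 1) * (if p ∣ W then (if y ≡ a [MOD p] then 1 else 0) else 1) *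
    ((if p ∣ q then gp p (2 * (y : ℤ) - s) else 1) *
      (if p ∣ q' then gp p (2 * (y : ℤ) - s') else 1))

theorem mp2b_cong (W a x : ℕ) (hW : Squarefree W) :
    x ≡ a [MOD W] ↔ ∀ p ∈ W.primeFactors, x ≡ a [MOD p] := by
  constructor
  · intro h p hp
    exact h.of_dvd (Nat.dvd_of_mem_primeFactors hp)
  · intro h
    rw [Nat.modEq_iff_dvd, Int.natCast_dvd, ← Nat.prod_primeFactors_of_squarefree hW]
    refine Finset.prod_primes_dvd _ (fun p hp => (Nat.prime_of_mem_primeFactors hp).prime) ?_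
    intro p hp
    have h1 := h p hp
    rw [Nat.modEq_iff_dvd, Int.natCast_dvd] at h1
    exact h1

theorem mp2b_copr (M x : ℕ) (hM : M ≠ 0) :
    Nat.Coprime x M ↔ ∀ p ∈ M.primeFactors, x % p ≠ 0 := by
  constructor
  · intro h p hp h0
    have hpp := Nat.prime_of_mem_primeFactors hp
    have h1 : p ∣ Nat.gcd x M := Nat.dvd_gcd (Nat.dvd_of_mod_eq_zero h0) (Nat.dvd_of_mem_primeFactors hp)
    rw [h] at h1
    exact hpp.one_lt.ne' (Nat.dvd_one.1 h1)
  · intro h
    refine Nat.Coprime.symm (Nat.coprime_of_dvd fun p hp h1 h2 => ?_)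
    exact h p (Nat.mem_primeFactors.2 ⟨hp, h1, hM⟩) (Nat.mod_eq_zero_of_dvd h2)

theorem mp2b_ind (P : Finset ℕ) (c : ℕ → Prop) [DecidablePred c] :
    (∏ p ∈ P, (if c p then (1 : ℝ) else 0)) = if ∀ p ∈ P, c p then 1 else 0 := by
  by_cases h : ∀ p ∈ P, c p
  · rw [if_pos h]
    exact Finset.prod_eq_one fun p hp => if_pos (h p hp)
  · rw [if_neg h]
    push Not at h
    obtain ⟨p, hp, hc⟩ := h
    exact Finset.prod_eq_zero hp (if_neg hc)

theorem local_prod (W a q q' : ℕ) (hW : Squarefree W) (ha : Nat.Coprime a W) (hq : Squarefree q)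
    (hq' : Squarefree q') (hWq : Nat.Coprime W q) (hWq' : Nat.Coprime W q') (s s' : ℤ) :
    ∑ x ∈ (range (W * Nat.lcm q q')).filter (fun x => Nat.Coprime x (W * Nat.lcm q q')),
        (if x ≡ a [MOD W] then gq q (2 * (x : ℤ) - s) * gq q' (2 * (x : ℤ) - s') else 0) =
      ∏ p ∈ (Nat.lcm q q').primeFactors, ∑ y ∈ (range p).filter (fun y => y ≠ 0),
        ((if p ∣ q then gp p (2 * (y : ℤ) - s) else 1) *
          (if p ∣ q' then gp p (2 * (y : ℤ) - s') else 1)) := by
  classical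
  obtain ⟨m, hm⟩ : ∃ m, m = Nat.lcm q q' := ⟨_, rfl⟩
  have hms : Squarefree m := hm ▸ mp2b_sqf q q' hq hq'
  have hWm : Nat.Coprime W m := hm ▸ mp2b_cop W q q' hWq hWq'
  have hqm : q ∣ m := hm ▸ Nat.dvd_lcm_left q q'
  have hqm' : q' ∣ m := hm ▸ Nat.dvd_lcm_right q q'
  rw [← hm]
  have hMs : Squarefree (W * m) := (Nat.squarefree_mul hWm).2 ⟨hW, hms⟩
  have hM0 : W * m ≠ 0 := hMs.ne_zero
  have hpf : (W * m).primeFactors = W.primeFactors ∪ m.primeFactors := hWm.primeFactors_mul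
  have hdis : Disjoint W.primeFactors m.primeFactors := hWm.disjoint_primeFactors
  have hper := LA.sum_prod_period (W * m).primeFactors
    (fun p hp => Nat.prime_of_mem_primeFactors hp) (mp2bF W a q q' s s')
  rw [Nat.prod_primeFactors_of_squarefree hMs] at hper
  have hpW : ∀ p ∈ W.primeFactors, ¬ p ∣ q ∧ ¬ p ∣ q' := by
    intro p hp
    have h1 := Nat.prime_of_mem_primeFactors hp
    have h2 := Nat.dvd_of_mem_primeFactors hp
    refine ⟨fun h3 => ?_, fun h3 => ?_⟩
    · exact Nat.Prime.not_coprime_iff_dvd.2 ⟨p, h1, h2, h3⟩ hWq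
    · exact Nat.Prime.not_coprime_iff_dvd.2 ⟨p, h1, h2, h3⟩ hWq'
  have hpm : ∀ p ∈ m.primeFactors, ¬ p ∣ W := by
    intro p hp h3
    have h1 := Nat.prime_of_mem_primeFactors hp
    have h2 := Nat.dvd_of_mem_primeFactors hp
    exact Nat.Prime.not_coprime_iff_dvd.2 ⟨p, h1, h3, h2⟩ hWm
  have hleft : ∑ x ∈ (range (W * m)).filter (fun x => Nat.Coprime x (W * m)),
      (if x ≡ a [MOD W] then gq q (2 * (x : ℤ) - s) * gq q' (2 * (x : ℤ) - s') else 0) =
      ∑ x ∈ range (W * m), ∏ p ∈ (W * m).primeFactors, mp2bF W a q q' s s' p (x % p) := by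
    rw [Finset.sum_filter]
    refine Finset.sum_congr rfl fun x _ => ?_
    unfold mp2bF
    rw [Finset.prod_mul_distrib, Finset.prod_mul_distrib]
    have e1 : (∏ p ∈ (W * m).primeFactors, (if x % p = 0 then (0 : ℝ) else 1)) =
        if Nat.Coprime x (W * m) then 1 else 0 := by
      have e0 : ∀ p ∈ (W * m).primeFactors, (if x % p = 0 then (0 : ℝ) else 1) =
          if x % p ≠ 0 then 1 else 0 := by
        intro p _
        by_cases h : x % p = 0 <;> simp [h]
      rw [Finset.prod_congr rfl e0, mp2b_ind]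
      exact if_congr (mp2b_copr (W * m) x hM0).symm rfl rfl
    have e2 : (∏ p ∈ (W * m).primeFactors, (if p ∣ W then
        (if x % p ≡ a [MOD p] then (1 : ℝ) else 0) else 1)) =
        if x ≡ a [MOD W] then 1 else 0 := by
      rw [hpf, Finset.prod_union hdis]
      have e3 : ∏ p ∈ m.primeFactors, (if p ∣ W then
          (if x % p ≡ a [MOD p] then (1 : ℝ) else 0) else 1) = 1 :=
        Finset.prod_eq_one fun p hp => if_neg (hpm p hp)
      have e4 : ∀ p ∈ W.primeFactors, (if p ∣ W then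
          (if x % p ≡ a [MOD p] then (1 : ℝ) else 0) else 1) =
          if x ≡ a [MOD p] then 1 else 0 := by
        intro p hp
        rw [if_pos (Nat.dvd_of_mem_primeFactors hp)]
        refine if_congr ?_ rfl rfl
        unfold Nat.ModEq
        rw [Nat.mod_mod]
      rw [e3, mul_one, Finset.prod_congr rfl e4, mp2b_ind]
      exact if_congr (mp2b_cong W a x hW).symm rfl rfl
    have e5 : (∏ p ∈ (W * m).primeFactors, ((if p ∣ q then gp p (2 * ((x % p : ℕ) : ℤ) - s) else 1) *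
        (if p ∣ q' then gp p (2 * ((x % p : ℕ) : ℤ) - s') else 1))) =
        gq q (2 * (x : ℤ) - s) * gq q' (2 * (x : ℤ) - s') := by
      rw [Finset.prod_mul_distrib, mp2b_gq q (W * m) (hqm.mul_left W) hM0,
        mp2b_gq q' (W * m) (hqm'.mul_left W) hM0]
      congr 1
      · refine Finset.prod_congr rfl fun p _ => ?_
        rw [← mp2b_gp]
      · refine Finset.prod_congr rfl fun p _ => ?_
        rw [← mp2b_gp]
    rw [e1, e2, e5]
    by_cases h1 : Nat.Coprime x (W * m)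
    · by_cases h2 : x ≡ a [MOD W]
      · simp [h1, h2]
      · simp [h1, h2]
    · simp [h1]
  rw [hleft, hper, hpf, Finset.prod_union hdis]
  have hone : ∏ p ∈ W.primeFactors, ∑ y ∈ range p, mp2bF W a q q' s s' p y = 1 := by
    refine Finset.prod_eq_one fun p hp => ?_
    have hpp := Nat.prime_of_mem_primeFactors hp
    have hpd := Nat.dvd_of_mem_primeFactors hp
    have ha0 : a % p ≠ 0 := by
      intro h0
      have : p ∣ a := Nat.dvd_of_mod_eq_zero h0
      exact Nat.Prime.not_coprime_iff_dvd.2 ⟨p, hpp, this, hpd⟩ ha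
    rw [Finset.sum_eq_single (a % p)]
    · unfold mp2bF
      rw [if_neg ha0, if_pos hpd, if_neg (hpW p hp).1, if_neg (hpW p hp).2,
        if_pos (Nat.mod_modEq a p)]
      norm_num
    · intro y hy hne
      unfold mp2bF
      have hnc : ¬ y ≡ a [MOD p] := by
        intro hc
        apply hne
        unfold Nat.ModEq at hc
        rw [Nat.mod_eq_of_lt (Finset.mem_range.1 hy)] at hc
        exact hc
      rw [if_pos hpd, if_neg hnc, mul_zero, zero_mul]
    · intro h
      exact absurd (Finset.mem_range.2 (Nat.mod_lt _ hpp.pos)) h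
  rw [hone, one_mul]
  refine Finset.prod_congr rfl fun p hp => ?_
  rw [Finset.sum_filter]
  refine Finset.sum_congr rfl fun y _ => ?_
  unfold mp2bF
  rw [if_neg (hpm p hp), mul_one]
  by_cases h : y = 0 <;> simp [h]

end Pool.Agent.Lib.SW
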