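import Pool.Agent.Lib.SW.MP.MP2b

/-!
# MP-2c: the bound for the averages over reduced residues

See the head comment of `MP2`.
-/

set_option autoImplicit false

open Finset Pool.Agent.Lib.GT

namespace Pool.Agent.Lib.SW

theorem local_le (W a q q' : ℕ) (hW : Squarefree W) (ha : Nat.Coprime a W) (hq : Squarefree q)
    (hq' : Squarefree q') (hWq : Nat.Coprime W q) (hWq' : Nat.Coprime W q')
    (h2 : ∀ p : ℕ, p.Prime → p ∣ q * q' → 2 < p) (s s' : ℤ) :
    |∑ x ∈ (range (W * Nat.lcm q q')).filter (fun x => Nat.Coprime x (W * Nat.lcm q q')),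
        (if x ≡ a [MOD W] then gq q (2 * (x : ℤ) - s) * gq q' (2 * (x : ℤ) - s') else 0)| ≤
      ((Nat.lcm q q').totient : ℝ) * ∏ p ∈ (Nat.lcm q q').primeFactors, bp q q' s s' p := by
  classical
  obtain ⟨m, hm⟩ : ∃ m, m = Nat.lcm q q' := ⟨_, rfl⟩
  have hms : Squarefree m := hm ▸ mp2b_sqf q q' hq hq'
  rw [local_prod W a q q' hW ha hq hq' hWq hWq' s s', ← hm, sp2_phi m hms, Finset.abs_prod,
    ← Finset.prod_mul_distrib]
  refine Finset.prod_le_prod (fun _ _ => abs_nonneg _) fun p hp => ?_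
  have hpp := Nat.prime_of_mem_primeFactors hp
  have hpm : p ∣ q * q' :=
    (Nat.dvd_of_mem_primeFactors hp).trans (hm ▸ Nat.lcm_dvd_mul q q')
  have hp2 := h2 p hpp hpm
  unfold bp
  by_cases h1 : p ∣ q
  · by_cases h3 : p ∣ q'
    · simp only [h1, h3, if_true, and_self]
      exact avg_two p hpp hp2 s s'
    · simp only [h1, h3, if_true, if_false, and_false, mul_one]
      exact avg_one p hpp hp2 s
  · have h3 : p ∣ q' := (hpp.dvd_mul.1 hpm).resolve_left h1
    simp only [h1, h3, if_true, if_false, false_and, one_mul]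
    exact avg_one p hpp hp2 s'

end Pool.Agent.Lib.SW
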