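import Pool.Agent.Lib.SW.MP.MP2

/-!
# MP-3: the sum over pairs of moduli

PROOF of `pair_sum_le`.  Let `P` be the set of primes in `(w, Q]`.  A pair `(q, q')` of elements of `Q2` is
determined by the pair of sets of prime divisors `(A, B)`, `A, B ⊆ P`, both nonempty; the term is
`∏_{p ∈ A ∪ B} β_p(p ∈ A, p ∈ B)` with `β(1,0) = b1 p s`, `β(0,1) = b1 p s'`, `β(1,1) = b2 p (s-s')` (all `≥ 0`), and
`∑_{A, B ⊆ P} ∏_{p ∈ A ∪ B} β = ∏_{p ∈ P} (1 + β(1,0) + β(0,1) + β(1,1))` (`Finset.prod_add` twice, or induction on `P`);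
the pair `(∅, ∅)` contributes `1`.  Hence the sum is at most
`exp (∑_{p ∈ P} (b1 p s + b1 p s' + b2 p (s-s'))) - 1` and `∑_{p > w} 5/(p-1)^2 ≤ 10/w` (`sp2_sum_sq`),
`∑_{w < p ≤ Q, p ∣ s} 1/(p-1) ≤ Tp w |s|` (`s ≠ 0`), and similarly for `s'` and `s - s' ≠ 0`.
-/

set_option autoImplicit false

open Finset Pool.Agent.Lib.GT

namespace Pool.Agent.Lib.SW

lemma MP3_split (P A : Finset ℕ) (hA : A ⊆ P) (x y : ℕ → ℝ) :
    ∏ p ∈ P, (if p ∈ A then x p else y p) = (∏ p ∈ A, x p) * ∏ p ∈ P \ A, y p := by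
  classical
  rw [← prod_sdiff hA, mul_comm]
  congr 1
  · exact prod_congr rfl fun p hp => by rw [if_pos hp]
  · exact prod_congr rfl fun p hp => by rw [if_neg (mem_sdiff.1 hp).2]

lemma MP3_prod (P : Finset ℕ) (f g h : ℕ → ℝ) :
    ∑ A ∈ P.powerset, ∑ B ∈ P.powerset, ∏ p ∈ A ∪ B,
      (if p ∈ A ∧ p ∈ B then h p else if p ∈ A then f p else g p) =
    ∏ p ∈ P, ((h p + f p) + (g p + 1)) := by
  classical
  rw [prod_add]
  refine sum_congr rfl fun A hA => ?_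
  have hA' := mem_powerset.1 hA
  rw [← MP3_split P A hA' (fun p => h p + f p) (fun p => g p + 1)]
  have e1 : ∏ p ∈ P, (if p ∈ A then h p + f p else g p + 1) =
      ∏ p ∈ P, ((if p ∈ A then h p else g p) + (if p ∈ A then f p else 1)) := by
    refine prod_congr rfl fun p _ => ?_
    by_cases hp : p ∈ A
    · simp only [if_pos hp]
    · simp only [if_neg hp]
  rw [e1, prod_add]
  refine sum_congr rfl fun B hB => ?_
  have hB' := mem_powerset.1 hB
  rw [← MP3_split P B hB' (fun p => if p ∈ A then h p else g p)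
    (fun p => if p ∈ A then f p else 1)]
  refine prod_subset_one_on_sdiff (union_subset hA' hB') (fun p hp => ?_) (fun p hp => ?_)
  · obtain ⟨_, h2⟩ := mem_sdiff.1 hp
    rw [mem_union, not_or] at h2
    simp only [if_neg h2.1, if_neg h2.2]
  · by_cases h1 : p ∈ A
    · by_cases h2 : p ∈ B
      · simp only [h1, h2, and_self, if_true]
      · simp only [h1, h2, and_false, if_true, if_false]
    · have h2 : p ∈ B := (mem_union.1 hp).resolve_left h1
      simp only [h1, h2, false_and, if_true, if_false]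

/-- the sum over the primes dividing `h` -/
lemma MP3_Tp (w : ℕ) (P : Finset ℕ) (hP : ∀ p ∈ P, p.Prime ∧ w < p) (h : ℤ) (hh : h ≠ 0) :
    ∑ p ∈ P, (if (p : ℤ) ∣ h then 1 / ((p : ℝ) - 1) else 0) ≤ Tp w h.natAbs := by
  rw [← sum_filter]
  unfold Tp
  refine sum_le_sum_of_subset_of_nonneg ?_ fun p hp _ => ?_
  · intro p hp
    have hp1 := (mem_filter.1 hp).1
    have hp2 := (mem_filter.1 hp).2
    refine mem_filter.2 ⟨Nat.mem_primeFactors.2 ⟨(hP p hp1).1, Int.natCast_dvd.1 hp2, ?_⟩,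
      (hP p hp1).2⟩
    exact Int.natAbs_ne_zero.2 hh
  · have hp3 := Nat.prime_of_mem_primeFactors (mem_filter.1 hp).1
    have : (1 : ℝ) < p := by exact_mod_cast hp3.one_lt
    have : 0 < (p : ℝ) - 1 := by linarith
    positivity

lemma MP3_sq (w : ℕ) (hw : 1 ≤ w) (P : Finset ℕ) (hP : ∀ p ∈ P, p.Prime ∧ w < p) :
    ∑ p ∈ P, 1 / ((p : ℝ) - 1) ^ 2 ≤ 2 / (w : ℝ) := by
  have e0 : ∑ p ∈ P, 1 / ((p : ℝ) - 1) ^ 2 = ∑ p ∈ P, 1 / (((p - 1 : ℕ) : ℝ)) ^ 2 := by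
    refine sum_congr rfl fun p hp => ?_
    rw [Nat.cast_sub (hP p hp).1.one_lt.le, Nat.cast_one]
  have e1 : ∑ p ∈ P, 1 / (((p - 1 : ℕ) : ℝ)) ^ 2 =
      ∑ m ∈ P.image (fun p : ℕ => p - 1), 1 / (m : ℝ) ^ 2 := by
    rw [sum_image]
    intro a ha b hb hab
    have := (hP a ha).1.one_lt
    have := (hP b hb).1.one_lt
    simp only at hab
    omega
  rw [e0, e1]
  refine sp2_sum_sq w hw _ fun m hm => ?_
  obtain ⟨p, hp, rfl⟩ := mem_image.1 hm
  have := (hP p hp).2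
  omega

lemma MP3_lcm {a b : ℕ} (ha : a ≠ 0) (hb : b ≠ 0) :
    (Nat.lcm a b).primeFactors = a.primeFactors ∪ b.primeFactors := by
  ext p
  rw [mem_union, Nat.mem_primeFactors_of_ne_zero (Nat.lcm_ne_zero ha hb),
    Nat.mem_primeFactors_of_ne_zero ha, Nat.mem_primeFactors_of_ne_zero hb]
  constructor
  · rintro ⟨hp, h⟩
    have h1 : p ∣ a * b := h.trans (Nat.lcm_dvd_mul a b)
    exact ((Nat.Prime.dvd_mul hp).1 h1).imp (fun h => ⟨hp, h⟩) (fun h => ⟨hp, h⟩)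
  · rintro (⟨hp, h⟩ | ⟨hp, h⟩)
    · exact ⟨hp, h.trans (Nat.dvd_lcm_left a b)⟩
    · exact ⟨hp, h.trans (Nat.dvd_lcm_right a b)⟩

lemma MP3_b1 {p : ℕ} (hp : p.Prime) (s : ℤ) : 0 ≤ b1 p s := by
  have h1 : (1 : ℝ) < p := by exact_mod_cast hp.one_lt
  have h2 : 0 < (p : ℝ) - 1 := by linarith
  unfold b1
  split_ifs <;> positivity

lemma MP3_b2 {p : ℕ} (hp : p.Prime) (s : ℤ) : 0 ≤ b2 p s := by
  have h1 : (1 : ℝ) < p := by exact_mod_cast hp.one_lt
  have h2 : 0 < (p : ℝ) - 1 := by linarith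
  unfold b2
  split_ifs <;> positivity

theorem pair_sum_le (w : ℕ) (hw : 1 ≤ w) (Q2 : Finset ℕ)
    (hQ2 : ∀ q ∈ Q2, Squarefree q ∧ 1 < q ∧ ∀ p : ℕ, p.Prime → p ∣ q → w < p)
    (s s' : ℤ) (hs : s ≠ 0) (hs' : s' ≠ 0) (hss : s ≠ s') :
    ∑ q ∈ Q2, ∑ q' ∈ Q2, ∏ p ∈ (Nat.lcm q q').primeFactors, bp q q' s s' p ≤
      Real.exp (Tp w s.natAbs + Tp w s'.natAbs + Tp w (s - s').natAbs + 10 / w) - 1 := by
  classical
  set PP : Finset ℕ := Q2.biUnion Nat.primeFactors with hPP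
  have hP : ∀ p ∈ PP, p.Prime ∧ w < p := by
    intro p hp
    obtain ⟨q, hq, hpq⟩ := mem_biUnion.1 hp
    exact ⟨Nat.prime_of_mem_primeFactors hpq, (hQ2 q hq).2.2 p (Nat.prime_of_mem_primeFactors hpq)
      (Nat.dvd_of_mem_primeFactors hpq)⟩
  obtain ⟨G, hG⟩ : ∃ G : Finset ℕ → Finset ℕ → ℝ, ∀ A B, G A B = ∏ p ∈ A ∪ B,
      (if p ∈ A ∧ p ∈ B then b2 p (s - s') else if p ∈ A then b1 p s else b1 p s') :=
    ⟨_, fun _ _ => rfl⟩
  have hG0 : ∀ A B, A ⊆ PP → B ⊆ PP → 0 ≤ G A B := by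
    intro A B hA hB
    rw [hG]
    refine prod_nonneg fun p hp => ?_
    have hp' := (hP p (union_subset hA hB hp)).1
    split_ifs
    · exact MP3_b2 hp' _
    · exact MP3_b1 hp' _
    · exact MP3_b1 hp' _
  have hinj : Set.InjOn Nat.primeFactors (Q2 : Set ℕ) := by
    intro a ha b hb hab
    have e1 := Nat.prod_primeFactors_of_squarefree (hQ2 a ha).1
    have e2 := Nat.prod_primeFactors_of_squarefree (hQ2 b hb).1
    rw [← e1, ← e2, hab]
  have h1 : ∑ q ∈ Q2, ∑ q' ∈ Q2, ∏ p ∈ (Nat.lcm q q').primeFactors, bp q q' s s' p =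
      ∑ q ∈ Q2, ∑ q' ∈ Q2, G q.primeFactors q'.primeFactors := by
    refine sum_congr rfl fun q hq => sum_congr rfl fun q' hq' => ?_
    have hq0 : q ≠ 0 := (hQ2 q hq).1.ne_zero
    have hq0' : q' ≠ 0 := (hQ2 q' hq').1.ne_zero
    rw [hG, MP3_lcm hq0 hq0']
    refine prod_congr rfl fun p hp => ?_
    have hp1 : p.Prime := by
      rcases mem_union.1 hp with h | h
      · exact Nat.prime_of_mem_primeFactors h
      · exact Nat.prime_of_mem_primeFactors h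
    unfold bp
    simp only [Nat.mem_primeFactors_of_ne_zero hq0, Nat.mem_primeFactors_of_ne_zero hq0', hp1,
      true_and]
  have h2 : ∑ q ∈ Q2, ∑ q' ∈ Q2, G q.primeFactors q'.primeFactors =
      ∑ A ∈ Q2.image Nat.primeFactors, ∑ B ∈ Q2.image Nat.primeFactors, G A B := by
    rw [sum_image hinj]
    refine sum_congr rfl fun q hq => ?_
    rw [sum_image hinj]
  have h3 : Q2.image Nat.primeFactors ⊆ PP.powerset.erase ∅ := by
    intro t ht
    obtain ⟨q, hq, rfl⟩ := mem_image.1 ht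
    refine mem_erase.2 ⟨?_, mem_powerset.2 (subset_biUnion_of_mem _ hq)⟩
    rw [Ne, Nat.primeFactors_eq_empty]
    have := (hQ2 q hq).2.1
    omega
  have h3' : Q2.image Nat.primeFactors ⊆ PP.powerset := h3.trans (erase_subset _ _)
  have h4 : ∑ A ∈ Q2.image Nat.primeFactors, ∑ B ∈ Q2.image Nat.primeFactors, G A B ≤
      ∑ A ∈ PP.powerset.erase ∅, ∑ B ∈ PP.powerset, G A B := by
    refine (sum_le_sum fun A hA => ?_).trans (sum_le_sum_of_subset_of_nonneg h3 fun A hA _ => ?_)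
    · exact sum_le_sum_of_subset_of_nonneg h3' fun B hB _ =>
        hG0 A B (mem_powerset.1 (h3' hA)) (mem_powerset.1 hB)
    · exact sum_nonneg fun B hB => hG0 A B (mem_powerset.1 (mem_erase.1 hA).2) (mem_powerset.1 hB)
  have h5 : ∑ A ∈ PP.powerset, ∑ B ∈ PP.powerset, G A B =
      ∏ p ∈ PP, ((b2 p (s - s') + b1 p s) + (b1 p s' + 1)) := by
    rw [← MP3_prod PP (fun p => b1 p s) (fun p => b1 p s') (fun p => b2 p (s - s'))]
    exact sum_congr rfl fun A _ => sum_congr rfl fun B _ => hG A B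
  have h5b : 1 ≤ ∑ B ∈ PP.powerset, G ∅ B := by
    rw [← add_sum_erase _ _ (empty_mem_powerset PP)]
    have e1 : G ∅ ∅ = 1 := by
      rw [hG]
      simp
    have e2 : 0 ≤ ∑ B ∈ PP.powerset.erase ∅, G ∅ B :=
      sum_nonneg fun B hB => hG0 ∅ B (empty_subset _) (mem_powerset.1 (mem_erase.1 hB).2)
    linarith
  have h5c : ∑ A ∈ PP.powerset.erase ∅, ∑ B ∈ PP.powerset, G A B ≤
      ∏ p ∈ PP, ((b2 p (s - s') + b1 p s) + (b1 p s' + 1)) - 1 := by
    rw [← h5, ← add_sum_erase _ _ (empty_mem_powerset PP)]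
    linarith
  have h6 : ∏ p ∈ PP, ((b2 p (s - s') + b1 p s) + (b1 p s' + 1)) ≤
      Real.exp (∑ p ∈ PP, (b2 p (s - s') + b1 p s + b1 p s')) := by
    rw [Real.exp_sum]
    refine prod_le_prod (fun p hp => ?_) fun p hp => ?_
    · have e1 := MP3_b2 (hP p hp).1 (s - s')
      have e2 := MP3_b1 (hP p hp).1 s
      have e3 := MP3_b1 (hP p hp).1 s'
      linarith
    · have e1 := Real.add_one_le_exp (b2 p (s - s') + b1 p s + b1 p s')
      linarith
  have h7 : ∑ p ∈ PP, (b2 p (s - s') + b1 p s + b1 p s') ≤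
      Tp w s.natAbs + Tp w s'.natAbs + Tp w (s - s').natAbs + 10 / w := by
    have e1 := MP3_Tp w PP hP s hs
    have e2 := MP3_Tp w PP hP s' hs'
    have e3 := MP3_Tp w PP hP (s - s') (sub_ne_zero.2 hss)
    have e4 := MP3_sq w hw PP hP
    have e5 : ∑ p ∈ PP, (b2 p (s - s') + b1 p s + b1 p s') =
        5 * ∑ p ∈ PP, 1 / ((p : ℝ) - 1) ^ 2 +
        ∑ p ∈ PP, (if (p : ℤ) ∣ s - s' then 1 / ((p : ℝ) - 1) else 0) +
        ∑ p ∈ PP, (if (p : ℤ) ∣ s then 1 / ((p : ℝ) - 1) else 0) +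
        ∑ p ∈ PP, (if (p : ℤ) ∣ s' then 1 / ((p : ℝ) - 1) else 0) := by
      rw [mul_sum, ← sum_add_distrib, ← sum_add_distrib, ← sum_add_distrib]
      refine sum_congr rfl fun p _ => ?_
      unfold b2 b1
      ring
    have e6 : (10 : ℝ) / w = 5 * (2 / w) := by ring
    rw [e5, e6]
    linarith
  have h8 := Real.exp_le_exp.2 h7
  rw [h1, h2]
  linarith

theorem bp_nonneg (q q' : ℕ) (s s' : ℤ) {p : ℕ} (hp : p.Prime) : 0 ≤ bp q q' s s' p := by
  have h1 : (1 : ℝ) < p := by exact_mod_cast hp.one_lt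
  have h2 : 0 < (p : ℝ) - 1 := by linarith
  unfold bp b1 b2
  split_ifs <;> positivity

end Pool.Agent.Lib.SW
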