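import Pool.Agent.Lib.SW.MP.MP1
import Pool.Agent.Lib.SW.MP.MP3
import Pool.Agent.Lib.SW.MP.MP2c

/-!
# MP-4: second moment of the nontrivial part of the model over the primes in a residue class modulo `W`

PROOF of `mid_moment`.  Open the square: `∑_{s,s' ∈ T} ∑_{q,q' ∈ Q2} ∑_p lam p [p ≡ a mod W] gq q (2p-s) gq q' (2p-s')`.
The inner sum over `p` is `prime_corr (2 A + 2) (K)` with `M = W lcm(q,q')` (`≤ log^2 X (log^A X)^2`), `F x = [x ≡ a mod W]
gq q (2x-s) gq q' (2x-s')` (periodic modulo `M`, `gq_periodic`; modulus `≤ 1`, `abs_gq_le`): it is at most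
`(X/2)/φ(M) · φ(lcm) ∏ bp + X/log^K X` by `local_le`, and `φ(M) = φ(W) φ(lcm)`.  For `s ≠ s'` sum over `q, q'` with
`pair_sum_le`; for `s = s'` the sum over `p ≡ a mod W` of `lam p` is at most `X/φ(W)` by `prime_corr`
with `M = W`, giving `|T| Q^2 X/φ(W)`.  Number of quadruples: `|T|^2 Q^2` for the error terms.
-/

set_option autoImplicit false

open Finset Pool.Agent.Lib.GT

namespace Pool.Agent.Lib.SW

/-- the function of `x` in the correlation -/
noncomputable def MP4F (W a q q' : ℕ) (s s' : ℤ) (x : ℕ) : ℝ :=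
  if x ≡ a [MOD W] then gq q (2 * (x : ℤ) - s) * gq q' (2 * (x : ℤ) - s') else 0

theorem MP4F_abs (W a q q' : ℕ) (s s' : ℤ) (x : ℕ) : |MP4F W a q q' s s' x| ≤ 1 := by
  unfold MP4F
  split_ifs
  · rw [abs_mul]
    exact mul_le_one₀ (abs_gq_le _ _) (abs_nonneg _) (abs_gq_le _ _)
  · simp

theorem MP4F_per (W a q q' : ℕ) (s s' : ℤ) (x : ℕ) :
    MP4F W a q q' s s' (x + W * Nat.lcm q q') = MP4F W a q q' s s' x := by
  unfold MP4F
  have h1 : (x + W * Nat.lcm q q' ≡ a [MOD W]) ↔ (x ≡ a [MOD W]) := by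
    unfold Nat.ModEq
    rw [Nat.add_mul_mod_self_left]
  have h2 : ∀ r : ℕ, r ∣ Nat.lcm q q' → ∀ t : ℤ,
      gq r (2 * ((x + W * Nat.lcm q q' : ℕ) : ℤ) - t) = gq r (2 * (x : ℤ) - t) := by
    intro r hr t
    obtain ⟨m, hm⟩ := hr
    rw [hm]
    have h3 : 2 * ((x + W * (r * m) : ℕ) : ℤ) - t = (2 * (x : ℤ) - t) + r * (2 * W * m) := by
      push_cast
      ring
    rw [h3, gq_periodic]
  rw [h2 q (Nat.dvd_lcm_left q q'), h2 q' (Nat.dvd_lcm_right q q')]
  exact if_congr h1 rfl rfl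

theorem MP4_diag (W a : ℕ) (hW : 0 < W) (ha : Nat.Coprime a W) (X : ℕ) (E : ℝ)
    (h : |∑ p ∈ Ioc (X / 2) X, lam p * (if p ≡ a [MOD W] then (1 : ℝ) else 0) -
        (X / 2 : ℝ) / (W.totient : ℝ) * ∑ x ∈ (range W).filter (fun x => Nat.Coprime x W),
          (if x ≡ a [MOD W] then (1 : ℝ) else 0)| ≤ E) :
    ∑ p ∈ Ioc (X / 2) X, lam p * (if p ≡ a [MOD W] then (1 : ℝ) else 0) ≤
      X / W.totient + E := by
  have hφ : (0 : ℝ) < W.totient := by exact_mod_cast Nat.totient_pos.2 hW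
  have h1 : ∑ x ∈ (range W).filter (fun x => Nat.Coprime x W),
      (if x ≡ a [MOD W] then (1 : ℝ) else 0) ≤ 1 := by
    rw [← sum_filter, sum_const, nsmul_eq_mul, mul_one]
    have : (((range W).filter (fun x => Nat.Coprime x W)).filter (fun x => x ≡ a [MOD W])).card ≤
        ({a % W} : Finset ℕ).card := by
      apply card_le_card
      intro x hx
      rw [mem_filter, mem_filter, mem_range] at hx
      rw [mem_singleton, ← hx.2, Nat.mod_eq_of_lt hx.1.1]
    rw [card_singleton] at this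
    exact_mod_cast this
  have h2 := (abs_le.1 h).2
  have h3 : (X / 2 : ℝ) / (W.totient : ℝ) * ∑ x ∈ (range W).filter (fun x => Nat.Coprime x W),
          (if x ≡ a [MOD W] then (1 : ℝ) else 0) ≤ X / W.totient := by
    calc _ ≤ (X / 2 : ℝ) / (W.totient : ℝ) * 1 := mul_le_mul_of_nonneg_left h1 (by positivity)
      _ ≤ X / W.totient := by
        rw [mul_one]
        apply div_le_div_of_nonneg_right _ hφ.le
        have : (0 : ℝ) ≤ X := Nat.cast_nonneg X
        linarith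
  linarith

theorem MP4_pair (W a q q' X : ℕ) (hW : Squarefree W) (ha : Nat.Coprime a W) (hq : Squarefree q)
    (hq' : Squarefree q') (hWq : Nat.Coprime W q) (hWq' : Nat.Coprime W q')
    (h2 : ∀ p : ℕ, p.Prime → p ∣ q * q' → 2 < p) (s s' : ℤ) (E : ℝ)
    (h : |∑ p ∈ Ioc (X / 2) X, lam p * MP4F W a q q' s s' p -
        (X / 2 : ℝ) / ((W * Nat.lcm q q').totient : ℝ) *
          ∑ x ∈ (range (W * Nat.lcm q q')).filter (fun x => Nat.Coprime x (W * Nat.lcm q q')),
            MP4F W a q q' s s' x| ≤ E) :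
    ∑ p ∈ Ioc (X / 2) X, lam p * MP4F W a q q' s s' p ≤
      X / W.totient * ∏ p ∈ (Nat.lcm q q').primeFactors, bp q q' s s' p + E := by
  have hW0 : 0 < W := Nat.pos_of_ne_zero hW.ne_zero
  have hl0 : 0 < Nat.lcm q q' := Nat.lcm_pos (Nat.pos_of_ne_zero hq.ne_zero)
    (Nat.pos_of_ne_zero hq'.ne_zero)
  have hφ : (0 : ℝ) < W.totient := by exact_mod_cast Nat.totient_pos.2 hW0
  have hφl : (0 : ℝ) < (Nat.lcm q q').totient := by exact_mod_cast Nat.totient_pos.2 hl0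
  have hcop : Nat.Coprime W (Nat.lcm q q') := by
    have h3 : Nat.lcm q q' ∣ q * q' := Nat.lcm_dvd_mul q q'
    exact Nat.Coprime.coprime_dvd_right h3 (Nat.Coprime.mul_right hWq hWq')
  have htot : ((W * Nat.lcm q q').totient : ℝ) = W.totient * (Nat.lcm q q').totient := by
    rw [Nat.totient_mul hcop]
    push_cast
    ring
  have hB : 0 ≤ ∏ p ∈ (Nat.lcm q q').primeFactors, bp q q' s s' p :=
    prod_nonneg fun p hp => bp_nonneg q q' s s' (Nat.prime_of_mem_primeFactors hp)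
  have h4 := local_le W a q q' hW ha hq hq' hWq hWq' h2 s s'
  have h5 : ∑ x ∈ (range (W * Nat.lcm q q')).filter (fun x => Nat.Coprime x (W * Nat.lcm q q')),
            MP4F W a q q' s s' x ≤
      ((Nat.lcm q q').totient : ℝ) * ∏ p ∈ (Nat.lcm q q').primeFactors, bp q q' s s' p :=
    (le_abs_self _).trans h4
  have h6 := (abs_le.1 h).2
  have hX0 : (0 : ℝ) ≤ X := Nat.cast_nonneg X
  have h7 : (X / 2 : ℝ) / ((W * Nat.lcm q q').totient : ℝ) *
          ∑ x ∈ (range (W * Nat.lcm q q')).filter (fun x => Nat.Coprime x (W * Nat.lcm q q')),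
            MP4F W a q q' s s' x ≤
      X / W.totient * ∏ p ∈ (Nat.lcm q q').primeFactors, bp q q' s s' p := by
    calc _ ≤ (X / 2 : ℝ) / ((W * Nat.lcm q q').totient : ℝ) *
          (((Nat.lcm q q').totient : ℝ) * ∏ p ∈ (Nat.lcm q q').primeFactors, bp q q' s s' p) :=
          mul_le_mul_of_nonneg_left h5 (by positivity)
      _ = 1 / 2 * (X / W.totient * ∏ p ∈ (Nat.lcm q q').primeFactors, bp q q' s s' p) := by
          rw [htot]
          field_simp
      _ ≤ _ := by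
          have : 0 ≤ X / W.totient * ∏ p ∈ (Nat.lcm q q').primeFactors, bp q q' s s' p := by
            positivity
          linarith
  linarith

theorem MP4_open (W Q a X : ℕ) (T : Finset ℕ) :
    ∑ p ∈ (Ioc (X / 2) X).filter (fun p => p ≡ a [MOD W]), lam p *
          (∑ s ∈ T, ∑ q ∈ Q2Of W Q, gq q (2 * (p : ℤ) - s)) ^ 2 =
      ∑ s ∈ T, ∑ s' ∈ T, ∑ q ∈ Q2Of W Q, ∑ q' ∈ Q2Of W Q,
        ∑ p ∈ Ioc (X / 2) X, lam p * MP4F W a q q' s s' p := by
  have h1 : ∀ p ∈ Ioc (X / 2) X, (if p ≡ a [MOD W] then lam p *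
          (∑ s ∈ T, ∑ q ∈ Q2Of W Q, gq q (2 * (p : ℤ) - s)) ^ 2 else 0) =
      ∑ s ∈ T, ∑ s' ∈ T, ∑ q ∈ Q2Of W Q, ∑ q' ∈ Q2Of W Q, lam p * MP4F W a q q' s s' p := by
    intro p _
    unfold MP4F
    split_ifs with h
    · rw [sq, sum_mul_sum, mul_sum]
      refine sum_congr rfl fun s _ => ?_
      rw [mul_sum]
      refine sum_congr rfl fun s' _ => ?_
      rw [sum_mul_sum, mul_sum]
      refine sum_congr rfl fun q _ => ?_
      rw [mul_sum]
    · simp
  rw [sum_filter, sum_congr rfl h1, sum_comm]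
  refine sum_congr rfl fun s _ => ?_
  rw [sum_comm]
  refine sum_congr rfl fun s' _ => ?_
  rw [sum_comm]
  refine sum_congr rfl fun q _ => ?_
  rw [sum_comm]

theorem mid_moment (A K : ℕ) : ∃ X₀ : ℕ, ∀ X : ℕ, X₀ ≤ X → ∀ w Q a : ℕ, 2 ≤ w →
    (primorial w : ℝ) ≤ (Real.log X) ^ 2 → (Q : ℝ) ≤ (Real.log X) ^ A → 1 ≤ Q →
    Nat.Coprime a (primorial w) → ∀ T : Finset ℕ, T ⊆ Icc 1 X →
      ∑ p ∈ (Ioc (X / 2) X).filter (fun p => p ≡ a [MOD primorial w]), lam p *
          (∑ s ∈ T, ∑ q ∈ Q2Of (primorial w) Q, gq q (2 * (p : ℤ) - s)) ^ 2 ≤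
        (X : ℝ) / ((primorial w).totient : ℝ) * ((Q : ℝ) ^ 2 * T.card +
          ∑ s ∈ T, ∑ s' ∈ T.filter (fun s' => s' ≠ s),
            (Real.exp (Tp w s + Tp w s' + Tp w ((s : ℤ) - (s' : ℤ)).natAbs + 10 / w) - 1)) +
        (T.card : ℝ) ^ 2 * (Q : ℝ) ^ 2 * (X / (Real.log X) ^ K) := by
  obtain ⟨X₀, hX₀⟩ := prime_corr (2 * A + 2) K
  refine ⟨max X₀ 3, fun X hX w Q a hw hWL hQL hQ1 ha T hT => ?_⟩
  have hXa : X₀ ≤ X := (le_max_left _ _).trans hX
  have hX3 : 3 ≤ X := (le_max_right _ _).trans hX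
  have hXr : (3 : ℝ) ≤ X := by exact_mod_cast hX3
  have hL1 : 1 ≤ Real.log X := by
    rw [Real.le_log_iff_exp_le (by linarith)]
    have := Real.exp_one_lt_d9
    linarith
  obtain ⟨W, hW⟩ : ∃ W, W = primorial w := ⟨_, rfl⟩
  rw [← hW] at hWL ha ⊢
  have hWsq : Squarefree W := by rw [hW]; exact WX_squarefree w
  have hW0 : 0 < W := Nat.pos_of_ne_zero hWsq.ne_zero
  have hφ : (0 : ℝ) < W.totient := by exact_mod_cast Nat.totient_pos.2 hW0
  obtain ⟨E, hE⟩ : ∃ E : ℝ, E = X / (Real.log X) ^ K := ⟨_, rfl⟩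
  rw [← hE]
  have hE0 : 0 ≤ E := by rw [hE]; positivity
  have hQ2 : ∀ q ∈ Q2Of W Q, Squarefree q ∧ 1 < q ∧ ∀ p : ℕ, p.Prime → p ∣ q → w < p := by
    intro q hq
    rw [mem_Q2Of] at hq
    refine ⟨hq.2.1, hq.2.2.1, fun p hp hpq => ?_⟩
    by_contra hpw
    push Not at hpw
    have hpW : p ∣ W := by
      rw [hW, hp.dvd_primorial_iff]
      exact hpw
    have := Nat.Coprime.eq_one_of_dvd (hq.2.2.2.coprime_dvd_left hpW) hpq
    exact hp.one_lt.ne' this
  have hQ2c : ((Q2Of W Q).card : ℝ) ≤ Q := by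
    have : (Q2Of W Q).card ≤ Q := by
      unfold Q2Of
      refine (card_filter_le _ _).trans ?_
      rw [Nat.card_Icc]
      omega
    exact_mod_cast this
  have hM : ∀ q ∈ Q2Of W Q, ∀ q' ∈ Q2Of W Q,
      1 ≤ W * Nat.lcm q q' ∧ ((W * Nat.lcm q q' : ℕ) : ℝ) ≤ (Real.log X) ^ (2 * A + 2) := by
    intro q hq q' hq'
    have h1 : 0 < q := by have := (hQ2 q hq).2.1; omega
    have h2 : 0 < q' := by have := (hQ2 q' hq').2.1; omega
    refine ⟨Nat.mul_pos hW0 (Nat.lcm_pos h1 h2), ?_⟩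
    have h3 : Nat.lcm q q' ≤ q * q' := Nat.le_of_dvd (Nat.mul_pos h1 h2) (Nat.lcm_dvd_mul q q')
    have h4 : (Nat.lcm q q' : ℝ) ≤ Q * Q := by
      have h5 : q * q' ≤ Q * Q := Nat.mul_le_mul (mem_Q2Of.1 hq).1 (mem_Q2Of.1 hq').1
      exact_mod_cast h3.trans h5
    push_cast
    calc (W : ℝ) * (Nat.lcm q q' : ℝ) ≤ (Real.log X) ^ 2 * ((Real.log X) ^ A * (Real.log X) ^ A) := by
          apply mul_le_mul hWL (h4.trans _) (Nat.cast_nonneg _) (by positivity)
          exact mul_le_mul hQL hQL (Nat.cast_nonneg _) (by positivity)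
      _ = _ := by rw [← pow_add, ← pow_add]; congr 1; ring
  -- the diagonal bound
  have hdiag0 : ∑ p ∈ Ioc (X / 2) X, lam p * (if p ≡ a [MOD W] then (1 : ℝ) else 0) ≤
      X / W.totient + E := by
    apply MP4_diag W a hW0 ha X E
    rw [hE]
    refine hX₀ X hXa W hW0 ?_ (fun x => if x ≡ a [MOD W] then (1 : ℝ) else 0) ?_ ?_
    · refine hWL.trans ?_
      exact pow_le_pow_right₀ hL1 (by omega)
    · intro n
      have h1 : (n + W ≡ a [MOD W]) ↔ (n ≡ a [MOD W]) := by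
        unfold Nat.ModEq
        rw [Nat.add_mod_right]
      exact if_congr h1 rfl rfl
    · intro n
      show |if n ≡ a [MOD W] then (1 : ℝ) else 0| ≤ 1
      split_ifs <;> simp
  have hdiag : ∀ q ∈ Q2Of W Q, ∀ q' ∈ Q2Of W Q, ∀ s s' : ℤ,
      ∑ p ∈ Ioc (X / 2) X, lam p * MP4F W a q q' s s' p ≤ X / W.totient + E := by
    intro q _ q' _ s s'
    refine le_trans (sum_le_sum fun p _ => ?_) hdiag0
    apply mul_le_mul_of_nonneg_left _ (lam_nonneg' p)
    by_cases h : p ≡ a [MOD W]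
    · rw [if_pos h]
      exact (le_abs_self _).trans (MP4F_abs W a q q' s s' p)
    · unfold MP4F
      rw [if_neg h, if_neg h]
  have hpair : ∀ q ∈ Q2Of W Q, ∀ q' ∈ Q2Of W Q, ∀ s s' : ℤ,
      ∑ p ∈ Ioc (X / 2) X, lam p * MP4F W a q q' s s' p ≤
        X / W.totient * ∏ p ∈ (Nat.lcm q q').primeFactors, bp q q' s s' p + E := by
    intro q hq q' hq' s s'
    obtain ⟨h1, h2⟩ := hM q hq q' hq'
    obtain ⟨hqs, hq1, hqp⟩ := hQ2 q hq
    obtain ⟨hqs', hq1', hqp'⟩ := hQ2 q' hq'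
    apply MP4_pair W a q q' X hWsq ha hqs hqs' (mem_Q2Of.1 hq).2.2.2 (mem_Q2Of.1 hq').2.2.2 _ s s' E
    · rw [hE]
      exact hX₀ X hXa _ h1 h2 (MP4F W a q q' s s') (MP4F_per W a q q' s s')
        (MP4F_abs W a q q' s s')
    · intro p hp hpd
      rcases (Nat.Prime.dvd_mul hp).1 hpd with h | h
      · exact lt_of_le_of_lt hw (hqp p hp h)
      · exact lt_of_le_of_lt hw (hqp' p hp h)
  rw [MP4_open]
  -- sum over the pairs
  have hXφ : (0 : ℝ) ≤ X / W.totient := by positivity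
  have hQ0 : (0 : ℝ) ≤ Q := Nat.cast_nonneg Q
  have hs1 : ∀ s ∈ T, ∑ q ∈ Q2Of W Q, ∑ q' ∈ Q2Of W Q,
        ∑ p ∈ Ioc (X / 2) X, lam p * MP4F W a q q' s s p ≤
      (Q : ℝ) ^ 2 * (X / W.totient) + (Q : ℝ) ^ 2 * E := by
    intro s _
    calc _ ≤ ∑ q ∈ Q2Of W Q, ∑ q' ∈ Q2Of W Q, (X / W.totient + E) :=
          sum_le_sum fun q hq => sum_le_sum fun q' hq' => hdiag q hq q' hq' s s
      _ = ((Q2Of W Q).card : ℝ) ^ 2 * (X / W.totient + E) := by
          rw [sum_const, sum_const, nsmul_eq_mul, nsmul_eq_mul]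
          ring
      _ ≤ (Q : ℝ) ^ 2 * (X / W.totient + E) := by
          apply mul_le_mul_of_nonneg_right _ (by positivity)
          exact pow_le_pow_left₀ (Nat.cast_nonneg _) hQ2c 2
      _ = _ := by ring
  have hs2 : ∀ s ∈ T, ∀ s' ∈ T.filter (fun s' => s' ≠ s), ∑ q ∈ Q2Of W Q, ∑ q' ∈ Q2Of W Q,
        ∑ p ∈ Ioc (X / 2) X, lam p * MP4F W a q q' s s' p ≤
      (X / W.totient) * (Real.exp (Tp w s + Tp w s' + Tp w ((s : ℤ) - (s' : ℤ)).natAbs + 10 / w) - 1)
        + (Q : ℝ) ^ 2 * E := by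
    intro s hs s' hs'
    rw [mem_filter] at hs'
    have hs0 : (s : ℤ) ≠ 0 := by
      have := (mem_Icc.1 (hT hs)).1
      exact_mod_cast (by omega : s ≠ 0)
    have hs0' : (s' : ℤ) ≠ 0 := by
      have := (mem_Icc.1 (hT hs'.1)).1
      exact_mod_cast (by omega : s' ≠ 0)
    have hne : (s : ℤ) ≠ s' := by
      intro h
      exact hs'.2 (by exact_mod_cast h.symm)
    have h1 := pair_sum_le w (by omega) (Q2Of W Q) hQ2 s s' hs0 hs0' hne
    rw [Int.natAbs_natCast, Int.natAbs_natCast] at h1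
    calc _ ≤ ∑ q ∈ Q2Of W Q, ∑ q' ∈ Q2Of W Q,
          (X / W.totient * ∏ p ∈ (Nat.lcm q q').primeFactors, bp q q' s s' p + E) :=
          sum_le_sum fun q hq => sum_le_sum fun q' hq' => hpair q hq q' hq' s s'
      _ = X / W.totient * (∑ q ∈ Q2Of W Q, ∑ q' ∈ Q2Of W Q,
            ∏ p ∈ (Nat.lcm q q').primeFactors, bp q q' s s' p) +
          ((Q2Of W Q).card : ℝ) ^ 2 * E := by
          simp_rw [sum_add_distrib, sum_const, nsmul_eq_mul, ← mul_sum]
          ring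
      _ ≤ _ := by
          apply add_le_add
          · exact mul_le_mul_of_nonneg_left h1 hXφ
          · apply mul_le_mul_of_nonneg_right _ hE0
            exact pow_le_pow_left₀ (Nat.cast_nonneg _) hQ2c 2
  calc ∑ s ∈ T, ∑ s' ∈ T, ∑ q ∈ Q2Of W Q, ∑ q' ∈ Q2Of W Q,
        ∑ p ∈ Ioc (X / 2) X, lam p * MP4F W a q q' s s' p
      ≤ ∑ s ∈ T, (((Q : ℝ) ^ 2 * (X / W.totient) + (Q : ℝ) ^ 2 * E) +
          ∑ s' ∈ T.filter (fun s' => s' ≠ s), ((X / W.totient) *
            (Real.exp (Tp w s + Tp w s' + Tp w ((s : ℤ) - (s' : ℤ)).natAbs + 10 / w) - 1)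
            + (Q : ℝ) ^ 2 * E)) := by
        refine sum_le_sum fun s hs => ?_
        have h1 : T = insert s (T.filter (fun s' => s' ≠ s)) := by
          ext x
          rw [mem_insert, mem_filter]
          constructor
          · intro hx
            by_cases h : x = s
            · exact Or.inl h
            · exact Or.inr ⟨hx, h⟩
          · rintro (h | h)
            · rw [h]; exact hs
            · exact h.1
        have h2 : s ∉ T.filter (fun s' => s' ≠ s) := by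
          rw [mem_filter]
          exact fun h => h.2 rfl
        conv_lhs => rw [h1]
        rw [sum_insert h2]
        exact add_le_add (hs1 s hs) (sum_le_sum fun s' hs' => hs2 s hs s' hs')
    _ ≤ _ := by
        simp_rw [sum_add_distrib, sum_const, nsmul_eq_mul, ← mul_sum]
        have h3 : ∑ s ∈ T, ((T.filter (fun s' => s' ≠ s)).card : ℝ) * ((Q : ℝ) ^ 2 * E) +
            (T.card : ℝ) * ((Q : ℝ) ^ 2 * E) ≤ (T.card : ℝ) ^ 2 * (Q : ℝ) ^ 2 * E := by
          have h4 : ∀ s ∈ T, ((T.filter (fun s' => s' ≠ s)).card : ℝ) * ((Q : ℝ) ^ 2 * E) =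
              ((T.card : ℝ) - 1) * ((Q : ℝ) ^ 2 * E) := by
            intro s hs
            have h5 : (T.filter (fun s' => s' ≠ s)).card + 1 = T.card := by
              have h6 : T.filter (fun s' => s' ≠ s) = T.erase s := by
                ext x
                rw [mem_filter, mem_erase]
                exact And.comm
              rw [h6, card_erase_add_one hs]
            have h7 : ((T.filter (fun s' => s' ≠ s)).card : ℝ) = T.card - 1 := by
              rw [← h5]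
              push_cast
              ring
            rw [h7]
          rw [sum_congr rfl h4, sum_const, nsmul_eq_mul]
          apply le_of_eq
          ring
        linarith

end Pool.Agent.Lib.SW
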