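import Pool.Agent.Lib.SW.SP3

/-!
# MP-5a: few elements have many prime factors `> w`

PROOF.  Markov's inequality with `exp_moment`: if `Tp w s ≥ ε'` then `1 ≤ exp (lm w (Tp w s) - lm w ε')`; sum over `s ∈ S ⊆ Icc 1 X`.
-/

set_option autoImplicit false

open Finset Pool.Agent.Lib.GT

namespace Pool.Agent.Lib.SW

theorem bad_count (w X : ℕ) (hw : 1 ≤ w) (lm ε' : ℝ) (hlm : 0 < lm) (hε' : 0 < ε') (S : Finset ℕ)
    (hS : S ⊆ Icc 1 X) :
    ((S.filter (fun s => ε' ≤ Tp w s)).card : ℝ) ≤
      X * Real.exp (lm * Real.exp lm - lm * w * ε') := by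
  have hw' : (1 : ℝ) ≤ w := by exact_mod_cast hw
  have h1 := exp_moment w X hw lm hlm
  have h2 : ((S.filter (fun s => ε' ≤ Tp w s)).card : ℝ) ≤
      ∑ h ∈ Icc 1 X, Real.exp (lm * w * Tp w h) * Real.exp (-(lm * w * ε')) := by
    calc ((S.filter (fun s => ε' ≤ Tp w s)).card : ℝ)
        = ∑ _h ∈ S.filter (fun s => ε' ≤ Tp w s), (1 : ℝ) := by simp
      _ ≤ ∑ h ∈ S.filter (fun s => ε' ≤ Tp w s),
          Real.exp (lm * w * Tp w h) * Real.exp (-(lm * w * ε')) := by
          refine sum_le_sum fun h hh => ?_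
          rw [← Real.exp_add]
          apply Real.one_le_exp
          have h3 := (mem_filter.1 hh).2
          have h4 : lm * w * ε' ≤ lm * w * Tp w h :=
            mul_le_mul_of_nonneg_left h3 (by positivity)
          linarith
      _ ≤ _ := by
          refine sum_le_sum_of_subset_of_nonneg ((filter_subset _ _).trans hS) fun h _ _ => ?_
          positivity
  refine h2.trans ?_
  rw [← sum_mul, sub_eq_add_neg, Real.exp_add]
  calc (∑ h ∈ Icc 1 X, Real.exp (lm * w * Tp w h)) * Real.exp (-(lm * w * ε'))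
      ≤ (Real.exp (lm * Real.exp lm) * X) * Real.exp (-(lm * w * ε')) :=
        mul_le_mul_of_nonneg_right h1 (Real.exp_pos _).le
    _ = _ := by ring

end Pool.Agent.Lib.SW
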