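import Pool.Agent.Lib.SW.MP.MP4
import Pool.Agent.Lib.SW.MP.MP5a

/-!
# MP-5: the second moment for `N = 2p`

PROOFS.  `bad_count`: Markov's inequality with `exp_moment`: `Tp w s ≥ ε'` implies `1 ≤ exp (λ w (Tp w s - ε'))`.
`mid_l2`: as `sparse_l2` in SP3 (copy it).  For `p ∈ (X/2, X]`, `p ≡ a mod W`, `N = 2p` satisfies `X < N ≤ 2X`, `N ≡ 2a mod W`,
and `decomp` gives `rS S N - c #T = E1 + E2 + c E3`, `T = Sa W S (2a)` (all `s ≤ X < N`, so `SN W S N = T`).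
`E1 ≤ w^2` (`E1_bound`).  `E2`: `∑_p lam p E2(2p)^2 ≤ log X ∑_{N ∈ (Icc 1 2X)} E2(N)^2 ≤ log X (C 2X/log^(K+4))^2 |T|` (`E2_bound`, injectivity of
`p ↦ 2p`).  `E3 = ∑_{s ∈ T} ∑_{q ∈ Q2} gq q (2p - s)`: split `T` into good (`Tp w s < ε'`) and bad elements; the bad ones
contribute at most `Q #bad` to `E3` for every `p`, with `#bad ≤ X (log X)^(-K-A1-3)` (`bad_count` with λ ε' = K + A1 + 4); for the good
ones `mid_moment`, `exp (3ε' ...)`: `exp(T1 + T2 + T3 + 10/w) - 1 ≤ e^c (exp T3 - 1) + (e^c - 1)`, `c = 2 ε' + 10/w`, and `collide`.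
-/

set_option autoImplicit false

open Finset Pool.Agent.Lib.GT

namespace Pool.Agent.Lib.SW

lemma mp5_lam_le {p X : ℕ} (h : p ≤ X) (_hX : 1 ≤ X) : lam p ≤ Real.log X := by
  unfold lam
  split_ifs with hp
  · apply Real.log_le_log
    · exact_mod_cast hp.pos
    · exact_mod_cast h
  · apply Real.log_natCast_nonneg

/-- a power of the logarithm from `exp (-λ w ε')` -/
lemma mp5_exp (X m : ℕ) (ε' lm : ℝ) (hX : 1 ≤ Real.log (X : ℝ)) (hl : lm * ε' = m) :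
    Real.exp (lm * Real.exp lm - lm * wX X * ε') ≤
      Real.exp (lm * Real.exp lm + m) / (Real.log X) ^ m := by
  have hL : 0 < Real.log (X : ℝ) := by linarith
  have h1 : Real.log (Real.log (X : ℝ)) - 1 ≤ wX X := by
    have := Nat.lt_floor_add_one (Real.log (Real.log (X : ℝ)))
    unfold wX
    linarith
  have h2 : (Real.log (X : ℝ)) ^ m = Real.exp (m * Real.log (Real.log X)) := by
    rw [← Real.log_pow, Real.exp_log (by positivity)]
  rw [h2, ← Real.exp_sub]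
  apply Real.exp_le_exp.mpr
  have h3 : lm * wX X * ε' = m * wX X := by
    rw [← hl]; ring
  rw [h3]
  have hm : (0 : ℝ) ≤ (m : ℝ) := Nat.cast_nonneg m
  nlinarith [mul_le_mul_of_nonneg_left h1 hm]

/-- the good elements: from the bound of `mid_moment` to a clean one -/
lemma mp5_good_sum (w X : ℕ) (hw : 1 ≤ w) (T : Finset ℕ) (hT : T ⊆ Icc 1 X) (lm ε' δ : ℝ)
    (hlm : 1 ≤ lm) (hε' : 0 < ε') (hsm : ∀ s ∈ T, Tp w s ≤ ε')
    (h1 : Real.exp ε' - 1 ≤ δ) (h2 : Real.exp (2 * ε' + 10 / w) - 1 ≤ δ)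
    (h3 : Real.exp (2 * ε' + 10 / w) ≤ 2)
    (D : ℝ) (hD : Real.exp (lm * Real.exp lm - (lm * w - 1) * ε') ≤ D) :
    ∑ s ∈ T, ∑ s' ∈ T.filter (fun s' => s' ≠ s),
        (Real.exp (Tp w s + Tp w s' + Tp w ((s : ℤ) - (s' : ℤ)).natAbs + 10 / w) - 1) ≤
      3 * δ * (T.card : ℝ) ^ 2 + 4 * T.card * X * D := by
  have hcol := collide w X hw lm ε' hlm hε' T hT
  have hδ0 : 0 ≤ δ := le_trans (by have := Real.add_one_le_exp ε'; linarith) h1
  have hn0 : (0 : ℝ) ≤ T.card := Nat.cast_nonneg _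
  have hX0 : (0 : ℝ) ≤ X := Nat.cast_nonneg _
  set E := Real.exp (2 * ε' + 10 / (w : ℝ)) with hE
  have hE0 : 0 ≤ E := (Real.exp_pos _).le
  have hE1 : 1 ≤ E := by rw [hE]; apply Real.one_le_exp; positivity
  have e1 : ∀ s ∈ T, ∑ s' ∈ T.filter (fun s' => s' ≠ s),
        (Real.exp (Tp w s + Tp w s' + Tp w ((s : ℤ) - (s' : ℤ)).natAbs + 10 / w) - 1) ≤
      E * ∑ s' ∈ T.filter (fun s' => s' ≠ s),
        (Real.exp (Tp w ((s : ℤ) - (s' : ℤ)).natAbs) - 1) + (E - 1) * T.card := by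
    intro s hs
    have e2 : ∀ s' ∈ T.filter (fun s' => s' ≠ s),
        (Real.exp (Tp w s + Tp w s' + Tp w ((s : ℤ) - (s' : ℤ)).natAbs + 10 / w) - 1) ≤
        E * (Real.exp (Tp w ((s : ℤ) - (s' : ℤ)).natAbs) - 1) + (E - 1) := by
      intro s' hs'
      have ha := hsm s hs
      have hb := hsm s' (mem_filter.mp hs').1
      have e3 : Real.exp (Tp w s + Tp w s' + Tp w ((s : ℤ) - (s' : ℤ)).natAbs + 10 / w) ≤
          Real.exp ((2 * ε' + 10 / w) + Tp w ((s : ℤ) - (s' : ℤ)).natAbs) := by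
        apply Real.exp_le_exp.mpr
        linarith
      rw [Real.exp_add (2 * ε' + 10 / (w : ℝ)), ← hE] at e3
      linarith
    refine (Finset.sum_le_sum e2).trans ?_
    rw [Finset.sum_add_distrib, ← Finset.mul_sum, Finset.sum_const, nsmul_eq_mul]
    have e3 : (((T.filter (fun s' => s' ≠ s)).card : ℕ) : ℝ) ≤ T.card := by
      exact_mod_cast Finset.card_filter_le _ _
    nlinarith [mul_le_mul_of_nonneg_right e3 (sub_nonneg.mpr hE1)]
  refine (Finset.sum_le_sum e1).trans ?_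
  rw [Finset.sum_add_distrib, ← Finset.mul_sum, Finset.sum_const, nsmul_eq_mul]
  have e4 : E * ∑ s ∈ T, ∑ s' ∈ T.filter (fun s' => s' ≠ s),
        (Real.exp (Tp w ((s : ℤ) - (s' : ℤ)).natAbs) - 1) ≤
      E * ((Real.exp ε' - 1) * (T.card : ℝ) ^ 2 +
        2 * T.card * X * Real.exp (lm * Real.exp lm - (lm * w - 1) * ε')) :=
    mul_le_mul_of_nonneg_left hcol hE0
  have e5 : E * ((Real.exp ε' - 1) * (T.card : ℝ) ^ 2 +
        2 * T.card * X * Real.exp (lm * Real.exp lm - (lm * w - 1) * ε')) ≤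
      2 * (δ * (T.card : ℝ) ^ 2 + 2 * T.card * X * D) := by
    apply mul_le_mul h3 _ _ (by norm_num)
    · have := mul_le_mul_of_nonneg_right h1 (sq_nonneg (T.card : ℝ))
      have := mul_le_mul_of_nonneg_left hD (show (0 : ℝ) ≤ 2 * T.card * X by positivity)
      linarith
    · have e6 : 0 ≤ Real.exp ε' - 1 := by
        have := Real.add_one_le_exp ε'; linarith
      have := Real.exp_pos (lm * Real.exp lm - (lm * w - 1) * ε')
      positivity
  have e7 : (E - 1) * (T.card : ℝ) ^ 2 ≤ δ * (T.card : ℝ) ^ 2 :=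
    mul_le_mul_of_nonneg_right h2 (sq_nonneg _)
  nlinarith

lemma mp5_bad_abs (T : Finset ℕ) (W Q p : ℕ) :
    |∑ s ∈ T, ∑ q ∈ Q2Of W Q, gq q (2 * (p : ℤ) - s)| ≤ T.card * Q := by
  refine (Finset.abs_sum_le_sum_abs _ _).trans ?_
  have h : ∀ s ∈ T, |∑ q ∈ Q2Of W Q, gq q (2 * (p : ℤ) - s)| ≤ (Q : ℝ) := by
    intro s _
    refine (Finset.abs_sum_le_sum_abs _ _).trans ?_
    refine (Finset.sum_le_sum fun q _ => abs_gq_le q _).trans ?_
    rw [Finset.sum_const, nsmul_eq_mul, mul_one]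
    have : (Q2Of W Q).card ≤ Q := by
      unfold Q2Of
      refine (Finset.card_filter_le _ _).trans ?_
      rw [Nat.card_Icc]
      omega
    exact_mod_cast this
  refine (Finset.sum_le_sum h).trans ?_
  rw [Finset.sum_const, nsmul_eq_mul]

lemma mp5_two_sq (x y : ℝ) : (x + y) ^ 2 ≤ 2 * x ^ 2 + 2 * y ^ 2 := by
  have := sq_nonneg (x - y)
  linarith

theorem mid_l2 (K : ℕ) (ε : ℝ) (hε : 0 < ε) :
    ∃ X₀ : ℕ, ∀ X : ℕ, X₀ ≤ X → ∀ S : Finset ℕ, S ⊆ Icc 1 X → ∀ a : ℕ, Nat.Coprime a (WX X) →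
      ∑ p ∈ (Ioc (X / 2) X).filter (fun p => p ≡ a [MOD WX X]), lam p *
          (rS S (2 * p) - (WX X : ℝ) / ((WX X).totient : ℝ) * (Sa (WX X) S (2 * a)).card) ^ 2 ≤
        ε * (X / (WX X).totient) * ((WX X : ℝ) / ((WX X).totient : ℝ)) ^ 2 *
          (((Sa (WX X) S (2 * a)).card : ℝ) ^ 2 + (X / (Real.log X) ^ K) ^ 2) := by
  obtain ⟨A1, hA1⟩ := fourier_lam (K + 2)
  obtain ⟨C, hC0, hC⟩ := hA1 (A1 + 3)
  obtain ⟨Xm, hXm⟩ := mid_moment (A1 + 1) (2 * A1 + 5)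
  set ε' : ℝ := min (1 / 8) (ε / 800) with hε'
  have hε'0 : 0 < ε' := by rw [hε']; exact lt_min (by norm_num) (by linarith)
  have hε'1 : ε' ≤ 1 / 8 := min_le_left _ _
  have hε'2 : ε' ≤ ε / 800 := min_le_right _ _
  set lm : ℝ := (K + 1) / ε' with hlm
  have hlme : lm * ε' = K + 1 := by rw [hlm]; field_simp
  have hlm1 : 1 ≤ lm := by
    rw [hlm, le_div_iff₀ hε'0]
    have : (0 : ℝ) ≤ K := Nat.cast_nonneg K
    linarith
  set lb : ℝ := ((K + A1 + 2 : ℕ) : ℝ) / ε' with hlb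
  have hlbe : lb * ε' = ((K + A1 + 2 : ℕ) : ℝ) := by rw [hlb]; field_simp
  have hlb0 : 0 < lb := by
    rw [hlb]
    apply div_pos _ hε'0
    push_cast
    positivity
  set δ : ℝ := ε / 100 with hδ
  have hδ0 : 0 < δ := by rw [hδ]; linarith
  set D0 : ℝ := Real.exp (lm * Real.exp lm + ε' + (K + 1)) with hD0
  have hD00 : 0 < D0 := Real.exp_pos _
  set D1 : ℝ := Real.exp (lb * Real.exp lb + ((K + A1 + 2 : ℕ) : ℝ)) with hD1
  have hD10 : 0 < D1 := Real.exp_pos _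
  have hexp : ∀ x : ℝ, 0 ≤ x → x ≤ 1 → x ≤ ε / 200 → Real.exp x - 1 ≤ δ := by
    intro x hx0 hx1 hx2
    have h := Real.abs_exp_sub_one_le (x := x) (by rw [abs_of_nonneg hx0]; exact hx1)
    rw [abs_of_nonneg hx0] at h
    have := le_abs_self (Real.exp x - 1)
    rw [hδ]
    linarith
  have hev : ∀ᶠ X : ℕ in Filter.atTop, (2 ≤ X ∧ Xm ≤ X) ∧ 1 ≤ Real.log (X : ℝ) ∧
      (80 ≤ wX X ∧ 4000 / ε ≤ (wX X : ℝ)) ∧
      (120 * C ^ 2 / ε ≤ Real.log (X : ℝ) ∧ 2 * D0 / δ ≤ Real.log (X : ℝ) ∧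
        4 ^ A1 * D1 ^ 2 / δ ≤ Real.log (X : ℝ) ∧ 2 ^ A1 ≤ Real.log (X : ℝ) ∧
        1 / δ ≤ Real.log (X : ℝ)) ∧
      30 / ε * (Real.log (X : ℝ)) ^ (2 * K + 7) ≤ X ∧
      4 ^ A1 / δ * (Real.log (X : ℝ)) ^ (2 * A1 + 2 * K) ≤ X := by
    filter_upwards [Filter.eventually_ge_atTop 2, Filter.eventually_ge_atTop Xm, ev_log 1, ev_w 80,
      ev_w ⌈4000 / ε⌉₊, ev_log (120 * C ^ 2 / ε), ev_log (2 * D0 / δ),
      ev_log (4 ^ A1 * D1 ^ 2 / δ), ev_log (2 ^ A1), ev_log (1 / δ), ev_pow (30 / ε) (2 * K + 7),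
      ev_pow (4 ^ A1 / δ) (2 * A1 + 2 * K)]
      with X h1 h1' h2 h3 h4 h5 h6 h6a h6b h6c h7 h8
    exact ⟨⟨h1, h1'⟩, h2, ⟨h3, (Nat.le_ceil _).trans (by exact_mod_cast h4)⟩,
      ⟨h5, h6, h6a, h6b, h6c⟩, h7, h8⟩
  obtain ⟨X₀, hX₀⟩ := Filter.eventually_atTop.mp hev
  refine ⟨X₀, fun X hX S hS a haW => ?_⟩
  obtain ⟨⟨hX2, hXXm⟩, hL1, ⟨hw80, hw4000⟩, ⟨hLC, hLD, hLD1, hLA, hLδ⟩, hP1, hP2⟩ := hX₀ X hX
  set L : ℝ := Real.log (X : ℝ) with hL
  have hL0 : 0 < L := by linarith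
  set W : ℕ := WX X with hWdef
  have hWsq : Squarefree W := WX_squarefree _
  have hW1 : 1 ≤ W := Nat.one_le_iff_ne_zero.mpr hWsq.ne_zero
  have hWR : (0 : ℝ) < W := by exact_mod_cast hW1
  have hWL : (W : ℝ) ≤ L ^ 2 := WX_le X hL1
  have hφ0 : 0 < W.totient := Nat.totient_pos.mpr hW1
  have hφR : (0 : ℝ) < W.totient := by exact_mod_cast hφ0
  have hφL : (W.totient : ℝ) ≤ L ^ 2 := by
    have : (W.totient : ℝ) ≤ W := by exact_mod_cast Nat.totient_le W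
    linarith
  have hXpos : 0 < X := by omega
  have hXR : (0 : ℝ) < X := by exact_mod_cast hXpos
  set w : ℕ := wX X with hw
  have hwL : (w : ℝ) ≤ L := wX_le X hL1
  have hw0 : (80 : ℝ) ≤ w := by exact_mod_cast hw80
  have h10w : 10 / (w : ℝ) ≤ 1 / 8 := by
    rw [div_le_iff₀ (by linarith)]; linarith
  have h10w' : 10 / (w : ℝ) ≤ ε / 400 := by
    rw [div_le_iff₀ (by linarith)]
    have h := mul_le_mul_of_nonneg_left hw4000 hε.le
    have e : ε * (4000 / ε) = 4000 := by field_simp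
    rw [e] at h
    linarith
  have h10w0 : 0 ≤ 10 / (w : ℝ) := by positivity
  have hcexp : Real.exp (2 * ε' + 10 / (w : ℝ)) ≤ 2 := by
    have h0 : 0 ≤ 2 * ε' + 10 / (w : ℝ) := by positivity
    have h := Real.abs_exp_sub_one_le (x := 2 * ε' + 10 / (w : ℝ)) (by
      rw [abs_of_nonneg h0]; linarith)
    rw [abs_of_nonneg h0] at h
    have := le_abs_self (Real.exp (2 * ε' + 10 / (w : ℝ)) - 1)
    linarith
  -- the moduli
  set Q : ℕ := ⌊(Real.log ((2 * X : ℕ) : ℝ)) ^ A1⌋₊ with hQ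
  have hl2X : L ≤ Real.log ((2 * X : ℕ) : ℝ) := by
    rw [hL]
    apply Real.log_le_log hXR
    push_cast
    linarith
  have hl2X' : Real.log ((2 * X : ℕ) : ℝ) ≤ 2 * L := by
    have h2X : (2 : ℝ) ≤ X := by exact_mod_cast hX2
    have h := Real.log_le_log (show (0 : ℝ) < ((2 * X : ℕ) : ℝ) by push_cast; positivity)
      (show ((2 * X : ℕ) : ℝ) ≤ (X : ℝ) ^ 2 by
        push_cast; rw [sq]; exact mul_le_mul_of_nonneg_right h2X hXR.le)
    rw [Real.log_pow] at h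
    simpa [hL] using h
  have hQle : (Q : ℝ) ≤ (Real.log ((2 * X : ℕ) : ℝ)) ^ A1 := Nat.floor_le (by positivity)
  have hQle' : (Q : ℝ) ≤ (2 * L) ^ A1 :=
    hQle.trans (pow_le_pow_left₀ (by linarith) hl2X' _)
  have hQL : (Q : ℝ) ≤ L ^ (A1 + 1) := by
    refine hQle'.trans ?_
    rw [mul_pow, pow_succ, mul_comm]
    exact mul_le_mul_of_nonneg_left hLA (by positivity)
  have hQ0 : (0 : ℝ) ≤ Q := Nat.cast_nonneg _
  have hQ1 : 1 ≤ Q := by
    rw [hQ]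
    apply Nat.le_floor
    rw [Nat.cast_one]
    exact one_le_pow₀ (by linarith)
  set T : Finset ℕ := Sa W S (2 * a) with hT
  have hTS : T ⊆ Icc 1 X := by
    intro s hs
    rw [hT, mem_Sa] at hs
    exact hS hs.1
  set n : ℝ := (T.card : ℝ) with hn
  have hn0 : 0 ≤ n := Nat.cast_nonneg _
  have hnX : n ≤ X := by
    rw [hn]
    have := Finset.card_le_card hTS
    rw [Nat.card_Icc] at this
    have : T.card ≤ X := by omega
    exact_mod_cast this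
  -- Fourier
  have hF := hC (2 * X) (by omega) (QsOf W (Q2Of W Q)) (by
      intro q hq
      obtain ⟨h1, h2⟩ := mem_QsOf_bound hWsq hq hQ1
      refine ⟨h1, ?_⟩
      have h3 : (q : ℝ) ≤ W * Q := by exact_mod_cast h2
      refine h3.trans ?_
      have h4 : (W : ℝ) ≤ (Real.log ((2 * X : ℕ) : ℝ)) ^ 3 := by
        refine hWL.trans ?_
        refine (pow_le_pow_left₀ hL0.le hl2X 2).trans ?_
        exact pow_le_pow_right₀ (by linarith) (by norm_num)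
      calc (W : ℝ) * Q ≤ (Real.log ((2 * X : ℕ) : ℝ)) ^ 3 * (Real.log ((2 * X : ℕ) : ℝ)) ^ A1 :=
            mul_le_mul h4 hQle (Nat.cast_nonneg _) (by positivity)
        _ = (Real.log ((2 * X : ℕ) : ℝ)) ^ (A1 + 3) := by rw [← pow_add, add_comm])
    (by
      intro q hq hqQ
      exact mem_QsOf_of hWsq.ne_zero hq (Nat.le_floor hqQ)) (2 * X) le_rfl
  set c : ℝ := (W : ℝ) / (W.totient : ℝ) with hc
  have hc1 : 1 ≤ c := by
    rw [hc, le_div_iff₀ hφR, one_mul]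
    exact_mod_cast Nat.totient_le W
  -- split
  set F := (Ioc (X / 2) X).filter (fun p => p ≡ a [MOD W]) with hFdef
  have hF1 : ∀ p ∈ F, X < 2 * p ∧ p ≤ X ∧ 2 * p ≡ 2 * a [MOD W] := by
    intro p hp
    rw [hFdef, Finset.mem_filter, Finset.mem_Ioc] at hp
    exact ⟨by omega, hp.1.2, Nat.ModEq.mul_left 2 hp.2⟩
  have hF2 : F.card ≤ X := by
    refine (Finset.card_filter_le _ _).trans ?_
    rw [Nat.card_Ioc]; omega
  have hF2' : (F.card : ℝ) ≤ X := by exact_mod_cast hF2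
  have hTf : ∀ p ∈ F, T.filter (fun s => s < 2 * p) = T := by
    intro p hp
    apply Finset.filter_true_of_mem
    intro s hs
    have h1 := Finset.mem_Icc.mp (hTS hs)
    have h2 := (hF1 p hp).1
    omega
  have hlam0 : ∀ p ∈ F, 0 ≤ lam p := fun p _ => lam_nonneg' p
  have hlamL : ∀ p ∈ F, lam p ≤ L := fun p hp => mp5_lam_le (hF1 p hp).2.1 (by omega)
  set E1 : ℕ → ℝ := fun N => ∑ s ∈ (S \ T).filter (fun s => s < N), lam (N - s) with hE1
  set E2 : ℕ → ℝ := fun N => ∑ s ∈ T.filter (fun s => s < N),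
        (if 1 ≤ N - s ∧ N - s ≤ 2 * X then lam (N - s) - LQ (QsOf W (Q2Of W Q)) ((N - s : ℕ) : ℤ)
          else 0) with hE2
  set G : ℕ → ℝ := fun p => ∑ s ∈ T, ∑ q ∈ Q2Of W Q, gq q (2 * (p : ℤ) - s) with hG
  have hsplit : ∑ p ∈ F, lam p * (rS S (2 * p) - c * n) ^ 2 ≤
      3 * ∑ p ∈ F, lam p * (E1 (2 * p)) ^ 2 + 3 * ∑ p ∈ F, lam p * (E2 (2 * p)) ^ 2 +
        3 * (c ^ 2 * ∑ p ∈ F, lam p * (G p) ^ 2) := by
    rw [Finset.mul_sum, Finset.mul_sum, Finset.mul_sum, Finset.mul_sum, ← Finset.sum_add_distrib,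
      ← Finset.sum_add_distrib]
    apply Finset.sum_le_sum
    intro p hp
    obtain ⟨hp1, hp2, hp3⟩ := hF1 p hp
    have hd := decomp W (2 * p) (2 * a) Q X hWsq hp3 (by omega) S
    have hSN : SN W S (2 * p) = T := by
      rw [SN_eq hp3 S, ← hT]
      exact hTf p hp
    rw [hSN] at hd
    have e : rS S (2 * p) - c * n = E1 (2 * p) + E2 (2 * p) + c * G p := by
      rw [← hT] at hd
      rw [hE1, hE2, hG, hn, hc, hd]
      simp only
      rw [hTf p hp]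
      push_cast
      rfl
    rw [e]
    have h3 := mul_le_mul_of_nonneg_left (three_sq (E1 (2 * p)) (E2 (2 * p)) (c * G p))
      (hlam0 p hp)
    refine h3.trans (le_of_eq ?_)
    rw [mul_pow]
    ring
  have hB1 : ∑ p ∈ F, lam p * (E1 (2 * p)) ^ 2 ≤ X * L ^ 5 := by
    have e1 : ∀ p ∈ F, lam p * (E1 (2 * p)) ^ 2 ≤ L ^ 5 := by
      intro p hp
      obtain ⟨h1, h2⟩ := E1_bound w (2 * p) (2 * a) (hF1 p hp).2.2 S
      have h3 : E1 (2 * p) ≤ L ^ 2 := h2.trans (pow_le_pow_left₀ (Nat.cast_nonneg _) hwL 2)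
      have h4 : 0 ≤ E1 (2 * p) := h1
      calc lam p * (E1 (2 * p)) ^ 2 ≤ L * (L ^ 2) ^ 2 :=
            mul_le_mul (hlamL p hp) (pow_le_pow_left₀ h4 h3 2) (by positivity) hL0.le
        _ = L ^ 5 := by ring
    refine (Finset.sum_le_sum e1).trans ?_
    rw [Finset.sum_const, nsmul_eq_mul]
    exact mul_le_mul_of_nonneg_right hF2' (by positivity)
  have hB2 : ∑ p ∈ F, lam p * (E2 (2 * p)) ^ 2 ≤ L * ((C * (2 * X) / L ^ (K + 2)) ^ 2 * X) := by
    have h := E2_bound X T hTS (QsOf W (Q2Of W Q)) (C * ((2 * X : ℕ) : ℝ) /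
      (Real.log ((2 * X : ℕ) : ℝ)) ^ (K + 2)) hF (fun N => N ≡ 2 * a [MOD W])
    have h2 : ∑ p ∈ F, lam p * (E2 (2 * p)) ^ 2 ≤ L * ∑ p ∈ F, (E2 (2 * p)) ^ 2 := by
      rw [Finset.mul_sum]
      apply Finset.sum_le_sum
      intro p hp
      exact mul_le_mul_of_nonneg_right (hlamL p hp) (sq_nonneg _)
    have h3 : ∑ p ∈ F, (E2 (2 * p)) ^ 2 ≤
        ∑ N ∈ (Icc 1 (2 * X)).filter (fun N => N ≡ 2 * a [MOD W]), (E2 N) ^ 2 := by
      have h4 : ∑ p ∈ F, (E2 (2 * p)) ^ 2 = ∑ N ∈ F.image (fun p => 2 * p), (E2 N) ^ 2 := by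
        rw [Finset.sum_image]
        intro x _ y _ hxy
        simp only at hxy
        omega
      rw [h4]
      apply Finset.sum_le_sum_of_subset_of_nonneg
      · intro N hN
        rw [Finset.mem_image] at hN
        obtain ⟨p, hp, rfl⟩ := hN
        obtain ⟨hp1, hp2, hp3⟩ := hF1 p hp
        rw [Finset.mem_filter, Finset.mem_Icc]
        exact ⟨⟨by omega, by omega⟩, hp3⟩
      · intro N _ _
        positivity
    refine h2.trans (mul_le_mul_of_nonneg_left (h3.trans (h.trans ?_)) hL0.le)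
    apply mul_le_mul _ hnX hn0 (by positivity)
    apply pow_le_pow_left₀ (by positivity)
    push_cast
    apply div_le_div_of_nonneg_left (by positivity) (by positivity)
    apply pow_le_pow_left₀ hL0.le
    have := hl2X
    push_cast at this
    exact this
  -- the final parameters
  set P : ℝ := (X : ℝ) / L ^ K with hP
  have hLK : 0 < L ^ K := by positivity
  have hP0 : 0 < P := by rw [hP]; positivity
  have hPX : P ^ 2 * L ^ (2 * K) = (X : ℝ) ^ 2 := by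
    rw [hP, div_pow, ← pow_mul, mul_comm K 2]
    field_simp
  have hXW : (X : ℝ) ≤ (X : ℝ) / W.totient * L ^ 2 := by
    rw [div_mul_eq_mul_div, le_div_iff₀ hφR]
    exact mul_le_mul_of_nonneg_left hφL hXR.le
  have hXW0 : 0 < (X : ℝ) / W.totient := by positivity
  have hTT : (X : ℝ) ^ 3 ≤ ((X : ℝ) / W.totient * P ^ 2) * L ^ (2 * K + 2) := by
    have e : ((X : ℝ) / W.totient * P ^ 2) * L ^ (2 * K + 2) =
        ((X : ℝ) / W.totient * L ^ 2) * (P ^ 2 * L ^ (2 * K)) := by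
      ring
    rw [e, hPX]
    calc (X : ℝ) ^ 3 = X * (X : ℝ) ^ 2 := by ring
      _ ≤ _ := mul_le_mul_of_nonneg_right hXW (by positivity)
  -- E1
  have hI1 : 3 * ∑ p ∈ F, lam p * (E1 (2 * p)) ^ 2 ≤ ε / 10 * ((X : ℝ) / W.totient * P ^ 2) := by
    have h1 : 30 * L ^ (2 * K + 7) ≤ ε * X := by
      have h := mul_le_mul_of_nonneg_left hP1 hε.le
      have e : ε * (30 / ε * L ^ (2 * K + 7)) = 30 * L ^ (2 * K + 7) := by field_simp
      rwa [e] at h
    have h2 : (1 : ℝ) ≤ X := by exact_mod_cast hXpos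
    have h3 : 3 * X * L ^ 5 * L ^ (2 * K + 2) ≤
        ε / 10 * ((X : ℝ) / W.totient * P ^ 2) * L ^ (2 * K + 2) := by
      have e1 : 3 * (X : ℝ) * L ^ 5 * L ^ (2 * K + 2) = 1 / 10 * (30 * L ^ (2 * K + 7)) * X := by
        ring
      rw [e1]
      calc 1 / 10 * (30 * L ^ (2 * K + 7)) * X ≤ 1 / 10 * (ε * X) * X := by
            apply mul_le_mul_of_nonneg_right _ hXR.le
            linarith
        _ = ε / 10 * ((X : ℝ) ^ 2 * 1) := by ring
        _ ≤ ε / 10 * ((X : ℝ) ^ 2 * X) := by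
            apply mul_le_mul_of_nonneg_left _ (by positivity)
            exact mul_le_mul_of_nonneg_left h2 (by positivity)
        _ = ε / 10 * (X : ℝ) ^ 3 := by ring
        _ ≤ ε / 10 * (((X : ℝ) / W.totient * P ^ 2) * L ^ (2 * K + 2)) :=
            mul_le_mul_of_nonneg_left hTT (by positivity)
        _ = _ := by ring
    have h4 := le_of_mul_le_mul_right h3 (by positivity : 0 < L ^ (2 * K + 2))
    linarith
  -- E2
  have hI2 : 3 * ∑ p ∈ F, lam p * (E2 (2 * p)) ^ 2 ≤ ε / 10 * ((X : ℝ) / W.totient * P ^ 2) := by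
    have h1 : 120 * C ^ 2 ≤ ε * L := by
      have h := mul_le_mul_of_nonneg_left hLC hε.le
      have e : ε * (120 * C ^ 2 / ε) = 120 * C ^ 2 := by field_simp
      rwa [e] at h
    have h3 : 3 * (L * ((C * (2 * X) / L ^ (K + 2)) ^ 2 * X)) * L ^ (2 * K + 3) ≤
        ε / 10 * ((X : ℝ) / W.totient * P ^ 2) * L ^ (2 * K + 3) := by
      have e1 : 3 * (L * ((C * (2 * X) / L ^ (K + 2)) ^ 2 * X)) * L ^ (2 * K + 3) =
          1 / 10 * (120 * C ^ 2) * (X : ℝ) ^ 3 := by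
        have h0 : L ^ (K + 2) ≠ 0 := by positivity
        have : L * L ^ (2 * K + 3) = (L ^ (K + 2)) ^ 2 := by rw [← pow_mul, ← pow_succ']; congr 1; ring
        calc 3 * (L * ((C * (2 * X) / L ^ (K + 2)) ^ 2 * X)) * L ^ (2 * K + 3) =
            3 * ((C * (2 * X) / L ^ (K + 2)) ^ 2 * X) * (L * L ^ (2 * K + 3)) := by ring
          _ = 3 * ((C * (2 * X) / L ^ (K + 2)) ^ 2 * X) * (L ^ (K + 2)) ^ 2 := by rw [this]
          _ = _ := by
            rw [div_pow]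
            field_simp
            ring
      rw [e1]
      calc 1 / 10 * (120 * C ^ 2) * (X : ℝ) ^ 3 ≤ 1 / 10 * (ε * L) * (X : ℝ) ^ 3 := by
            apply mul_le_mul_of_nonneg_right _ (by positivity)
            linarith
        _ = ε / 10 * L * (X : ℝ) ^ 3 := by ring
        _ ≤ ε / 10 * L * (((X : ℝ) / W.totient * P ^ 2) * L ^ (2 * K + 2)) :=
            mul_le_mul_of_nonneg_left hTT (by positivity)
        _ = _ := by ring
    have h4 := le_of_mul_le_mul_right h3 (by positivity : 0 < L ^ (2 * K + 3))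
    linarith
  -- E3: good and bad elements
  set Tg : Finset ℕ := T.filter (fun s => ¬ (ε' ≤ Tp w s)) with hTg
  set Tb : Finset ℕ := T.filter (fun s => ε' ≤ Tp w s) with hTb
  have hTgX : Tg ⊆ Icc 1 X := (Finset.filter_subset _ _).trans hTS
  have hTgn : (Tg.card : ℝ) ≤ n := by
    rw [hn]
    exact_mod_cast Finset.card_filter_le _ _
  set Gg : ℕ → ℝ := fun p => ∑ s ∈ Tg, ∑ q ∈ Q2Of W Q, gq q (2 * (p : ℤ) - s) with hGg
  set Gb : ℕ → ℝ := fun p => ∑ s ∈ Tb, ∑ q ∈ Q2Of W Q, gq q (2 * (p : ℤ) - s) with hGb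
  have hGsplit : ∀ p, G p = Gb p + Gg p := by
    intro p
    exact (Finset.sum_filter_add_sum_filter_not T (fun s => ε' ≤ Tp w s) _).symm
  have hbadn : (Tb.card : ℝ) ≤ X * (D1 / L ^ (K + A1 + 2)) := by
    have h1 := bad_count w X (by omega) lb ε' hlb0 hε'0 T hTS
    refine h1.trans ?_
    exact mul_le_mul_of_nonneg_left (mp5_exp X (K + A1 + 2) ε' lb hL1 hlbe) hXR.le
  have hbad : ∑ p ∈ F, lam p * (Gb p) ^ 2 ≤ δ * ((X : ℝ) / W.totient * P ^ 2) := by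
    have h1 : ∀ p ∈ F, lam p * (Gb p) ^ 2 ≤
        L * (X * (D1 / L ^ (K + A1 + 2)) * (2 * L) ^ A1) ^ 2 := by
      intro p hp
      have h2 : |Gb p| ≤ X * (D1 / L ^ (K + A1 + 2)) * (2 * L) ^ A1 := by
        refine (mp5_bad_abs Tb W Q p).trans ?_
        exact mul_le_mul hbadn hQle' hQ0 (by positivity)
      have h3 : (Gb p) ^ 2 ≤ (X * (D1 / L ^ (K + A1 + 2)) * (2 * L) ^ A1) ^ 2 := by
        rw [← sq_abs]
        exact pow_le_pow_left₀ (abs_nonneg _) h2 2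
      exact mul_le_mul (hlamL p hp) h3 (sq_nonneg _) hL0.le
    refine (Finset.sum_le_sum h1).trans ?_
    rw [Finset.sum_const, nsmul_eq_mul]
    have h4 : (F.card : ℝ) * (L * (X * (D1 / L ^ (K + A1 + 2)) * (2 * L) ^ A1) ^ 2) ≤
        X * (L * (X * (D1 / L ^ (K + A1 + 2)) * (2 * L) ^ A1) ^ 2) :=
      mul_le_mul_of_nonneg_right hF2' (by positivity)
    refine h4.trans ?_
    have h5 : 4 ^ A1 * D1 ^ 2 ≤ δ * L := by
      have h := mul_le_mul_of_nonneg_left hLD1 hδ0.le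
      have e : δ * (4 ^ A1 * D1 ^ 2 / δ) = 4 ^ A1 * D1 ^ 2 := by field_simp
      rwa [e] at h
    have e1 : X * (L * (X * (D1 / L ^ (K + A1 + 2)) * (2 * L) ^ A1) ^ 2) * L ^ (2 * K + 3) =
        (4 ^ A1 * D1 ^ 2) * (X : ℝ) ^ 3 := by
      have e2 : (2 * L) ^ A1 / L ^ (K + A1 + 2) = 2 ^ A1 / L ^ (K + 2) := by
        rw [mul_pow, show K + A1 + 2 = A1 + (K + 2) by ring, pow_add]
        field_simp
      have e3 : (X : ℝ) * (D1 / L ^ (K + A1 + 2)) * (2 * L) ^ A1 =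
          X * D1 * (2 ^ A1 / L ^ (K + 2)) := by
        rw [← e2]; ring
      rw [e3]
      have e4 : L * L ^ (2 * K + 3) = (L ^ (K + 2)) ^ 2 := by
        rw [← pow_mul, ← pow_succ']; congr 1; ring
      have e5 : (4 : ℝ) ^ A1 = (2 ^ A1) ^ 2 := by
        rw [← pow_mul, mul_comm, pow_mul]; norm_num
      have h0 : L ^ (K + 2) ≠ 0 := by positivity
      calc (X : ℝ) * (L * (X * D1 * (2 ^ A1 / L ^ (K + 2))) ^ 2) * L ^ (2 * K + 3) =
          (X : ℝ) * (X * D1 * (2 ^ A1 / L ^ (K + 2))) ^ 2 * (L * L ^ (2 * K + 3)) := by ring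
        _ = (X : ℝ) * (X * D1 * (2 ^ A1 / L ^ (K + 2))) ^ 2 * (L ^ (K + 2)) ^ 2 := by rw [e4]
        _ = (X : ℝ) * (X * D1 * ((2 ^ A1 / L ^ (K + 2)) * L ^ (K + 2))) ^ 2 := by ring
        _ = (X : ℝ) * (X * D1 * 2 ^ A1) ^ 2 := by rw [div_mul_cancel₀ _ h0]
        _ = _ := by rw [e5]; ring
    have h6 : X * (L * (X * (D1 / L ^ (K + A1 + 2)) * (2 * L) ^ A1) ^ 2) * L ^ (2 * K + 3) ≤
        δ * ((X : ℝ) / W.totient * P ^ 2) * L ^ (2 * K + 3) := by
      rw [e1]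
      calc (4 ^ A1 * D1 ^ 2) * (X : ℝ) ^ 3 ≤ (δ * L) * (X : ℝ) ^ 3 :=
            mul_le_mul_of_nonneg_right h5 (by positivity)
        _ ≤ (δ * L) * (((X : ℝ) / W.totient * P ^ 2) * L ^ (2 * K + 2)) :=
            mul_le_mul_of_nonneg_left hTT (by positivity)
        _ = _ := by ring
    exact le_of_mul_le_mul_right h6 (by positivity)
  have hgood : ∑ p ∈ F, lam p * (Gg p) ^ 2 ≤ 5 * δ * ((X : ℝ) / W.totient * (n ^ 2 + P ^ 2)) := by
    have h1 := hXm X hXXm w Q a (by omega) hWL hQL hQ1 haW Tg hTgX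
    have h2 := mp5_good_sum w X (by omega) Tg hTgX lm ε' δ hlm1 hε'0
      (fun s hs => (not_le.mp (Finset.mem_filter.mp hs).2).le)
      (hexp ε' hε'0.le (by linarith) (by linarith))
      (hexp _ (by positivity) (by linarith) (by linarith)) hcexp
      (D0 / L ^ (K + 1)) (D_bound X K ε' lm hL1 hlme)
    refine h1.trans ?_
    have hg0 : (0 : ℝ) ≤ Tg.card := Nat.cast_nonneg _
    have hQn : (Q : ℝ) ^ 2 * Tg.card ≤ δ * P ^ 2 := by
      have h1 : 4 ^ A1 * L ^ (2 * A1 + 2 * K) ≤ δ * X := by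
        have h := mul_le_mul_of_nonneg_left hP2 hδ0.le
        have e : δ * (4 ^ A1 / δ * L ^ (2 * A1 + 2 * K)) = 4 ^ A1 * L ^ (2 * A1 + 2 * K) := by
          field_simp
        rwa [e] at h
      have h2 : (Q : ℝ) ^ 2 * Tg.card * L ^ (2 * K) ≤ δ * P ^ 2 * L ^ (2 * K) := by
        rw [mul_assoc δ, hPX]
        have e5 : (4 : ℝ) ^ A1 = (2 ^ A1) ^ 2 := by
          rw [← pow_mul, mul_comm, pow_mul]; norm_num
        calc (Q : ℝ) ^ 2 * Tg.card * L ^ (2 * K) ≤ ((2 * L) ^ A1) ^ 2 * X * L ^ (2 * K) := by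
              apply mul_le_mul_of_nonneg_right _ (by positivity)
              exact mul_le_mul (pow_le_pow_left₀ hQ0 hQle' 2) (hTgn.trans hnX) hg0 (by positivity)
          _ = 4 ^ A1 * L ^ (2 * A1 + 2 * K) * X := by
              rw [mul_pow, pow_add, e5, show 2 * A1 = A1 * 2 by ring, pow_mul L A1 2]; ring
          _ ≤ δ * X * X := mul_le_mul_of_nonneg_right h1 hXR.le
          _ = _ := by ring
      exact le_of_mul_le_mul_right h2 (by positivity)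
    have hcoll : 4 * Tg.card * X * (D0 / L ^ (K + 1)) ≤ δ * (n ^ 2 + P ^ 2) := by
      have h1 : 2 * D0 ≤ δ * L := by
        have h := mul_le_mul_of_nonneg_left hLD hδ0.le
        have e : δ * (2 * D0 / δ) = 2 * D0 := by field_simp
        rwa [e] at h
      have h0 : 4 * Tg.card * X * (D0 / L ^ (K + 1)) ≤ 4 * n * X * (D0 / L ^ (K + 1)) := by
        apply mul_le_mul_of_nonneg_right _ (by positivity)
        apply mul_le_mul_of_nonneg_right _ hXR.le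
        linarith
      refine h0.trans ?_
      have e1 : 4 * n * X * (D0 / L ^ (K + 1)) = 2 * (n * P) * (2 * D0 / L) := by
        rw [hP, pow_succ]
        field_simp
        ring
      have h2 : 2 * D0 / L ≤ δ := by rw [div_le_iff₀ hL0]; exact h1
      rw [e1]
      calc 2 * (n * P) * (2 * D0 / L) ≤ 2 * (n * P) * δ :=
            mul_le_mul_of_nonneg_left h2 (by positivity)
        _ ≤ δ * (n ^ 2 + P ^ 2) := two_mul_le_sq' n P δ hδ0.le
    have hg2 : (Tg.card : ℝ) ^ 2 ≤ n ^ 2 := pow_le_pow_left₀ hg0 hTgn 2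
    have hlast : (Tg.card : ℝ) ^ 2 * (Q : ℝ) ^ 2 * (X / L ^ (2 * A1 + 5)) ≤
        δ * ((X : ℝ) / W.totient * n ^ 2) := by
      have h3 : (1 : ℝ) ≤ δ * L := by
        have h := mul_le_mul_of_nonneg_left hLδ hδ0.le
        have e : δ * (1 / δ) = 1 := by field_simp
        rwa [e] at h
      have h4 : (Q : ℝ) ^ 2 * (X / L ^ (2 * A1 + 5)) ≤ δ * ((X : ℝ) / W.totient) := by
        rw [← mul_div_assoc, ← mul_div_assoc, div_le_div_iff₀ (by positivity) hφR]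
        calc (Q : ℝ) ^ 2 * X * W.totient ≤ (L ^ (A1 + 1)) ^ 2 * X * L ^ 2 := by
              apply mul_le_mul _ hφL hφR.le (by positivity)
              exact mul_le_mul_of_nonneg_right (pow_le_pow_left₀ hQ0 hQL 2) hXR.le
          _ = 1 * (X * L ^ (2 * A1 + 4)) := by rw [← pow_mul]; ring
          _ ≤ δ * L * (X * L ^ (2 * A1 + 4)) := mul_le_mul_of_nonneg_right h3 (by positivity)
          _ = δ * X * L ^ (2 * A1 + 5) := by ring
      calc (Tg.card : ℝ) ^ 2 * (Q : ℝ) ^ 2 * (X / L ^ (2 * A1 + 5)) =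
          (Tg.card : ℝ) ^ 2 * ((Q : ℝ) ^ 2 * (X / L ^ (2 * A1 + 5))) := by ring
        _ ≤ n ^ 2 * (δ * ((X : ℝ) / W.totient)) :=
            mul_le_mul hg2 h4 (by positivity) (by positivity)
        _ = _ := by ring
    have h5 : (X : ℝ) / ((primorial w).totient : ℝ) * ((Q : ℝ) ^ 2 * Tg.card +
          ∑ s ∈ Tg, ∑ s' ∈ Tg.filter (fun s' => s' ≠ s),
            (Real.exp (Tp w s + Tp w s' + Tp w ((s : ℤ) - (s' : ℤ)).natAbs + 10 / w) - 1)) ≤
        (X : ℝ) / W.totient * (δ * P ^ 2 + (3 * δ * n ^ 2 + δ * (n ^ 2 + P ^ 2))) := by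
      apply mul_le_mul_of_nonneg_left _ hXW0.le
      have h6 : 3 * δ * (Tg.card : ℝ) ^ 2 ≤ 3 * δ * n ^ 2 :=
        mul_le_mul_of_nonneg_left hg2 (by positivity)
      linarith
    have h7 : (X : ℝ) / W.totient * (δ * P ^ 2 + (3 * δ * n ^ 2 + δ * (n ^ 2 + P ^ 2))) +
        δ * ((X : ℝ) / W.totient * n ^ 2) ≤ 5 * δ * ((X : ℝ) / W.totient * (n ^ 2 + P ^ 2)) := by
      have e : 5 * δ * ((X : ℝ) / W.totient * (n ^ 2 + P ^ 2)) -
          ((X : ℝ) / W.totient * (δ * P ^ 2 + (3 * δ * n ^ 2 + δ * (n ^ 2 + P ^ 2))) +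
        δ * ((X : ℝ) / W.totient * n ^ 2)) = 3 * (δ * ((X : ℝ) / W.totient) * P ^ 2) := by ring
      have h0 : 0 ≤ 3 * (δ * ((X : ℝ) / W.totient) * P ^ 2) := by positivity
      linarith
    exact (add_le_add h5 hlast).trans h7
  have hI3 : ∑ p ∈ F, lam p * (G p) ^ 2 ≤ 12 * δ * ((X : ℝ) / W.totient * (n ^ 2 + P ^ 2)) := by
    have h1 : ∑ p ∈ F, lam p * (G p) ^ 2 ≤
        2 * ∑ p ∈ F, lam p * (Gb p) ^ 2 + 2 * ∑ p ∈ F, lam p * (Gg p) ^ 2 := by
      rw [Finset.mul_sum, Finset.mul_sum, ← Finset.sum_add_distrib]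
      apply Finset.sum_le_sum
      intro p hp
      have h2 := mul_le_mul_of_nonneg_left (mp5_two_sq (Gb p) (Gg p)) (hlam0 p hp)
      rw [hGsplit p]
      linarith
    have h3 : δ * ((X : ℝ) / W.totient * P ^ 2) ≤ δ * ((X : ℝ) / W.totient * (n ^ 2 + P ^ 2)) := by
      apply mul_le_mul_of_nonneg_left _ hδ0.le
      apply mul_le_mul_of_nonneg_left _ hXW0.le
      have := sq_nonneg n
      linarith
    linarith
  have hc2 : 1 ≤ c ^ 2 := one_le_pow₀ hc1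
  have hfin1 : (X : ℝ) / W.totient * P ^ 2 ≤ (X : ℝ) / W.totient * c ^ 2 * (n ^ 2 + P ^ 2) := by
    have h1 : (X : ℝ) / W.totient * P ^ 2 ≤ (X : ℝ) / W.totient * (n ^ 2 + P ^ 2) := by
      apply mul_le_mul_of_nonneg_left _ hXW0.le
      have := sq_nonneg n
      linarith
    have h2 : (X : ℝ) / W.totient * (n ^ 2 + P ^ 2) * 1 ≤
        (X : ℝ) / W.totient * (n ^ 2 + P ^ 2) * c ^ 2 :=
      mul_le_mul_of_nonneg_left hc2 (by positivity)
    have e : (X : ℝ) / W.totient * c ^ 2 * (n ^ 2 + P ^ 2) =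
        (X : ℝ) / W.totient * (n ^ 2 + P ^ 2) * c ^ 2 := by
      ring
    rw [e]
    linarith
  refine hsplit.trans ?_
  have hI3' : 3 * (c ^ 2 * ∑ p ∈ F, lam p * (G p) ^ 2) ≤
      36 * δ * ((X : ℝ) / W.totient * c ^ 2 * (n ^ 2 + P ^ 2)) := by
    have h := mul_le_mul_of_nonneg_left hI3 (show 0 ≤ 3 * c ^ 2 by positivity)
    calc 3 * (c ^ 2 * ∑ p ∈ F, lam p * (G p) ^ 2) = 3 * c ^ 2 * ∑ p ∈ F, lam p * (G p) ^ 2 := by
          ring
      _ ≤ 3 * c ^ 2 * (12 * δ * ((X : ℝ) / W.totient * (n ^ 2 + P ^ 2))) := h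
      _ = _ := by ring
  have hfin2 : ε / 10 * ((X : ℝ) / W.totient * P ^ 2) ≤
      ε / 10 * ((X : ℝ) / W.totient * c ^ 2 * (n ^ 2 + P ^ 2)) :=
    mul_le_mul_of_nonneg_left hfin1 (by positivity)
  have hTT' : 0 ≤ ε * ((X : ℝ) / W.totient * c ^ 2 * (n ^ 2 + P ^ 2)) := by positivity
  have e9 : ε * ((X : ℝ) / W.totient) * c ^ 2 * (n ^ 2 + P ^ 2) =
      ε * ((X : ℝ) / W.totient * c ^ 2 * (n ^ 2 + P ^ 2)) := by ring
  rw [e9]
  have e10 : 36 * δ * ((X : ℝ) / W.totient * c ^ 2 * (n ^ 2 + P ^ 2)) =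
      36 / 100 * (ε * ((X : ℝ) / W.totient * c ^ 2 * (n ^ 2 + P ^ 2))) := by rw [hδ]; ring
  rw [e10] at hI3'
  linarith

end Pool.Agent.Lib.SW
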