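import Pool.Agent.Lib.SW.MP.MP5
import Pool.Agent.Lib.SW.LG1

/-!
# MP-6: THE LOCAL-GLOBAL PRINCIPLE FOR MIDPOINTS

PROOFS.  `mid_class_bad`: Chebyshev's inequality in one class, from `mid_l2`, `lam p ≥ log X - log 2 ≥ (log X)/2`.
`mid_local_global`: as `local_global` in LG1: sum over the reduced classes `a mod W` (a prime `p > X/2` is coprime
to `W`), `Sa W S (2a)` is the local set of `N = 2p` (`SN_eq_Sa`), `conversion`.
-/

set_option autoImplicit false

open Finset Pool.Agent.Lib.GT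

namespace Pool.Agent.Lib.SW

theorem mid_class_bad (K : ℕ) (η ε : ℝ) (hη : 0 < η) (hε : 0 < ε) :
    ∃ X₀ : ℕ, ∀ X : ℕ, X₀ ≤ X → ∀ S : Finset ℕ, S ⊆ Icc 1 X → ∀ a : ℕ, Nat.Coprime a (WX X) →
      (((Ioc (X / 2) X).filter (fun p => p.Prime ∧ p ≡ a [MOD WX X] ∧
        η * cX X * max ((Sa (WX X) S (2 * a)).card : ℝ) (X / (Real.log X) ^ K) <
          |rS S (2 * p) - cX X * (Sa (WX X) S (2 * a)).card|)).card : ℝ) ≤
        ε * (X / ((WX X).totient * Real.log X)) := by
  obtain ⟨X₀, hX₀⟩ := mid_l2 K (ε * η ^ 2 / 4) (by positivity)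
  refine ⟨max X₀ 4, ?_⟩
  intro X hX S hS a ha
  have hX0 : X₀ ≤ X := le_trans (le_max_left _ _) hX
  have hX4 : 4 ≤ X := le_trans (le_max_right _ _) hX
  have hX4' : (4 : ℝ) ≤ X := by exact_mod_cast hX4
  have hmain := hX₀ X hX0 S hS a ha
  have hL0 : 0 < Real.log X := Real.log_pos (by linarith)
  set M : ℝ := max ((Sa (WX X) S (2 * a)).card : ℝ) (X / (Real.log X) ^ K) with hM
  have hM0 : 0 < M := lt_of_lt_of_le (by positivity) (le_max_right _ _)
  have hc1 := one_le_cX X
  set c : ℝ := cX X with hc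
  have hcdef : (WX X : ℝ) / ((WX X).totient : ℝ) = c := rfl
  rw [hcdef] at hmain
  have hphi : (0 : ℝ) < ((WX X).totient : ℝ) := by exact_mod_cast WX_totient_pos X
  set B := (Ioc (X / 2) X).filter (fun p => p.Prime ∧ p ≡ a [MOD WX X] ∧
        η * c * M < |rS S (2 * p) - c * (Sa (WX X) S (2 * a)).card|) with hB
  have hsub : B ⊆ (Ioc (X / 2) X).filter (fun p => p ≡ a [MOD WX X]) := by
    intro p hp
    rw [hB, Finset.mem_filter] at hp
    rw [Finset.mem_filter]
    exact ⟨hp.1, hp.2.2.1⟩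
  have hlam0 : ∀ p : ℕ, 0 ≤ lam p := by
    intro p
    unfold lam
    split_ifs
    · exact Real.log_natCast_nonneg _
    · exact le_rfl
  have hlog : ∀ p ∈ B, Real.log X / 2 ≤ lam p := by
    intro p hp
    rw [hB, Finset.mem_filter, Finset.mem_Ioc] at hp
    unfold lam
    rw [if_pos hp.2.1]
    have h1 : (X : ℝ) / 2 ≤ p := by
      have : X ≤ 2 * p := by omega
      have h2 : (X : ℝ) ≤ 2 * p := by exact_mod_cast this
      linarith
    have h2 : Real.log (X / 2) ≤ Real.log p := Real.log_le_log (by linarith) h1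
    have h3 : Real.log ((X : ℝ) / 2) = Real.log X - Real.log 2 :=
      Real.log_div (by linarith) (by norm_num)
    have h4 : 2 * Real.log 2 ≤ Real.log X := by
      have h5 : Real.log 4 ≤ Real.log X := Real.log_le_log (by norm_num) hX4'
      have h6 : Real.log 4 = 2 * Real.log 2 := by
        rw [show (4 : ℝ) = 2 ^ 2 by norm_num, Real.log_pow]
        norm_num
      linarith
    linarith
  have h1 : (B.card : ℝ) * (Real.log X / 2 * (η * c * M) ^ 2) ≤
      ∑ p ∈ (Ioc (X / 2) X).filter (fun p => p ≡ a [MOD WX X]), lam p *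
        (rS S (2 * p) - c * (Sa (WX X) S (2 * a)).card) ^ 2 := by
    calc (B.card : ℝ) * (Real.log X / 2 * (η * c * M) ^ 2) =
          ∑ _p ∈ B, (Real.log X / 2 * (η * c * M) ^ 2) := by
          rw [Finset.sum_const, nsmul_eq_mul]
      _ ≤ ∑ p ∈ B, lam p * (rS S (2 * p) - c * (Sa (WX X) S (2 * a)).card) ^ 2 := by
          apply Finset.sum_le_sum
          intro p hp
          have hl := hlog p hp
          rw [hB, Finset.mem_filter] at hp
          have h0 : 0 ≤ η * c * M := by positivity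
          refine mul_le_mul hl ?_ (by positivity) (hlam0 p)
          calc (η * c * M) ^ 2 ≤ |rS S (2 * p) - c * (Sa (WX X) S (2 * a)).card| ^ 2 :=
                pow_le_pow_left₀ h0 hp.2.2.2.le 2
            _ = _ := sq_abs _
      _ ≤ _ := Finset.sum_le_sum_of_subset_of_nonneg hsub
          (fun p _ _ => mul_nonneg (hlam0 p) (sq_nonneg _))
  have h2 : ((Sa (WX X) S (2 * a)).card : ℝ) ^ 2 + (X / (Real.log X) ^ K) ^ 2 ≤ 2 * M ^ 2 := by
    have e1 : ((Sa (WX X) S (2 * a)).card : ℝ) ^ 2 ≤ M ^ 2 :=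
      pow_le_pow_left₀ (by positivity) (le_max_left _ _) 2
    have e2 : (X / (Real.log X) ^ K : ℝ) ^ 2 ≤ M ^ 2 :=
      pow_le_pow_left₀ (by positivity) (le_max_right _ _) 2
    linarith
  have h3 : (B.card : ℝ) * (Real.log X / 2 * (η * c * M) ^ 2) ≤
      (ε * (X / ((WX X).totient * Real.log X))) * (Real.log X / 2 * (η * c * M) ^ 2) := by
    calc (B.card : ℝ) * (Real.log X / 2 * (η * c * M) ^ 2) ≤ _ := h1
      _ ≤ _ := hmain
      _ ≤ ε * η ^ 2 / 4 * (X / (WX X).totient) * c ^ 2 * (2 * M ^ 2) := by gcongr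
      _ = (ε * (X / ((WX X).totient * Real.log X))) * (Real.log X / 2 * (η * c * M) ^ 2) := by
          field_simp
          ring
  have hpos : 0 < Real.log X / 2 * (η * c * M) ^ 2 := by positivity
  exact le_of_mul_le_mul_right h3 hpos

/-- `log log X ≤ X / 2` -/
theorem MP6_wX_lt (X : ℕ) (hX : 3 ≤ X) : wX X ≤ X / 2 := by
  have hX3 : (3 : ℝ) ≤ X := by exact_mod_cast hX
  have hL1 : 1 ≤ Real.log X := by
    rw [Real.le_log_iff_exp_le (by linarith)]
    have := Real.exp_one_lt_d9
    linarith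
  have h1 : Real.log (Real.log X) ≤ Real.log X - 1 :=
    Real.log_le_sub_one_of_pos (by linarith)
  have h2 : Real.log X ≤ X / 2 := by
    have h3 := Real.log_le_sub_one_of_pos (show (0 : ℝ) < X / 2 by linarith)
    rw [Real.log_div (by linarith) (by norm_num)] at h3
    have h4 := Real.log_two_lt_d9
    linarith
  have h5 : (wX X : ℝ) ≤ Real.log (Real.log X) := Nat.floor_le (Real.log_nonneg hL1)
  have h6 : (wX X : ℝ) ≤ X / 2 := by linarith
  have h7 : (2 * wX X : ℕ) ≤ X := by
    have : ((2 * wX X : ℕ) : ℝ) ≤ X := by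
      push_cast
      linarith
    exact_mod_cast this
  omega

theorem mid_local_global (K : ℕ) (ε : ℝ) (hε : 0 < ε) :
    ∃ X₀ : ℕ, ∀ X : ℕ, X₀ ≤ X → ∀ S : Finset ℕ, S ⊆ Icc 1 X →
      (((Ioc (X / 2) X).filter (fun p => p.Prime ∧
        ε * cX X * max ((SN (WX X) S (2 * p)).card : ℝ) (X / (Real.log X) ^ K) / Real.log X <
          |(reps S (2 * p) : ℝ) - cX X * (SN (WX X) S (2 * p)).card / Real.log X|)).card : ℝ) ≤
        ε * X / Real.log X := by
  obtain ⟨η, hη0, hη1, hηε⟩ : ∃ η : ℝ, 0 < η ∧ η ≤ 1 ∧ 4 * η ≤ ε := by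
    refine ⟨min (ε / 4) 1, by positivity, min_le_right _ _, ?_⟩
    have := min_le_left (ε / 4) 1
    linarith
  obtain ⟨X₁, hX₁⟩ := mid_class_bad K η ε hη0 hε
  obtain ⟨X₂, hX₂⟩ := eventually_range K η hη0
  refine ⟨max X₁ (max X₂ 3), ?_⟩
  intro X hX S hS
  have hXa : X₁ ≤ X := le_trans (le_max_left _ _) hX
  have hXb : X₂ ≤ X := le_trans (le_trans (le_max_left _ _) (le_max_right _ _)) hX
  have hXd : 3 ≤ X := le_trans (le_trans (le_max_right _ _) (le_max_right _ _)) hX
  have hXc : 1 ≤ X := by omega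
  have hXr : (1 : ℝ) ≤ X := by exact_mod_cast hXc
  obtain ⟨hL1, hL2, hT1, hT2⟩ := hX₂ X hXb
  have hL0 : 0 < Real.log (X : ℝ) := by linarith
  have hWpos := WX_pos X
  have hphi : (0 : ℝ) < ((WX X).totient : ℝ) := by exact_mod_cast WX_totient_pos X
  have hc1 := one_le_cX X
  have hw := MP6_wX_lt X hXd
  -- the bad p lie in the bad sets of the classes
  have hsub : (Ioc (X / 2) X).filter (fun p => p.Prime ∧
        ε * cX X * max ((SN (WX X) S (2 * p)).card : ℝ) (X / (Real.log X) ^ K) / Real.log X <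
          |(reps S (2 * p) : ℝ) - cX X * (SN (WX X) S (2 * p)).card / Real.log X|) ⊆
      ((range (WX X)).filter (fun a => (WX X).Coprime a)).biUnion
        (fun a => (Ioc (X / 2) X).filter (fun p => p.Prime ∧ p ≡ a [MOD WX X] ∧
        η * cX X * max ((Sa (WX X) S (2 * a)).card : ℝ) (X / (Real.log X) ^ K) <
          |rS S (2 * p) - cX X * (Sa (WX X) S (2 * a)).card|)) := by
    intro p hp
    rw [Finset.mem_filter, Finset.mem_Ioc] at hp
    obtain ⟨⟨hp1, hp2⟩, hpp, hbad⟩ := hp
    have hmod : p ≡ p % WX X [MOD WX X] := (Nat.mod_modEq _ _).symm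
    have hcop : Nat.Coprime p (WX X) := by
      unfold WX
      rw [Nat.Prime.coprime_iff_not_dvd hpp, hpp.dvd_primorial_iff]
      omega
    rw [Finset.mem_biUnion]
    refine ⟨p % WX X, ?_, ?_⟩
    · rw [Finset.mem_filter, Finset.mem_range]
      refine ⟨Nat.mod_lt _ hWpos, ?_⟩
      have h1 : Nat.gcd (p % WX X) (WX X) = Nat.gcd p (WX X) := Nat.ModEq.gcd_eq hmod.symm
      rw [Nat.coprime_comm]
      unfold Nat.Coprime
      rw [h1]
      exact hcop
    rw [Finset.mem_filter, Finset.mem_Ioc]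
    refine ⟨⟨hp1, hp2⟩, hpp, hmod, ?_⟩
    by_contra hgood
    have hgood2 := le_of_not_gt hgood
    have hN1 : X < 2 * p := by omega
    have hN2 : 2 * p ≤ 2 * X := by omega
    have hmod2 : 2 * p ≡ 2 * (p % WX X) [MOD WX X] := hmod.mul_left 2
    rw [SN_eq_Sa S hS hN1 (2 * (p % WX X)) hmod2] at hbad
    set M : ℝ := max ((Sa (WX X) S (2 * (p % WX X))).card : ℝ) (X / (Real.log X) ^ K) with hM
    have hM0 : 0 < M := lt_of_lt_of_le (by positivity) (le_max_right _ _)
    have hconv := conversion (reps S (2 * p) : ℝ) (rS S (2 * p)) (cX X)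
      ((Sa (WX X) S (2 * (p % WX X))).card : ℝ) M (Real.log X) η
      (X / (Real.log X) ^ (K + 2)) (Real.log (X / (Real.log X) ^ (K + 2)))
      hη0 hη1 hc1 hL1 (le_max_left _ _) hM0 hgood2 (rS_nonneg S (2 * p))
      (rS_le S X (2 * p) hXc hN2) (reps_le S (2 * p) _ hT1) (Real.log_pos hT1) hT2
      (by
        have e1 : (X : ℝ) / (Real.log X) ^ K ≤ M := le_max_right _ _
        have e2 : (X : ℝ) / (Real.log X) ^ (K + 2) =
            (X / (Real.log X) ^ K) * (1 / Real.log X) / Real.log X := by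
          rw [pow_add]
          field_simp
        rw [e2]
        have e3 : 1 / Real.log X ≤ η := by
          rw [div_le_iff₀ hL0]
          exact hL2
        have e4 : (X : ℝ) / (Real.log X) ^ K * (1 / Real.log X) ≤ M * η :=
          mul_le_mul e1 e3 (by positivity) hM0.le
        calc (X : ℝ) / (Real.log X) ^ K * (1 / Real.log X) / Real.log X
            ≤ M * η / Real.log X := div_le_div_of_nonneg_right e4 hL0.le
          _ = η * M / Real.log X := by rw [mul_comm M η])
      hL2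
    have h5 : 4 * η * cX X * M / Real.log X ≤ ε * cX X * M / Real.log X := by
      gcongr
    linarith
  have hcard : ((((range (WX X)).filter (fun a => (WX X).Coprime a)).biUnion
        (fun a => (Ioc (X / 2) X).filter (fun p => p.Prime ∧ p ≡ a [MOD WX X] ∧
        η * cX X * max ((Sa (WX X) S (2 * a)).card : ℝ) (X / (Real.log X) ^ K) <
          |rS S (2 * p) - cX X * (Sa (WX X) S (2 * a)).card|))).card : ℝ) ≤
        ε * X / Real.log X := by
    calc ((((range (WX X)).filter (fun a => (WX X).Coprime a)).biUnion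
        (fun a => (Ioc (X / 2) X).filter (fun p => p.Prime ∧ p ≡ a [MOD WX X] ∧
        η * cX X * max ((Sa (WX X) S (2 * a)).card : ℝ) (X / (Real.log X) ^ K) <
          |rS S (2 * p) - cX X * (Sa (WX X) S (2 * a)).card|))).card : ℝ)
        ≤ ((∑ a ∈ (range (WX X)).filter (fun a => (WX X).Coprime a),
          ((Ioc (X / 2) X).filter (fun p => p.Prime ∧ p ≡ a [MOD WX X] ∧
        η * cX X * max ((Sa (WX X) S (2 * a)).card : ℝ) (X / (Real.log X) ^ K) <
          |rS S (2 * p) - cX X * (Sa (WX X) S (2 * a)).card|)).card : ℕ) : ℝ) := by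
          exact_mod_cast Finset.card_biUnion_le
      _ = ∑ a ∈ (range (WX X)).filter (fun a => (WX X).Coprime a),
          (((Ioc (X / 2) X).filter (fun p => p.Prime ∧ p ≡ a [MOD WX X] ∧
        η * cX X * max ((Sa (WX X) S (2 * a)).card : ℝ) (X / (Real.log X) ^ K) <
          |rS S (2 * p) - cX X * (Sa (WX X) S (2 * a)).card|)).card : ℝ) := by
          push_cast
          rfl
      _ ≤ ∑ _a ∈ (range (WX X)).filter (fun a => (WX X).Coprime a),
          ε * (X / ((WX X).totient * Real.log X)) := by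
          refine Finset.sum_le_sum (fun a ha => hX₁ X hXa S hS a ?_)
          rw [Finset.mem_filter] at ha
          exact ha.2.symm
      _ = ε * X / Real.log X := by
          rw [Finset.sum_const, ← Nat.totient_eq_card_coprime, nsmul_eq_mul]
          field_simp
  refine le_trans ?_ hcard
  exact_mod_cast Finset.card_le_card hsub

end Pool.Agent.Lib.SW
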