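import Pool.Agent.Lib.SW.MP.MP2

/-!
# MP-7a: the number of residue classes

`kapW z = ∏_{2 < p ≤ z} (1 - 1/(p-1))`.

`card_mid`: for `b` coprime to `W = primorial z`, the number of reduced classes `a mod W` with `2a - b` coprime
to `W` is `∏_{p ≤ z} #{0 < y < p : p ∤ 2y - b}`: for `p = 2` one class (`y = 1`; `b` is odd), for odd `p` exactly `p - 2`
classes (`2y = b` has exactly one solution, and it is not `0`): CRT (`GT.LA.sum_prod_period`).  Total
`φ(W) kapW z`.
-/

set_option autoImplicit false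

open Finset Pool.Agent.Lib.GT

namespace Pool.Agent.Lib.SW

/-- `∏_{2 < p ≤ z} (1 - 1/(p-1))` -/
noncomputable def kapW (z : ℕ) : ℝ := ∏ p ∈ (Ioc 2 z).filter Nat.Prime, (1 - 1 / ((p : ℝ) - 1))

open Classical in
/-- local factor -/
noncomputable def MP7a_F (b p y : ℕ) : ℝ :=
  if ¬ p ∣ y ∧ ¬ ((p : ℤ) ∣ 2 * (y : ℤ) - b) then 1 else 0

theorem MP7a_dvd (p a b : ℕ) : (p : ℤ) ∣ 2 * ((a % p : ℕ) : ℤ) - b ↔ (p : ℤ) ∣ 2 * (a : ℤ) - b := by
  have h1 : (a : ℤ) = (p : ℤ) * ((a / p : ℕ) : ℤ) + ((a % p : ℕ) : ℤ) := by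
    exact_mod_cast (Nat.div_add_mod a p).symm
  have h2 : 2 * (a : ℤ) - b = (p : ℤ) * (2 * ((a / p : ℕ) : ℤ)) + (2 * ((a % p : ℕ) : ℤ) - b) := by
    conv_lhs => rw [h1]
    ring
  rw [h2]
  exact (dvd_add_right (dvd_mul_right _ _)).symm

theorem MP7a_local_two (b : ℕ) (hb : Odd b) : ∑ y ∈ range 2, MP7a_F b 2 y = 1 := by
  rw [Finset.sum_range_succ, Finset.sum_range_one]
  have h0 : MP7a_F b 2 0 = 0 := by
    unfold MP7a_F
    rw [if_neg]
    rintro ⟨h, -⟩
    exact h (dvd_zero _)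
  have h1 : MP7a_F b 2 1 = 1 := by
    unfold MP7a_F
    rw [if_pos]
    refine ⟨by norm_num, ?_⟩
    obtain ⟨k, hk⟩ := hb
    subst hk
    push_cast
    omega
  rw [h0, h1, zero_add]

theorem MP7a_local (b p : ℕ) (hp : p.Prime) (hp2 : 2 < p) (hb : ¬ p ∣ b) :
    ∑ y ∈ range p, MP7a_F b p y = (p : ℝ) - 2 := by
  have : Fact p.Prime := ⟨hp⟩
  have h2 : (2 : ZMod p) ≠ 0 := by
    intro h
    have h3 : ((2 : ℕ) : ZMod p) = 0 := by exact_mod_cast h
    rw [ZMod.natCast_eq_zero_iff] at h3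
    have := Nat.le_of_dvd (by norm_num) h3
    omega
  have hbz : (b : ZMod p) ≠ 0 := by
    intro h
    rw [ZMod.natCast_eq_zero_iff] at h
    exact hb h
  set y₀ : ℕ := ((b : ZMod p) / 2).val with hy₀
  have hy₀lt : y₀ < p := ZMod.val_lt _
  have hy₀ne : y₀ ≠ 0 := by
    rw [hy₀, Ne, ZMod.val_eq_zero]
    exact div_ne_zero hbz h2
  have hiff : ∀ y ∈ range p, ((p : ℤ) ∣ 2 * (y : ℤ) - b ↔ y = y₀) := by
    intro y hy
    rw [Finset.mem_range] at hy
    rw [← ZMod.intCast_zmod_eq_zero_iff_dvd]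
    push_cast
    rw [sub_eq_zero]
    constructor
    · intro h
      have h3 : (y : ZMod p) = (b : ZMod p) / 2 := by
        rw [eq_div_iff h2, mul_comm]
        exact h
      rw [hy₀, ← h3, ZMod.val_natCast_of_lt hy]
    · intro h
      have h3 : (y : ZMod p) = (b : ZMod p) / 2 := by
        rw [h, hy₀, ZMod.natCast_zmod_val]
      rw [h3, mul_div_cancel₀ _ h2]
  have hF : ∀ y ∈ range p, MP7a_F b p y =
      1 - (if y = 0 then 1 else 0) - (if y = y₀ then 1 else 0) := by
    intro y hy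
    have h3 := hiff y hy
    rw [Finset.mem_range] at hy
    unfold MP7a_F
    by_cases h4 : y = 0
    · subst h4
      rw [if_neg (fun h => h.1 (dvd_zero _)), if_pos rfl, if_neg (Ne.symm hy₀ne)]
      norm_num
    · have h5 : ¬ p ∣ y := fun h => by
        have := Nat.le_of_dvd (Nat.pos_of_ne_zero h4) h
        omega
      by_cases h6 : y = y₀
      · rw [if_neg (fun h => h.2 (h3.mpr h6)), if_neg h4, if_pos h6]
        norm_num
      · rw [if_pos ⟨h5, fun h => h6 (h3.mp h)⟩, if_neg h4, if_neg h6]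
        norm_num
  rw [Finset.sum_congr rfl hF, Finset.sum_sub_distrib, Finset.sum_sub_distrib,
    Finset.sum_ite_eq' (range p) 0, Finset.sum_ite_eq' (range p) y₀,
    if_pos (Finset.mem_range.mpr hp.pos), if_pos (Finset.mem_range.mpr hy₀lt)]
  simp only [Finset.sum_const, card_range, nsmul_eq_mul, mul_one]
  ring

theorem MP7a_totient (z : ℕ) : ((primorial z).totient : ℝ) =
    ∏ p ∈ (range (z + 1)).filter Nat.Prime, ((p : ℝ) - 1) := by
  induction z with
  | zero =>
    rw [Finset.prod_eq_one]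
    · simp
    · intro p hp
      rw [Finset.mem_filter, Finset.mem_range] at hp
      have := hp.2.two_le
      omega
  | succ n ih =>
    rw [Finset.range_add_one (n := n + 1), Finset.filter_insert]
    by_cases hp : (n + 1).Prime
    · have h1 : primorial (n + 1) = (n + 1) * primorial n := by
        unfold primorial
        rw [Finset.range_add_one (n := n + 1), Finset.filter_insert, if_pos hp, Finset.prod_insert]
        simp
      have hco : Nat.Coprime (n + 1) (primorial n) := by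
        rw [Nat.Prime.coprime_iff_not_dvd hp, hp.dvd_primorial_iff]
        omega
      rw [if_pos hp, Finset.prod_insert (by simp), ← ih, h1, Nat.totient_mul hco,
        Nat.totient_prime hp, Nat.add_sub_cancel]
      push_cast
      ring
    · have h1 : primorial (n + 1) = primorial n := by
        unfold primorial
        rw [Finset.range_add_one (n := n + 1), Finset.filter_insert, if_neg hp]
      rw [if_neg hp, h1, ih]

theorem card_mid (z b : ℕ) (hz : 2 ≤ z) (hb : Nat.Coprime b (primorial z)) :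
    (((range (primorial z)).filter (fun a => Nat.Coprime a (primorial z) ∧
      IsCoprime (2 * (a : ℤ) - b) ((primorial z : ℕ) : ℤ))).card : ℝ) =
      ((primorial z).totient : ℝ) * kapW z := by
  classical
  set Q : Finset ℕ := (range (z + 1)).filter Nat.Prime with hQ
  have hQP : ∀ p ∈ Q, p.Prime := fun p hp => (Finset.mem_filter.mp hp).2
  have hW : primorial z = ∏ p ∈ Q, p := rfl
  have hbQ : ∀ p ∈ Q, ¬ p ∣ b := by
    intro p hp hd
    have h1 : p ∣ primorial z := by
      rw [hW]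
      exact Finset.dvd_prod_of_mem (fun p => p) hp
    exact Nat.not_coprime_of_dvd_of_dvd (hQP p hp).one_lt hd h1 hb
  have hind : ∀ a : ℕ, (if Nat.Coprime a (primorial z) ∧
      IsCoprime (2 * (a : ℤ) - b) ((primorial z : ℕ) : ℤ) then (1 : ℝ) else 0) =
      ∏ p ∈ Q, MP7a_F b p (a % p) := by
    intro a
    have h1 : Nat.Coprime a (primorial z) ↔ ∀ p ∈ Q, ¬ p ∣ a % p := by
      rw [hW, Nat.coprime_prod_right_iff]
      refine forall₂_congr fun p hp => ?_
      rw [Nat.coprime_comm, (hQP p hp).coprime_iff_not_dvd, Nat.dvd_mod_iff dvd_rfl]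
    have h2 : IsCoprime (2 * (a : ℤ) - b) ((primorial z : ℕ) : ℤ) ↔
        ∀ p ∈ Q, ¬ (p : ℤ) ∣ 2 * ((a % p : ℕ) : ℤ) - b := by
      rw [hW, Nat.cast_prod, IsCoprime.prod_right_iff]
      refine forall₂_congr fun p hp => ?_
      rw [isCoprime_comm,
        (Nat.prime_iff_prime_int.mp (hQP p hp)).irreducible.coprime_iff_not_dvd, MP7a_dvd]
    by_cases h3 : ∀ p ∈ Q, ¬ p ∣ a % p ∧ ¬ (p : ℤ) ∣ 2 * ((a % p : ℕ) : ℤ) - b
    · rw [if_pos ⟨h1.mpr fun p hp => (h3 p hp).1, h2.mpr fun p hp => (h3 p hp).2⟩]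
      refine (Finset.prod_eq_one fun p hp => ?_).symm
      unfold MP7a_F
      rw [if_pos (h3 p hp)]
    · rw [if_neg]
      · push Not at h3
        obtain ⟨p, hp, h4⟩ := h3
        refine (Finset.prod_eq_zero hp ?_).symm
        unfold MP7a_F
        rw [if_neg]
        rintro ⟨h5, h6⟩
        exact h6 (h4 h5)
      · rintro ⟨h4, h5⟩
        exact h3 fun p hp => ⟨h1.mp h4 p hp, h2.mp h5 p hp⟩
  have hcard : (((range (primorial z)).filter (fun a => Nat.Coprime a (primorial z) ∧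
      IsCoprime (2 * (a : ℤ) - b) ((primorial z : ℕ) : ℤ))).card : ℝ) =
      ∑ a ∈ range (primorial z), (if Nat.Coprime a (primorial z) ∧
      IsCoprime (2 * (a : ℤ) - b) ((primorial z : ℕ) : ℤ) then (1 : ℝ) else 0) := by
    rw [Finset.sum_boole]
  rw [hcard, Finset.sum_congr rfl fun a _ => hind a]
  have h7 := GT.LA.sum_prod_period Q hQP (MP7a_F b)
  rw [← hW] at h7
  rw [h7, MP7a_totient, ← hQ]
  have h2Q : 2 ∈ Q := by
    rw [hQ, Finset.mem_filter, Finset.mem_range]
    exact ⟨by omega, Nat.prime_two⟩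
  have hbodd : Odd b := by
    rw [← Nat.not_even_iff_odd, even_iff_two_dvd]
    exact hbQ 2 h2Q
  have hker : kapW z = ∏ p ∈ Q.erase 2, (1 - 1 / ((p : ℝ) - 1)) := by
    unfold kapW
    refine Finset.prod_congr ?_ fun _ _ => rfl
    ext p
    rw [Finset.mem_filter, Finset.mem_Ioc, Finset.mem_erase, hQ, Finset.mem_filter,
      Finset.mem_range]
    constructor
    · rintro ⟨⟨h8, h9⟩, h10⟩
      exact ⟨by omega, by omega, h10⟩
    · rintro ⟨h8, h9, h10⟩
      have := h10.two_le
      exact ⟨⟨by omega, by omega⟩, h10⟩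
  rw [hker, ← Finset.mul_prod_erase Q _ h2Q, ← Finset.mul_prod_erase Q _ h2Q,
    MP7a_local_two b hbodd, mul_assoc, ← Finset.prod_mul_distrib]
  have h8 : (((2 : ℕ) : ℝ) - 1) = 1 := by norm_num
  rw [h8]
  congr 1
  refine Finset.prod_congr rfl fun p hp => ?_
  rw [Finset.mem_erase] at hp
  have hpp := hQP p hp.2
  have hp3 : 2 < p := by
    have := hpp.two_le
    have := hp.1
    omega
  rw [MP7a_local b p hpp hp3 (hbQ p hp.2)]
  have h9 : (2 : ℝ) < p := by exact_mod_cast hp3
  have h10 : (p : ℝ) - 1 ≠ 0 := by linarith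
  field_simp
  ring

theorem MP7a_factor (p : ℕ) (hp : 2 < p) : 0 < 1 - 1 / ((p : ℝ) - 1) ∧
    1 - 1 / ((p : ℝ) - 1) ≤ 1 := by
  have h1 : (2 : ℝ) < p := by exact_mod_cast hp
  constructor
  · rw [sub_pos, div_lt_one (by linarith)]
    linarith
  · have : 0 ≤ 1 / ((p : ℝ) - 1) := by
      apply div_nonneg (by norm_num)
      linarith
    linarith

theorem kapW_ge (z : ℕ) (hz : 2 ≤ z) : 1 / (z : ℝ) ≤ kapW z := by
  -- telescoping product over all integers
  have hstep : ∀ z : ℕ, 2 ≤ z → 1 / ((z : ℝ) - 1) ≤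
      ∏ p ∈ (Ioc 2 z).filter Nat.Prime, (1 - 1 / ((p : ℝ) - 1)) := by
    intro z hz
    induction z, hz using Nat.le_induction with
    | base =>
      rw [Finset.Ioc_self, Finset.filter_empty, Finset.prod_empty]
      norm_num
    | succ n hn ih =>
      have hn2 : (2 : ℝ) ≤ n := by exact_mod_cast hn
      have h1 : Ioc 2 (n + 1) = insert (n + 1) (Ioc 2 n) := by
        ext x
        simp only [Finset.mem_insert, Finset.mem_Ioc]
        omega
      have hpos : 0 < ∏ p ∈ (Ioc 2 n).filter Nat.Prime, (1 - 1 / ((p : ℝ) - 1)) := by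
        refine Finset.prod_pos fun p hp => ?_
        rw [Finset.mem_filter, Finset.mem_Ioc] at hp
        exact (MP7a_factor p hp.1.1).1
      have h2 : 1 / (((n + 1 : ℕ) : ℝ) - 1) = (1 - 1 / (n : ℝ)) * (1 / ((n : ℝ) - 1)) := by
        have h3 : (n : ℝ) ≠ 0 := by linarith
        have h4 : (n : ℝ) - 1 ≠ 0 := by linarith
        push_cast
        rw [add_sub_cancel_right]
        field_simp
      have h5 : 0 ≤ 1 - 1 / (n : ℝ) := by
        rw [sub_nonneg, div_le_one (by linarith)]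
        linarith
      have h6 : 1 - 1 / (n : ℝ) ≤ 1 := by
        have : 0 ≤ 1 / (n : ℝ) := by positivity
        linarith
      rw [h1, Finset.filter_insert, h2]
      by_cases hp : (n + 1).Prime
      · rw [if_pos hp, Finset.prod_insert (by simp)]
        have h7 : (1 - 1 / (((n + 1 : ℕ) : ℝ) - 1)) = 1 - 1 / (n : ℝ) := by
          push_cast
          rw [add_sub_cancel_right]
        rw [h7]
        exact mul_le_mul_of_nonneg_left ih h5
      · rw [if_neg hp]
        calc (1 - 1 / (n : ℝ)) * (1 / ((n : ℝ) - 1)) ≤ 1 * (1 / ((n : ℝ) - 1)) := by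
              refine mul_le_mul_of_nonneg_right h6 ?_
              apply div_nonneg (by norm_num)
              linarith
          _ = 1 / ((n : ℝ) - 1) := one_mul _
          _ ≤ _ := ih
  have hz2 : (2 : ℝ) ≤ z := by exact_mod_cast hz
  refine le_trans ?_ (hstep z hz)
  exact one_div_le_one_div_of_le (by linarith) (by linarith)

theorem kapW_anti {y z : ℕ} (h : y ≤ z) : kapW z ≤ kapW y := by
  unfold kapW
  have hsub : (Ioc 2 y).filter Nat.Prime ⊆ (Ioc 2 z).filter Nat.Prime :=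
    Finset.filter_subset_filter _ (Finset.Ioc_subset_Ioc_right h)
  rw [← Finset.prod_sdiff hsub]
  have h1 : ∏ p ∈ (Ioc 2 z).filter Nat.Prime \ (Ioc 2 y).filter Nat.Prime,
      (1 - 1 / ((p : ℝ) - 1)) ≤ 1 := by
    refine Finset.prod_le_one (fun p hp => ?_) fun p hp => ?_
    · rw [Finset.mem_sdiff, Finset.mem_filter, Finset.mem_Ioc] at hp
      exact (MP7a_factor p hp.1.1.1).1.le
    · rw [Finset.mem_sdiff, Finset.mem_filter, Finset.mem_Ioc] at hp
      exact (MP7a_factor p hp.1.1.1).2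
  have h2 : 0 ≤ ∏ p ∈ (Ioc 2 y).filter Nat.Prime, (1 - 1 / ((p : ℝ) - 1)) := by
    refine Finset.prod_nonneg fun p hp => ?_
    rw [Finset.mem_filter, Finset.mem_Ioc] at hp
    exact (MP7a_factor p hp.1.1).1.le
  calc _ ≤ 1 * ∏ p ∈ (Ioc 2 y).filter Nat.Prime, (1 - 1 / ((p : ℝ) - 1)) :=
        mul_le_mul_of_nonneg_right h1 h2
    _ = _ := one_mul _

end Pool.Agent.Lib.SW
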