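import Pool.Agent.Lib.SW.MP.MP7a
import Pool.Agent.Lib.SW.MP.MP6
import Pool.Agent.Lib.SW.LG2
import Pool.Agent.Lib.SW.MP.MP1

/-!
# MP-7b: one dyadic interval

See the head comment of `MP7a`.
-/

set_option autoImplicit false

open Finset Pool.Agent.Lib.GT

namespace Pool.Agent.Lib.SW

/-- exchange of the sums -/
theorem MP7b_exchange (z : ℕ) (hz : 2 ≤ z) (S : Finset ℕ) (hS : ∀ s ∈ S, s.Prime ∧ z < s) :
    ∑ a ∈ (range (primorial z)).filter (fun a => Nat.Coprime a (primorial z)),
      ((Sa (primorial z) S (2 * a)).card : ℝ) =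
      (S.card : ℝ) * (((primorial z).totient : ℝ) * kapW z) := by
  have h1 : ∀ a ∈ (range (primorial z)).filter (fun a => Nat.Coprime a (primorial z)),
      ((Sa (primorial z) S (2 * a)).card : ℝ) =
      ∑ s ∈ S, (if IsCoprime (2 * (a : ℤ) - s) ((primorial z : ℕ) : ℤ) then (1 : ℝ) else 0) := by
    intro a _
    unfold Sa
    rw [Finset.card_filter]
    push_cast
    rfl
  rw [Finset.sum_congr rfl h1, Finset.sum_comm]
  have h2 : ∀ s ∈ S, ∑ a ∈ (range (primorial z)).filter (fun a => Nat.Coprime a (primorial z)),
      (if IsCoprime (2 * (a : ℤ) - s) ((primorial z : ℕ) : ℤ) then (1 : ℝ) else 0) =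
      ((primorial z).totient : ℝ) * kapW z := by
    intro s hs
    have hco : Nat.Coprime s (primorial z) := by
      rw [Nat.Prime.coprime_iff_not_dvd (hS s hs).1, (hS s hs).1.dvd_primorial_iff]
      have := (hS s hs).2
      omega
    rw [← card_mid z s hz hco, Finset.sum_boole, Finset.filter_filter]
  rw [Finset.sum_congr rfl h2, Finset.sum_const, nsmul_eq_mul]

theorem MP7b_card_R (W : ℕ) :
    ((range W).filter (fun a => Nat.Coprime a W)).card = W.totient := by
  rw [Nat.totient_eq_card_coprime]
  congr 1
  apply Finset.filter_congr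
  intro a _
  exact Nat.coprime_comm

/-- primes in one reduced class -/
theorem MP7b_class (X W a : ℕ) (hX : 1 ≤ X) (haW : a < W) (ha : Nat.Coprime a W) (E : ℝ)
    (h : ∀ F : ℕ → ℝ, (∀ n, F (n + W) = F n) → (∀ n, |F n| ≤ 1) →
      |∑ p ∈ Ioc (X / 2) X, lam p * F p -
        (X / 2 : ℝ) / (W.totient : ℝ) * ∑ x ∈ (range W).filter (fun x => Nat.Coprime x W), F x| ≤ E) :
    (X / 2 : ℝ) / (W.totient : ℝ) - E ≤
      Real.log X * (((Ioc (X / 2) X).filter (fun p => p.Prime ∧ p ≡ a [MOD W])).card : ℝ) := by
  have hXr : (1 : ℝ) ≤ X := by exact_mod_cast hX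
  have h1 := h (fun n => if n % W = a then 1 else 0) (by
    intro n
    simp) (by
    intro n
    by_cases hn : n % W = a
    · simp [hn]
    · simp [hn])
  have h2 : ∑ x ∈ (range W).filter (fun x => Nat.Coprime x W), (if x % W = a then (1 : ℝ) else 0) = 1 := by
    rw [Finset.sum_eq_single a]
    · rw [Nat.mod_eq_of_lt haW, if_pos rfl]
    · intro b hb hba
      rw [Finset.mem_filter, Finset.mem_range] at hb
      rw [Nat.mod_eq_of_lt hb.1, if_neg hba]
    · intro hna
      exfalso
      apply hna
      rw [Finset.mem_filter, Finset.mem_range]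
      exact ⟨haW, ha⟩
  have h1' : |∑ p ∈ Ioc (X / 2) X, lam p * (if p % W = a then (1 : ℝ) else 0) -
        (X / 2 : ℝ) / (W.totient : ℝ) *
          ∑ x ∈ (range W).filter (fun x => Nat.Coprime x W), (if x % W = a then (1 : ℝ) else 0)| ≤ E := h1
  rw [h2, mul_one] at h1'
  have h3 : ∑ p ∈ Ioc (X / 2) X, lam p * (if p % W = a then (1 : ℝ) else 0) ≤
      Real.log X * (((Ioc (X / 2) X).filter (fun p => p.Prime ∧ p ≡ a [MOD W])).card : ℝ) := by
    rw [mul_comm (Real.log X), ← nsmul_eq_mul, ← Finset.sum_const, Finset.sum_filter]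
    apply Finset.sum_le_sum
    intro p hp
    rw [Finset.mem_Ioc] at hp
    by_cases hpp : p.Prime
    · by_cases hpa : p % W = a
      · have hpa' : p ≡ a [MOD W] := by
          unfold Nat.ModEq
          rw [hpa, Nat.mod_eq_of_lt haW]
        rw [if_pos hpa, if_pos ⟨hpp, hpa'⟩, mul_one]
        unfold lam
        rw [if_pos hpp]
        exact Real.log_le_log (by exact_mod_cast hpp.pos) (by exact_mod_cast hp.2)
      · rw [if_neg hpa, mul_zero]
        split_ifs
        · exact Real.log_nonneg hXr
        · exact le_refl _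
    · unfold lam
      rw [if_neg hpp, zero_mul]
      split_ifs
      · exact Real.log_nonneg hXr
      · exact le_refl _
  have h4 := (abs_le.mp h1').1
  linarith

theorem mid_many (K : ℕ) (ε : ℝ) (hε : 0 < ε) :
    ∃ X₀ : ℕ, ∀ X : ℕ, X₀ ≤ X → ∀ S : Finset ℕ, S ⊆ Icc 1 X → (∀ s ∈ S, s.Prime) →
      X / (Real.log X) ^ K ≤ (S.card : ℝ) →
      (1 - ε) * kapW (wX X) * (X / 2) / Real.log X ≤
        (((Ioc (X / 2) X).filter (fun p => p.Prime ∧
          X / (Real.log X) ^ (K + 5) ≤ (reps S (2 * p) : ℝ))).card : ℝ) := by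
  obtain ⟨X₁, hX₁⟩ := mid_class_bad (K + 3) (1 / 2) (ε / 16) (by norm_num) (by positivity)
  obtain ⟨X₂, hX₂⟩ := cX_le_log
  obtain ⟨X₄, hX₄⟩ := prime_corr 2 4
  obtain ⟨X₃, hX₃⟩ := Filter.eventually_atTop.mp
    ((eventually_log_ge (max 8 (16 / ε))).and (eventually_log_pow (K + 1) (1 / 2) (by norm_num)))
  refine ⟨max (max X₁ X₂) (max (max X₃ X₄) 1), ?_⟩
  intro X hX S hS hSp hcard
  have hXa : X₁ ≤ X := le_trans (le_trans (le_max_left _ _) (le_max_left _ _)) hX
  have hXb : X₂ ≤ X := le_trans (le_trans (le_max_right _ _) (le_max_left _ _)) hX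
  have hXc : X₃ ≤ X := le_trans (le_trans (le_max_left _ _)
    (le_trans (le_max_left _ _) (le_max_right _ _))) hX
  have hXe : X₄ ≤ X := le_trans (le_trans (le_max_right _ _)
    (le_trans (le_max_left _ _) (le_max_right _ _))) hX
  have hXd : 1 ≤ X := le_trans (le_trans (le_max_right _ _) (le_max_right _ _)) hX
  have hXpos : (0 : ℝ) < X := by exact_mod_cast hXd
  obtain ⟨hL, hL2⟩ := hX₃ X hXc
  obtain ⟨hcL, hWL⟩ := hX₂ X hXb
  have hL8 : 8 ≤ Real.log (X : ℝ) := le_trans (le_max_left _ _) hL
  have hLε : 16 / ε ≤ Real.log (X : ℝ) := le_trans (le_max_right _ _) hL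
  have hcorr := hX₄ X hXe (WX X) (WX_pos X) hWL
  set L : ℝ := Real.log (X : ℝ) with hLdef
  have hL0 : 0 < L := by linarith
  have hWpos := WX_pos X
  have hφpos := WX_totient_pos X
  have hc1 := one_le_cX X
  have hw2 : 2 ≤ wX X := by
    unfold wX
    apply Nat.le_floor
    rw [← hLdef]
    have e1 : Real.exp 2 ≤ 8 := by
      have h7 : Real.exp 2 = Real.exp 1 * Real.exp 1 := by
        rw [← Real.exp_add]; norm_num
      have h8 := Real.exp_one_lt_d9
      have h9 := Real.exp_pos 1
      rw [h7]
      nlinarith
    have e2 : Real.log (Real.exp 2) ≤ Real.log L :=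
      Real.log_le_log (Real.exp_pos _) (le_trans e1 hL8)
    rw [Real.log_exp] at e2
    exact_mod_cast e2
  have hwL : (wX X : ℝ) ≤ L := by
    have e1 : (wX X : ℝ) ≤ Real.log L := by
      unfold wX
      exact Nat.floor_le (Real.log_nonneg (by linarith))
    have e2 := Real.log_le_sub_one_of_pos hL0
    linarith
  have hκ1 : kapW (wX X) ≤ 1 := by
    have h1 := kapW_anti hw2
    have h2 : kapW 2 = 1 := by
      unfold kapW
      simp
    rw [h2] at h1
    exact h1
  have hκL : 1 / L ≤ kapW (wX X) := by
    have h1 := kapW_ge (wX X) hw2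
    have h2 : (0 : ℝ) < wX X := by
      have : (2 : ℝ) ≤ wX X := by exact_mod_cast hw2
      linarith
    exact le_trans (one_div_le_one_div_of_le h2 hwL) h1
  have hκ0 : 0 < kapW (wX X) := lt_of_lt_of_le (by positivity) hκL
  set κ : ℝ := kapW (wX X) with hκ
  by_cases hε1 : 1 ≤ ε
  · have h1 : (1 - ε) * κ * (X / 2) / L ≤ 0 := by
      apply div_nonpos_of_nonpos_of_nonneg _ hL0.le
      apply mul_nonpos_of_nonpos_of_nonneg _ (by positivity)
      exact mul_nonpos_of_nonpos_of_nonneg (by linarith) hκ0.le
    exact le_trans h1 (by positivity)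
  · have hε2 : ε < 1 := lt_of_not_ge hε1
    set S' := S.filter (fun s => wX X < s) with hS'
    have hS'p : ∀ s ∈ S', s.Prime ∧ wX X < s := by
      intro s hs
      rw [hS', Finset.mem_filter] at hs
      exact ⟨hSp s hs.1, hs.2⟩
    have hS'S : S' ⊆ S := Finset.filter_subset _ _
    have hS'card : (S.card : ℝ) / 2 ≤ (S'.card : ℝ) := by
      have h1 : S.card ≤ S'.card + wX X := by
        have h2 : S ⊆ S' ∪ Icc 1 (wX X) := by
          intro s hs
          rw [Finset.mem_union]
          by_cases h : wX X < s
          · left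
            rw [hS', Finset.mem_filter]
            exact ⟨hs, h⟩
          · right
            rw [Finset.mem_Icc]
            exact ⟨(hSp s hs).one_le, by omega⟩
        have h3 := le_trans (Finset.card_le_card h2) (Finset.card_union_le _ _)
        rw [Nat.card_Icc] at h3
        omega
      have h1' : (S.card : ℝ) ≤ S'.card + wX X := by exact_mod_cast h1
      have h4 : 2 * L ≤ X / L ^ K := by
        rw [le_div_iff₀ (by positivity)]
        have : 2 * L * L ^ K = 2 * L ^ (K + 1) := by rw [pow_succ]; ring
        rw [this]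
        linarith
      linarith
    have hScard : 0 < (S.card : ℝ) := lt_of_lt_of_le (by positivity) hcard
    have hS'0 : 0 < (S'.card : ℝ) := by linarith
    set R := (range (WX X)).filter (fun a => Nat.Coprime a (WX X)) with hR
    have hRcard : (R.card : ℝ) = ((WX X).totient : ℝ) := by
      rw [hR, MP7b_card_R]
    have hex : ∑ a ∈ R, ((Sa (WX X) S' (2 * a)).card : ℝ) =
        (S'.card : ℝ) * (((WX X).totient : ℝ) * κ) := MP7b_exchange (wX X) hw2 S' hS'p
    set W : ℕ := WX X with hW
    have hWr : (0 : ℝ) < W := by exact_mod_cast hWpos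
    have hφr : (0 : ℝ) < W.totient := by exact_mod_cast hφpos
    have hφW : (W.totient : ℝ) ≤ L ^ 2 := le_trans (by exact_mod_cast Nat.totient_le W) hWL
    set θ : ℝ := ε / 4 * κ with hθ
    have hθ0 : 0 < θ := by positivity
    set U := R.filter (fun a => θ * S'.card ≤ ((Sa W S' (2 * a)).card : ℝ)) with hU
    have hUcard : (1 - ε / 4) * κ * W.totient ≤ (U.card : ℝ) := by
      have h2 : ∑ a ∈ R, ((Sa W S' (2 * a)).card : ℝ) ≤
          (U.card : ℝ) * S'.card + W.totient * (θ * S'.card) := by
        rw [← Finset.sum_filter_add_sum_filter_not R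
          (fun a => θ * S'.card ≤ ((Sa W S' (2 * a)).card : ℝ))]
        apply add_le_add
        · calc ∑ a ∈ U, ((Sa W S' (2 * a)).card : ℝ) ≤ ∑ _a ∈ U, (S'.card : ℝ) := by
                apply Finset.sum_le_sum
                intro a _
                exact_mod_cast Finset.card_le_card (Finset.filter_subset _ _)
            _ = (U.card : ℝ) * S'.card := by rw [Finset.sum_const, nsmul_eq_mul]
        · calc ∑ a ∈ R.filter (fun a => ¬ θ * S'.card ≤ ((Sa W S' (2 * a)).card : ℝ)),
                ((Sa W S' (2 * a)).card : ℝ)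
              ≤ ∑ _a ∈ R.filter (fun a => ¬ θ * S'.card ≤ ((Sa W S' (2 * a)).card : ℝ)),
                θ * S'.card := by
                apply Finset.sum_le_sum
                intro a ha
                rw [Finset.mem_filter] at ha
                exact (lt_of_not_ge ha.2).le
            _ ≤ ∑ _a ∈ R, θ * S'.card := by
                apply Finset.sum_le_sum_of_subset_of_nonneg (Finset.filter_subset _ _)
                intro _ _ _
                positivity
            _ = W.totient * (θ * S'.card) := by
                rw [Finset.sum_const, nsmul_eq_mul, hRcard]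
      rw [hex] at h2
      have h5 : (S'.card : ℝ) * ((1 - ε / 4) * κ * W.totient) ≤ (S'.card : ℝ) * U.card := by
        have e1 : (S'.card : ℝ) * ((1 - ε / 4) * κ * W.totient) =
            (S'.card : ℝ) * ((W.totient : ℝ) * κ) - W.totient * (θ * S'.card) := by
          rw [hθ]; ring
        rw [e1]
        linarith
      exact le_of_mul_le_mul_left h5 hS'0
    set T : Finset ℕ := (Ioc (X / 2) X).filter (fun p => p.Prime ∧
      X / L ^ (K + 5) ≤ (reps S (2 * p) : ℝ)) with hT
    have hclass : ∀ a ∈ U, (1 - ε / 4) * ((X / 2) / (W.totient * L)) ≤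
        ((T.filter (fun p => p % W = a)).card : ℝ) := by
      intro a ha
      rw [hU, Finset.mem_filter, hR, Finset.mem_filter, Finset.mem_range] at ha
      obtain ⟨⟨haW, haco⟩, haθ⟩ := ha
      have hamod : a % W = a := Nat.mod_eq_of_lt haW
      have hSabig : X / L ^ (K + 3) ≤ ((Sa W S (2 * a)).card : ℝ) := by
        have e1 : ((Sa W S' (2 * a)).card : ℝ) ≤ ((Sa W S (2 * a)).card : ℝ) := by
          have : Sa W S' (2 * a) ⊆ Sa W S (2 * a) := by
            unfold Sa
            exact Finset.filter_subset_filter _ hS'S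
          exact_mod_cast Finset.card_le_card this
        have e2 : X / L ^ (K + 3) ≤ θ * S'.card := by
          have e3 : ε / 8 * (1 / L) * (X / L ^ K) ≤ θ * S'.card := by
            calc ε / 8 * (1 / L) * (X / L ^ K) ≤ ε / 8 * κ * (S.card : ℝ) := by gcongr
              _ = ε / 4 * κ * ((S.card : ℝ) / 2) := by ring
              _ ≤ ε / 4 * κ * (S'.card : ℝ) := by gcongr
          have e4 : X / L ^ (K + 3) = 1 / L * (1 / L) * (1 / L) * (X / L ^ K) := by
            rw [pow_add]
            field_simp
          have e5 : 1 / L ≤ ε / 8 := by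
            rw [div_le_div_iff₀ hL0 (by norm_num)]
            rw [div_le_iff₀ hε] at hLε
            linarith
          have e6 : 1 / L ≤ 1 := by
            rw [div_le_one hL0]
            linarith
          have e7 : 1 / L * (1 / L) * (1 / L) * (X / L ^ K) ≤ ε / 8 * (1 / L) * (X / L ^ K) := by
            apply mul_le_mul_of_nonneg_right _ (by positivity)
            calc 1 / L * (1 / L) * (1 / L) ≤ ε / 8 * (1 / L) * 1 := by gcongr
              _ = ε / 8 * (1 / L) := by ring
          rw [e4]
          linarith
        linarith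
      have hbad := hX₁ X hXa S hS a haco
      have hmax : max ((Sa W S (2 * a)).card : ℝ) (X / L ^ (K + 3)) = (Sa W S (2 * a)).card :=
        max_eq_left hSabig
      rw [← hLdef, ← hW, hmax] at hbad
      set c : ℝ := cX X with hc
      set B := (Ioc (X / 2) X).filter (fun p => p.Prime ∧ p ≡ a [MOD W] ∧
        1 / 2 * c * ((Sa W S (2 * a)).card : ℝ) < |rS S (2 * p) - c * (Sa W S (2 * a)).card|) with hB
      have hcl := MP7b_class X W a hXd haW haco (X / L ^ 4) hcorr
      rw [← hLdef] at hcl
      have hsub : (Ioc (X / 2) X).filter (fun p => p.Prime ∧ p ≡ a [MOD W]) ⊆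
          B ∪ T.filter (fun p => p % W = a) := by
        intro p hp
        rw [Finset.mem_filter] at hp
        rw [Finset.mem_union]
        by_cases hb : 1 / 2 * c * ((Sa W S (2 * a)).card : ℝ) <
            |rS S (2 * p) - c * (Sa W S (2 * a)).card|
        · left
          rw [hB, Finset.mem_filter]
          exact ⟨hp.1, hp.2.1, hp.2.2, hb⟩
        · right
          rw [Finset.mem_filter, hT, Finset.mem_filter]
          refine ⟨⟨hp.1, hp.2.1, ?_⟩, ?_⟩
          · have h1 := (abs_le.mp (le_of_not_gt hb)).1
            have h2 : 1 / 2 * (X / L ^ (K + 3)) ≤ rS S (2 * p) := by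
              have e1 : X / L ^ (K + 3) ≤ c * ((Sa W S (2 * a)).card : ℝ) := by
                calc X / L ^ (K + 3) ≤ 1 * ((Sa W S (2 * a)).card : ℝ) := by
                      rw [one_mul]; exact hSabig
                  _ ≤ c * ((Sa W S (2 * a)).card : ℝ) := by gcongr
              linarith
            have h3 := rS_le S X (2 * p) hXd (by
              have := (Finset.mem_Ioc.mp hp.1).2
              omega)
            rw [← hLdef] at h3
            have h4 : Real.log 2 ≤ L := by
              have := Real.log_two_lt_d9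
              linarith
            have h5 : rS S (2 * p) ≤ 2 * L * reps S (2 * p) := by
              calc rS S (2 * p) ≤ (L + Real.log 2) * reps S (2 * p) := h3
                _ ≤ (2 * L) * reps S (2 * p) := by gcongr; linarith
            have h6 : X / L ^ (K + 5) * (4 * L) ≤ X / L ^ (K + 3) := by
              have e1 : X / L ^ (K + 5) * (4 * L) = X / L ^ (K + 3) * (4 / L) := by
                rw [show K + 5 = (K + 3) + 2 by ring, pow_add L (K + 3) 2]
                field_simp
              rw [e1]
              have e2 : 4 / L ≤ 1 := by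
                rw [div_le_one hL0]; linarith
              have e3 : 0 ≤ X / L ^ (K + 3) := by positivity
              nlinarith
            have h7 : X / L ^ (K + 5) * (4 * L) ≤ reps S (2 * p) * (4 * L) := by
              linarith
            exact le_of_mul_le_mul_right h7 (by positivity)
          · have := hp.2.2
            unfold Nat.ModEq at this
            rw [this, hamod]
      have hcount : (((Ioc (X / 2) X).filter (fun p => p.Prime ∧ p ≡ a [MOD W])).card : ℝ) ≤
          (B.card : ℝ) + ((T.filter (fun p => p % W = a)).card : ℝ) := by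
        exact_mod_cast le_trans (Finset.card_le_card hsub) (Finset.card_union_le _ _)
      have hE : (X : ℝ) / L ^ 4 ≤ ε / 16 * (X / W.totient) := by
        have e1 : (W.totient : ℝ) ≤ ε / 16 * L ^ 4 := by
          have e2 : 1 ≤ ε / 16 * L := by
            rw [div_le_iff₀ hε] at hLε
            linarith
          have e3 : (1 : ℝ) ≤ L := by linarith
          have e5 : L ^ 2 * 1 ≤ L ^ 2 * (ε / 16 * L * L) := by
            apply mul_le_mul_of_nonneg_left _ (by positivity)
            nlinarith
          calc (W.totient : ℝ) ≤ L ^ 2 := hφW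
            _ = L ^ 2 * 1 := by ring
            _ ≤ L ^ 2 * (ε / 16 * L * L) := e5
            _ = ε / 16 * L ^ 4 := by ring
        rw [div_le_iff₀ (by positivity)]
        have e4 : ε / 16 * ((X : ℝ) / W.totient) * L ^ 4 = (ε / 16 * L ^ 4) / W.totient * X := by
          field_simp
        rw [e4]
        have e6 : 1 ≤ (ε / 16 * L ^ 4) / W.totient := by
          rw [one_le_div hφr]
          exact e1
        nlinarith
      -- put together
      have hfin : ((X / 2 : ℝ) / W.totient - ε / 16 * (X / W.totient)) / L - ε / 16 * (X / (W.totient * L)) ≤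
          ((T.filter (fun p => p % W = a)).card : ℝ) := by
        have e1 : ((X / 2 : ℝ) / W.totient - ε / 16 * (X / W.totient)) / L ≤
            (((Ioc (X / 2) X).filter (fun p => p.Prime ∧ p ≡ a [MOD W])).card : ℝ) := by
          rw [div_le_iff₀ hL0]
          linarith
        linarith
      have hid : ((X / 2 : ℝ) / W.totient - ε / 16 * (X / W.totient)) / L - ε / 16 * (X / (W.totient * L)) =
          (1 - ε / 4) * ((X / 2) / (W.totient * L)) := by
        field_simp
        ring
      rw [hid] at hfin
      exact hfin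
    have hsum : ∑ a ∈ U, ((T.filter (fun p => p % W = a)).card : ℝ) ≤ (T.card : ℝ) := by
      have h1 : ∑ a ∈ U, (T.filter (fun p => p % W = a)).card =
          (U.biUnion (fun a => T.filter (fun p => p % W = a))).card := by
        rw [Finset.card_biUnion]
        intro a _ b _ hab
        rw [Function.onFun, Finset.disjoint_left]
        intro N hN hN2
        rw [Finset.mem_filter] at hN hN2
        exact hab (hN.2.symm.trans hN2.2)
      have h2 : (U.biUnion (fun a => T.filter (fun p => p % W = a))).card ≤ T.card := by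
        apply Finset.card_le_card
        intro N hN
        rw [Finset.mem_biUnion] at hN
        obtain ⟨a, _, ha⟩ := hN
        exact (Finset.mem_filter.mp ha).1
      rw [← h1] at h2
      exact_mod_cast h2
    calc (1 - ε) * κ * (X / 2) / L ≤ ((1 - ε / 4) * (1 - ε / 4)) * κ * (X / 2) / L := by
          have e1 : (1 - ε) ≤ (1 - ε / 4) * (1 - ε / 4) := by nlinarith
          gcongr
      _ = ((1 - ε / 4) * κ * W.totient) * ((1 - ε / 4) * ((X / 2) / (W.totient * L))) := by
          field_simp
      _ ≤ (U.card : ℝ) * ((1 - ε / 4) * ((X / 2) / (W.totient * L))) := by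
          apply mul_le_mul_of_nonneg_right hUcard
          have : 0 ≤ 1 - ε / 4 := by linarith
          positivity
      _ = ∑ _a ∈ U, (1 - ε / 4) * ((X / 2) / (W.totient * L)) := by
          rw [Finset.sum_const, nsmul_eq_mul]
      _ ≤ ∑ a ∈ U, ((T.filter (fun p => p % W = a)).card : ℝ) := Finset.sum_le_sum hclass
      _ ≤ (T.card : ℝ) := hsum

end Pool.Agent.Lib.SW
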