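import Pool.Agent.Lib.SW.MP.MP7b

/-!
# MP-7c: all primes up to X

See the head comment of `MP7a`.
-/

set_option autoImplicit false

open Finset Pool.Agent.Lib.GT

namespace Pool.Agent.Lib.SW

theorem MP7c_nonneg (z : ℕ) : 0 ≤ kapW z := by
  unfold kapW
  refine Finset.prod_nonneg fun p hp => ?_
  rw [Finset.mem_filter, Finset.mem_Ioc] at hp
  exact (MP7a_factor p hp.1.1).1.le

theorem mid_lower (K : ℕ) (ε : ℝ) (hε : 0 < ε) :
    ∃ X₀ : ℕ, ∀ X : ℕ, X₀ ≤ X → ∀ S : Finset ℕ, (∀ s ∈ S, s.Prime) →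
      X / (Real.log X) ^ K ≤ ((S.filter (fun s : ℕ => (s : ℝ) ≤ ε / 16 * X)).card : ℝ) →
      (1 - ε) * kapW (wX X) * X / Real.log X ≤
        (((Icc 1 X).filter (fun p => p.Prime ∧
          X / (Real.log X) ^ (K + 7) ≤ (reps S (2 * p) : ℝ))).card : ℝ) := by
  by_cases hε1 : 1 ≤ ε
  · refine ⟨0, ?_⟩
    intro X _ S _ _
    have hk := MP7c_nonneg (wX X)
    have h1 : (1 - ε) * kapW (wX X) * X / Real.log X ≤ 0 := by
      apply div_nonpos_of_nonpos_of_nonneg _ (Real.log_natCast_nonneg X)
      apply mul_nonpos_of_nonpos_of_nonneg _ (by positivity)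
      exact mul_nonpos_of_nonpos_of_nonneg (by linarith) hk
    exact le_trans h1 (by positivity)
  · have hε2 : ε < 1 := lt_of_not_ge hε1
    obtain ⟨n, hn1, hn2⟩ := exists_nat_pow_near_of_lt_one (x := ε / 4) (y := (1 / 2 : ℝ))
      (by positivity) (by linarith) (by norm_num) (by norm_num)
    obtain ⟨X₁, hX₁⟩ := mid_many (K + 1) (ε / 2) (by positivity)
    obtain ⟨X₃, hX₃⟩ := Filter.eventually_atTop.mp
      ((eventually_log_ge (max (8 / ε) (max (2 ^ (K + 1)) (2 * Real.log (8 / ε))))).and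
        (Filter.eventually_ge_atTop ⌈max (max (16 / ε) (8 / ε * X₁)) (2 * (n + 1) / ε)⌉₊))
    refine ⟨max X₃ 2, ?_⟩
    intro X hX S hSp hcard
    have hXc : X₃ ≤ X := le_trans (le_max_left _ _) hX
    have hXd : 2 ≤ X := le_trans (le_max_right _ _) hX
    have hX2 : (2 : ℝ) ≤ X := by exact_mod_cast hXd
    have hXpos : (0 : ℝ) < X := by linarith
    obtain ⟨hL, hXge⟩ := hX₃ X hXc
    have hXge2 : max (max (16 / ε) (8 / ε * X₁)) (2 * (n + 1) / ε) ≤ (X : ℝ) := Nat.ceil_le.mp hXge
    have hXe1 : 16 / ε ≤ (X : ℝ) := le_trans (le_trans (le_max_left _ _) (le_max_left _ _)) hXge2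
    have hXe2 : 8 / ε * X₁ ≤ (X : ℝ) :=
      le_trans (le_trans (le_max_right _ _) (le_max_left _ _)) hXge2
    have hXe3 : 2 * (n + 1) / ε ≤ (X : ℝ) := le_trans (le_max_right _ _) hXge2
    have hLe1 : 8 / ε ≤ Real.log (X : ℝ) := le_trans (le_max_left _ _) hL
    have hLe2 : (2 : ℝ) ^ (K + 1) ≤ Real.log (X : ℝ) :=
      le_trans (le_trans (le_max_left _ _) (le_max_right _ _)) hL
    have hLe3 : 2 * Real.log (8 / ε) ≤ Real.log (X : ℝ) :=
      le_trans (le_trans (le_max_right _ _) (le_max_right _ _)) hL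
    set L : ℝ := Real.log (X : ℝ) with hLdef
    have hL1 : 1 ≤ L := le_trans (one_le_pow₀ (by norm_num)) hLe2
    have hL0 : 0 < L := by linarith
    have hk0 := MP7c_nonneg (wX X)
    set TT : ℝ := X / L ^ (K + 7) with hTT
    -- the dyadic points
    have hYlow : ∀ j : ℕ, j ≤ n → ε / 8 * X ≤ ((X / 2 ^ j : ℕ) : ℝ) := by
      intro j hj
      have h1 : (X : ℝ) / 2 ^ j - 1 ≤ ((X / 2 ^ j : ℕ) : ℝ) := by
        have h2 := Nat.lt_div_mul_add (a := X) (b := 2 ^ j) (by positivity)
        have h3 : (X : ℝ) < ((X / 2 ^ j : ℕ) : ℝ) * 2 ^ j + 2 ^ j := by exact_mod_cast h2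
        have h4 : (0 : ℝ) < 2 ^ j := by positivity
        rw [sub_le_iff_le_add, div_le_iff₀ h4]
        linarith
      have h5 : ε / 4 * X ≤ (X : ℝ) / 2 ^ j := by
        have h6 : ε / 4 ≤ 1 / 2 ^ j := by
          calc ε / 4 ≤ (1 / 2) ^ n := hn2
            _ ≤ (1 / 2) ^ j := pow_le_pow_of_le_one (by norm_num) (by norm_num) hj
            _ = 1 / 2 ^ j := by rw [div_pow, one_pow]
        calc ε / 4 * X ≤ 1 / 2 ^ j * X := by gcongr
          _ = (X : ℝ) / 2 ^ j := by ring
      have h7 : 1 ≤ ε / 8 * X := by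
        rw [div_le_iff₀ hε] at hXe1
        linarith
      linarith
    have hYup : ∀ j : ℕ, X / 2 ^ j ≤ X := fun j => Nat.div_le_self _ _
    -- one dyadic interval
    have hdy : ∀ j ∈ range (n + 1),
        (1 - ε / 2) * kapW (wX X) * (((X / 2 ^ j : ℕ) : ℝ) / 2) / L ≤
        (((Ioc (X / 2 ^ j / 2) (X / 2 ^ j)).filter (fun p => p.Prime ∧
          TT ≤ (reps S (2 * p) : ℝ))).card : ℝ) := by
      intro j hj
      rw [Finset.mem_range] at hj
      have hjn : j ≤ n := by omega
      have hYl := hYlow j hjn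
      have hYu := hYup j
      set Y : ℕ := X / 2 ^ j with hY
      have hYur : (Y : ℝ) ≤ X := by exact_mod_cast hYu
      have hY2 : (2 : ℝ) ≤ Y := by
        rw [div_le_iff₀ hε] at hXe1
        linarith
      have hY2n : 2 ≤ Y := by exact_mod_cast hY2
      have hYX₁ : X₁ ≤ Y := by
        have h1 : (X₁ : ℝ) ≤ Y := by
          have h2 : (X₁ : ℝ) = ε / 8 * (8 / ε * X₁) := by field_simp
          rw [h2]
          calc ε / 8 * (8 / ε * X₁) ≤ ε / 8 * X := by gcongr
            _ ≤ Y := hYl
        exact_mod_cast h1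
      have hlogYu : Real.log (Y : ℝ) ≤ L := Real.log_le_log (by linarith) hYur
      have hlogYl : L / 2 ≤ Real.log (Y : ℝ) := by
        have h1 : Real.log (ε / 8 * X) ≤ Real.log (Y : ℝ) := Real.log_le_log (by positivity) hYl
        have h2 : Real.log (ε / 8 * X) = L - Real.log (8 / ε) := by
          rw [Real.log_mul (by positivity) hXpos.ne']
          have h3 : ε / 8 = (8 / ε)⁻¹ := by rw [inv_div]
          rw [h3, Real.log_inv]
          ring
        linarith
      have hlogY0 : 0 < Real.log (Y : ℝ) := by linarith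
      set S' := S.filter (fun s => s ≤ Y) with hS'
      have hS'sub : S' ⊆ Icc 1 Y := by
        intro s hs
        rw [hS', Finset.mem_filter] at hs
        rw [Finset.mem_Icc]
        exact ⟨(hSp s hs.1).one_le, hs.2⟩
      have hS'p : ∀ s ∈ S', s.Prime := fun s hs => hSp s (Finset.mem_filter.mp hs).1
      have hpowL : L ^ K ≤ (Real.log (Y : ℝ)) ^ (K + 1) := by
        calc L ^ K = L ^ K * 2 ^ (K + 1) / 2 ^ (K + 1) := by field_simp
          _ ≤ L ^ K * L / 2 ^ (K + 1) := by gcongr
          _ = (L / 2) ^ (K + 1) := by rw [div_pow, pow_succ L K]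
          _ ≤ (Real.log (Y : ℝ)) ^ (K + 1) := by gcongr
      have hS'card : (Y : ℝ) / (Real.log Y) ^ (K + 1) ≤ (S'.card : ℝ) := by
        calc (Y : ℝ) / (Real.log Y) ^ (K + 1) ≤ X / L ^ K := by gcongr
          _ ≤ ((S.filter (fun s : ℕ => (s : ℝ) ≤ ε / 16 * X)).card : ℝ) := hcard
          _ ≤ (S'.card : ℝ) := by
              have h1 : S.filter (fun s : ℕ => (s : ℝ) ≤ ε / 16 * X) ⊆ S' := by
                intro s hs
                rw [Finset.mem_filter] at hs
                rw [hS', Finset.mem_filter]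
                refine ⟨hs.1, ?_⟩
                have h2 : (s : ℝ) ≤ Y := by
                  have h3 : ε / 16 * X ≤ ε / 8 * X := by
                    apply mul_le_mul_of_nonneg_right _ hXpos.le
                    linarith
                  exact le_trans (le_trans hs.2 h3) hYl
                exact_mod_cast h2
              exact_mod_cast Finset.card_le_card h1
      have hmain := hX₁ Y hYX₁ S' hS'sub hS'p hS'card
      have hw : wX Y ≤ wX X := by
        unfold wX
        apply Nat.floor_mono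
        apply Real.log_le_log hlogY0 hlogYu
      have hkY := kapW_anti hw
      have hkY0 := MP7c_nonneg (wX Y)
      calc (1 - ε / 2) * kapW (wX X) * ((Y : ℝ) / 2) / L ≤
          (1 - ε / 2) * kapW (wX Y) * ((Y : ℝ) / 2) / Real.log Y := by
            have h0 : 0 ≤ 1 - ε / 2 := by linarith
            have h1 : (1 - ε / 2) * kapW (wX X) * ((Y : ℝ) / 2) ≤
                (1 - ε / 2) * kapW (wX Y) * ((Y : ℝ) / 2) :=
              mul_le_mul_of_nonneg_right (mul_le_mul_of_nonneg_left hkY h0) (by positivity)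
            have h2 : 0 ≤ (1 - ε / 2) * kapW (wX Y) * ((Y : ℝ) / 2) :=
              mul_nonneg (mul_nonneg h0 hkY0) (by positivity)
            exact div_le_div₀ h2 h1 hlogY0 hlogYu
        _ ≤ _ := hmain
        _ ≤ _ := by
            have h1 : (Ioc (Y / 2) Y).filter (fun p => p.Prime ∧
                  (Y : ℝ) / (Real.log Y) ^ (K + 1 + 5) ≤ (reps S' (2 * p) : ℝ)) ⊆
                (Ioc (Y / 2) Y).filter (fun p => p.Prime ∧ TT ≤ (reps S (2 * p) : ℝ)) := by
              intro N hN
              rw [Finset.mem_filter] at hN ⊢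
              refine ⟨hN.1, hN.2.1, ?_⟩
              have h2 : (reps S' (2 * N) : ℝ) ≤ reps S (2 * N) := by
                exact_mod_cast reps_mono (Finset.filter_subset _ _) (2 * N)
              have h3 : TT ≤ (Y : ℝ) / (Real.log Y) ^ (K + 1 + 5) := by
                calc TT = X / L ^ (K + 7) := rfl
                  _ = (1 / L * X) / L ^ (K + 1 + 5) := by
                      rw [show K + 7 = (K + 1 + 5) + 1 by ring, pow_succ]
                      field_simp
                  _ ≤ (Y : ℝ) / L ^ (K + 1 + 5) := by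
                      apply div_le_div_of_nonneg_right _ (by positivity)
                      have h4 : 1 / L ≤ ε / 8 := by
                        rw [div_le_div_iff₀ hL0 (by norm_num)]
                        rw [div_le_iff₀ hε] at hLe1
                        linarith
                      calc 1 / L * X ≤ ε / 8 * X := by gcongr
                        _ ≤ Y := hYl
                  _ ≤ (Y : ℝ) / (Real.log Y) ^ (K + 1 + 5) := by gcongr
              linarith [hN.2.2]
            exact_mod_cast Finset.card_le_card h1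
    -- the union
    have hdisj : ∀ i ∈ range (n + 1), ∀ j ∈ range (n + 1), i ≠ j →
        Disjoint ((Ioc (X / 2 ^ i / 2) (X / 2 ^ i)).filter (fun p => p.Prime ∧
            TT ≤ (reps S (2 * p) : ℝ)))
          ((Ioc (X / 2 ^ j / 2) (X / 2 ^ j)).filter (fun p => p.Prime ∧
            TT ≤ (reps S (2 * p) : ℝ))) := by
      have key : ∀ i j : ℕ, i < j → X / 2 ^ j ≤ X / 2 ^ i / 2 := by
        intro i j hij
        have h1 : X / 2 ^ j ≤ X / 2 ^ (i + 1) :=
          Nat.div_le_div_left (Nat.pow_le_pow_right (by norm_num) hij) (by positivity)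
        have h2 : X / 2 ^ (i + 1) = X / 2 ^ i / 2 := by
          rw [pow_succ, Nat.div_div_eq_div_mul]
        omega
      intro i _ j _ hij
      rw [Finset.disjoint_left]
      intro N hN hN2
      rw [Finset.mem_filter, Finset.mem_Ioc] at hN hN2
      rcases lt_or_gt_of_ne hij with h | h
      · have := key i j h
        omega
      · have := key j i h
        omega
    set A := (range (n + 1)).biUnion (fun j =>
      (Ioc (X / 2 ^ j / 2) (X / 2 ^ j)).filter (fun p => p.Prime ∧
        TT ≤ (reps S (2 * p) : ℝ))) with hA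
    have hAcard : (A.card : ℝ) = ∑ j ∈ range (n + 1),
        (((Ioc (X / 2 ^ j / 2) (X / 2 ^ j)).filter (fun p => p.Prime ∧
          TT ≤ (reps S (2 * p) : ℝ))).card : ℝ) := by
      rw [hA, Finset.card_biUnion hdisj]
      push_cast
      rfl
    have hsub : A ⊆ (Icc 1 X).filter (fun p => p.Prime ∧ TT ≤ (reps S (2 * p) : ℝ)) := by
      intro N hN
      rw [hA, Finset.mem_biUnion] at hN
      obtain ⟨j, hj, hN⟩ := hN
      rw [Finset.mem_filter, Finset.mem_Ioc] at hN
      rw [Finset.mem_filter, Finset.mem_Icc]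
      have h1 := hYup j
      exact ⟨⟨hN.2.1.one_le, by omega⟩, hN.2⟩
    have hsumY : 2 * (1 - ε / 4) * X - (n + 1) ≤ ∑ j ∈ range (n + 1), ((X / 2 ^ j : ℕ) : ℝ) := by
      have h1 : ∀ j ∈ range (n + 1), (X : ℝ) * (1 / 2) ^ j - 1 ≤ ((X / 2 ^ j : ℕ) : ℝ) := by
        intro j _
        have h2 := Nat.lt_div_mul_add (a := X) (b := 2 ^ j) (by positivity)
        have h3 : (X : ℝ) < ((X / 2 ^ j : ℕ) : ℝ) * 2 ^ j + 2 ^ j := by exact_mod_cast h2
        have h4 : (0 : ℝ) < 2 ^ j := by positivity
        have h5 : (X : ℝ) * (1 / 2) ^ j = X / 2 ^ j := by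
          rw [div_pow, one_pow]
          ring
        rw [h5, sub_le_iff_le_add, div_le_iff₀ h4]
        linarith
      have h6 : ∑ j ∈ range (n + 1), ((X : ℝ) * (1 / 2) ^ j - 1) =
          X * (2 * (1 - (1 / 2) ^ (n + 1))) - (n + 1) := by
        rw [Finset.sum_sub_distrib, ← Finset.mul_sum, geom_sum_eq (by norm_num)]
        rw [Finset.sum_const, Finset.card_range, nsmul_eq_mul, mul_one]
        push_cast
        ring
      calc 2 * (1 - ε / 4) * X - (n + 1) = X * (2 * (1 - ε / 4)) - (n + 1) := by ring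
        _ ≤ X * (2 * (1 - (1 / 2) ^ (n + 1))) - (n + 1) := by
            have : 1 - ε / 4 ≤ 1 - (1 / 2 : ℝ) ^ (n + 1) := by linarith
            gcongr
        _ = ∑ j ∈ range (n + 1), ((X : ℝ) * (1 / 2) ^ j - 1) := h6.symm
        _ ≤ _ := Finset.sum_le_sum h1
    have hfin : (1 - ε) * X ≤ (1 - ε / 2) * ((2 * (1 - ε / 4) * X - (n + 1)) / 2) := by
      have h1 : (n + 1 : ℝ) ≤ ε / 2 * X := by
        rw [div_le_iff₀ hε] at hXe3
        linarith
      have h2 : (1 - ε / 2) * (n + 1 : ℝ) ≤ 1 * (ε / 2 * X) :=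
        mul_le_mul (by linarith) h1 (by positivity) (by norm_num)
      have h3 : 0 ≤ ε * ε * X := by positivity
      nlinarith
    have h0 : 0 ≤ 1 - ε / 2 := by linarith
    calc (1 - ε) * kapW (wX X) * X / L = ((1 - ε) * X) * (kapW (wX X) / L) := by ring
      _ ≤ ((1 - ε / 2) * ((2 * (1 - ε / 4) * X - (n + 1)) / 2)) * (kapW (wX X) / L) :=
          mul_le_mul_of_nonneg_right hfin (by positivity)
      _ ≤ ((1 - ε / 2) * ((∑ j ∈ range (n + 1), ((X / 2 ^ j : ℕ) : ℝ)) / 2)) *
            (kapW (wX X) / L) := by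
          apply mul_le_mul_of_nonneg_right _ (by positivity)
          apply mul_le_mul_of_nonneg_left _ h0
          linarith
      _ = ∑ j ∈ range (n + 1), (1 - ε / 2) * kapW (wX X) * (((X / 2 ^ j : ℕ) : ℝ) / 2) / L := by
          rw [Finset.sum_div, Finset.mul_sum, Finset.sum_mul]
          refine Finset.sum_congr rfl fun j _ => ?_
          ring
      _ ≤ ∑ j ∈ range (n + 1),
          (((Ioc (X / 2 ^ j / 2) (X / 2 ^ j)).filter (fun p => p.Prime ∧
            TT ≤ (reps S (2 * p) : ℝ))).card : ℝ) :=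
          Finset.sum_le_sum hdy
      _ = (A.card : ℝ) := hAcard.symm
      _ ≤ _ := by exact_mod_cast Finset.card_le_card hsub

end Pool.Agent.Lib.SW
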