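import Pool.Agent.Lib.SW.MP.MP7a
import Pool.Agent.Lib.SW.LG3
import Pool.Agent.Lib.MP_7b7e48_nt.GT.RobustConst

/-!
# MP-8: Mertens' theorem for `kapW`

PROOF.  For an odd prime `p`: `1 - 1/(p-1) = (1 - 1/p) (1 - 1/(p-1)^2)`.  Hence `kapW z = 2 LG3V z · twinPartial (z+1)` for
`z ≥ 2` (`twinPartial (z+1) = ∏_{2 < p ≤ z} (1 - 1/(p-1)^2)`, see its definition), and `LG3_mertens`, `tendsto_C2`.
-/

set_option autoImplicit false

open Finset Pool.Agent.Lib.GT

namespace Pool.Agent.Lib.SW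

theorem kapW_eq (z : ℕ) (hz : 2 ≤ z) :
    kapW z = 2 * LG3V z * Pool.Agent.Lib.MP_7b7e48_nt.twinPartial (z + 1) := by
  classical
  have h1 : (range (z + 1)).filter Nat.Prime = insert 2 ((Ioc 2 z).filter Nat.Prime) := by
    ext p
    rw [Finset.mem_filter, Finset.mem_range, Finset.mem_insert, Finset.mem_filter, Finset.mem_Ioc]
    constructor
    · rintro ⟨h2, h3⟩
      have := h3.two_le
      by_cases h4 : p = 2
      · exact Or.inl h4
      · exact Or.inr ⟨⟨by omega, by omega⟩, h3⟩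
    · rintro (h2 | ⟨h2, h3⟩)
      · subst h2
        exact ⟨by omega, Nat.prime_two⟩
      · exact ⟨by omega, h3⟩
  have h2 : (Nat.primesBelow (z + 1)).filter (2 < ·) = (Ioc 2 z).filter Nat.Prime := by
    ext p
    rw [Finset.mem_filter, Nat.mem_primesBelow, Finset.mem_filter, Finset.mem_Ioc]
    constructor
    · rintro ⟨⟨h3, h4⟩, h5⟩
      exact ⟨⟨h5, by omega⟩, h4⟩
    · rintro ⟨⟨h3, h4⟩, h5⟩
      exact ⟨⟨by omega, h5⟩, h3⟩
  unfold kapW LG3V Pool.Agent.Lib.MP_7b7e48_nt.twinPartial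
  rw [h1, h2, Finset.prod_insert (by simp), ← mul_assoc, mul_assoc, ← Finset.prod_mul_distrib]
  have h3 : (2 : ℝ) * (1 - 1 / ((2 : ℕ) : ℝ)) = 1 := by norm_num
  rw [h3, one_mul]
  refine Finset.prod_congr rfl fun p hp => ?_
  rw [Finset.mem_filter, Finset.mem_Ioc] at hp
  have h4 : (2 : ℝ) < p := by exact_mod_cast hp.1.1
  have h5 : (p : ℝ) - 1 ≠ 0 := by linarith
  have h6 : (p : ℝ) ≠ 0 := by linarith
  field_simp
  ring

theorem kapW_mertens (c : ℝ) (hc : 0 < c) :
    Filter.Tendsto (fun y : ℝ => Real.log y * kapW ⌊c * y⌋₊) Filter.atTop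
      (nhds (2 * Robust.C2 * Real.exp (-Real.eulerMascheroniConstant))) := by
  have h0 : Filter.Tendsto (fun y : ℝ => c * y) Filter.atTop Filter.atTop :=
    Filter.tendsto_id.const_mul_atTop hc
  have h1 : Filter.Tendsto (fun y : ℝ => ⌊c * y⌋₊) Filter.atTop Filter.atTop :=
    tendsto_nat_floor_atTop.comp h0
  have h2 : Filter.Tendsto (fun y : ℝ => ⌊c * y⌋₊ + 1) Filter.atTop Filter.atTop :=
    Filter.tendsto_atTop_mono (fun y => Nat.le_succ _) h1
  have h3 := (Robust.tendsto_C2.comp h2)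
  have h4 := (LG3_mertens c hc).mul h3
  have h5 := h4.const_mul 2
  have h6 : 2 * (Real.exp (-Real.eulerMascheroniConstant) * Robust.C2) =
      2 * Robust.C2 * Real.exp (-Real.eulerMascheroniConstant) := by ring
  rw [h6] at h5
  refine h5.congr' ?_
  filter_upwards [h1.eventually_ge_atTop 2] with y hy
  rw [kapW_eq _ hy]
  simp only [Function.comp]
  ring

theorem kapW_asymp : Filter.Tendsto (fun X : ℕ => Real.log (Real.log (Real.log X)) * kapW (wX X))
    Filter.atTop (nhds (2 * Robust.C2 * Real.exp (-Real.eulerMascheroniConstant))) := by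
  have h1 := (kapW_mertens 1 one_pos).comp LG3_loglog
  refine h1.congr fun X => ?_
  simp only [Function.comp, wX, one_mul]

end Pool.Agent.Lib.SW
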