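import Pool.Agent.Lib.SW.MP.MP8
import Pool.Agent.Lib.SW.MP.MP7c
import Pool.Agent.Lib.SW.LG4

/-!
# MP-9: the exact order of the number of midpoints

PROOFS.  `mid_gen_lower`: as `gen_lower` in LG4, from `mid_lower` and `kapW_asymp`; `p` has `≥ X/log^(K+8) X > 1`
elements `s ∈ S` with `2p - s` prime, so one with `s ≠ p`.
`mid_sharp`: as `sharp` in LG3, with the same `S` (primes `≤ 2X` which are `1 mod W`, `W = primorial z`, `z = ⌊(1/4) log log X⌋`; the first two
clauses are proved there: copy).  A midpoint `p ≤ X` of `s ∈ S` has `2p - s ≤ z` or `(2p - 1, W) = 1`.  First case: the number of `p` is at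
most `#S (z+1) ≤ (z+1) 2·(2X)/(φ(W) log X)` (Siegel-Walfisz `theta_ap`, as in the second clause), and `φ(W) ≥ 2^(number of primes in (2,z])...`:
it is enough that `φ(W)/(z+1)/log z → ∞` (`φ(W) ≥ W/2^z`... or `φ(W) ≥ ∏_{2<p≤z} (p-1) ≥ 2^(π(z)-1)`; simpler: `W ≤ 2^z φ(W)` is `primorial_le_two_pow`
and `W ≥ 2^(z/2)`-type bounds are in Mathlib only for `4^n`: use `φ(W) ≥ φ(lcm)`; or choose the trivial bound: `φ(W) ≥ (p₀-1)(p₁-1)` for
two primes `p₀, p₁` in `(z/4, z]` (Bertrand), so `φ(W) ≥ (z/4-1)^2`).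
Second case: classes: reduced classes `x mod W` with `2x - 1` coprime to `W`: `φ(W) kapW z` of them (`card_mid`), each has at most
`(1 + ε') X/(φ(W) log X)` primes `≤ X` (`theta_ap` for `X`, and primes `≤ X/log^3 X` counted trivially).
-/

set_option autoImplicit false

open Finset Pool.Agent.Lib.GT

namespace Pool.Agent.Lib.SW

theorem mid_gen_lower (K : ℕ) (ε : ℝ) (hε : 0 < ε) : ∃ X₀ : ℕ, ∀ X : ℕ, X₀ ≤ X →
    ∀ S : Finset ℕ, (∀ s ∈ S, s.Prime) →
      (∀ Y : ℕ, Real.sqrt X ≤ Y → Y ≤ 2 * X →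
        Y / (Real.log Y) ^ K ≤ ((S.filter (fun s => s ≤ Y)).card : ℝ)) →
    (2 * Robust.C2 * Real.exp (-Real.eulerMascheroniConstant) - ε) * X /
        (Real.log X * Real.log (Real.log (Real.log X))) ≤
      (((Icc 1 X).filter (fun p => p.Prime ∧ ∃ s ∈ S, s ≠ p ∧ s < 2 * p ∧
        (2 * p - s).Prime)).card : ℝ) := by
  obtain ⟨C, hC⟩ : ∃ C : ℝ, C = 2 * Robust.C2 * Real.exp (-Real.eulerMascheroniConstant) := ⟨_, rfl⟩
  have hCa : 0 ≤ |C| := abs_nonneg C
  obtain ⟨δ, hδ, hδ1, hδε⟩ : ∃ δ : ℝ, 0 < δ ∧ δ ≤ 1 ∧ δ ≤ ε / (|C| + 1) :=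
    ⟨min 1 (ε / (|C| + 1)), lt_min one_pos (by positivity), min_le_left _ _, min_le_right _ _⟩
  have hδC : δ * C < ε := by
    rw [le_div_iff₀ (by positivity)] at hδε
    have h1 : δ * C ≤ δ * |C| := mul_le_mul_of_nonneg_left (le_abs_self C) hδ.le
    nlinarith
  rw [← hC]
  obtain ⟨X₁, hX₁⟩ := mid_lower (K + 1) δ hδ
  -- the comparison of the constants
  have hc : ∀ᶠ X : ℕ in Filter.atTop, C - ε ≤
      (1 - δ) * (Real.log (Real.log (Real.log X)) * kapW (wX X)) := by
    have h1 := kapW_asymp.const_mul (1 - δ)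
    rw [← hC] at h1
    have h2 : C - ε < (1 - δ) * C := by nlinarith
    exact (h1.eventually_const_lt h2).mono fun X hX => hX.le
  have hcast : Filter.Tendsto (fun X : ℕ => (X : ℝ)) Filter.atTop Filter.atTop :=
    tendsto_natCast_atTop_atTop
  obtain ⟨X₃, hX₃⟩ := Filter.eventually_atTop.1 (hc.and ((LG3_log3_ev 1).and
    ((LG3_log_ev (32 / δ)).and ((hcast.eventually_ge_atTop (1024 / δ ^ 2 + 64 / δ)).and
      ((ev_pow 2 (K + 1 + 7)).and (Filter.eventually_ge_atTop (max X₁ 3)))))))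
  refine ⟨X₃, fun X hX S hSp hS => ?_⟩
  obtain ⟨k1, k2, k3, k4, kp, k5⟩ := hX₃ X hX
  have hX3 : 3 ≤ X := (le_max_right _ _).trans k5
  have hXr3 : (3 : ℝ) ≤ X := by exact_mod_cast hX3
  have hX0 : (0 : ℝ) < X := by linarith
  have hL : 0 < Real.log X := Real.log_pos (by linarith)
  -- density
  have hdens : X / (Real.log X) ^ (K + 1) ≤
      ((S.filter (fun s : ℕ => (s : ℝ) ≤ δ / 16 * X)).card : ℝ) := by
    obtain ⟨Y, hY⟩ : ∃ Y : ℕ, Y = ⌊δ / 16 * X⌋₊ := ⟨_, rfl⟩
    have hYle : (Y : ℝ) ≤ δ / 16 * X := by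
      rw [hY]
      exact Nat.floor_le (by positivity)
    have hX64 : 64 ≤ δ * X := by
      have h1 : 64 / δ ≤ X := by
        have : 0 ≤ 1024 / δ ^ 2 := by positivity
        linarith
      rwa [div_le_iff₀ hδ, mul_comm] at h1
    have hYge : δ / 32 * X ≤ (Y : ℝ) := by
      have h1 := Nat.lt_floor_add_one (δ / 16 * X)
      rw [← hY] at h1
      nlinarith
    have hY2 : (2 : ℝ) ≤ Y := by linarith
    have hYX : (Y : ℝ) ≤ X := by nlinarith
    have hsq : Real.sqrt X ≤ Y := by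
      refine le_trans ?_ hYge
      rw [Real.sqrt_le_left (by positivity)]
      have h1 : 1024 / δ ^ 2 ≤ X := by
        have : 0 ≤ 64 / δ := by positivity
        linarith
      rw [div_le_iff₀ (by positivity)] at h1
      nlinarith
    have hYX' : Y ≤ 2 * X := by
      have : Y ≤ X := by exact_mod_cast hYX
      omega
    have h1 := hS Y hsq hYX'
    have h2 : ((S.filter (fun s => s ≤ Y)).card : ℝ) ≤
        ((S.filter (fun s : ℕ => (s : ℝ) ≤ δ / 16 * X)).card : ℝ) := by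
      refine Nat.cast_le.2 (card_le_card fun s hs => ?_)
      obtain ⟨hs1, hs2⟩ := mem_filter.1 hs
      have hs5 : (s : ℝ) ≤ Y := by exact_mod_cast hs2
      exact mem_filter.2 ⟨hs1, by linarith⟩
    refine le_trans ?_ (h1.trans h2)
    have h3 : 0 < Real.log Y := Real.log_pos (by linarith)
    have h4 : Real.log Y ≤ Real.log X := Real.log_le_log (by linarith) hYX
    calc (X : ℝ) / (Real.log X) ^ (K + 1)
        ≤ (δ / 32 * X) / (Real.log X) ^ K := by
          have h6 : (Real.log X) ^ (K + 1) = (Real.log X) ^ K * Real.log X :=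
            pow_succ _ _
          rw [div_le_div_iff₀ (by positivity) (by positivity), h6]
          rw [div_le_iff₀ hδ] at k3
          have h5 : 0 ≤ X * (Real.log X) ^ K := by positivity
          nlinarith
      _ ≤ Y / (Real.log X) ^ K :=
          div_le_div_of_nonneg_right hYge (by positivity)
      _ ≤ Y / (Real.log Y) ^ K :=
          div_le_div_of_nonneg_left (by linarith) (by positivity) (pow_le_pow_left₀ h3.le h4 _)
  have hmain := hX₁ X ((le_max_left _ _).trans k5) S hSp hdens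
  have hsub : (((Icc 1 X).filter (fun p => p.Prime ∧ X / (Real.log X) ^ (K + 1 + 7) ≤
      (reps S (2 * p) : ℝ))).card : ℝ) ≤
      (((Icc 1 X).filter (fun p => p.Prime ∧ ∃ s ∈ S, s ≠ p ∧ s < 2 * p ∧
        (2 * p - s).Prime)).card : ℝ) := by
    refine Nat.cast_le.2 (card_le_card fun n hn => ?_)
    obtain ⟨hn1, hnp, hn2⟩ := mem_filter.1 hn
    refine mem_filter.2 ⟨hn1, hnp, ?_⟩
    have hpos : 2 ≤ X / (Real.log X) ^ (K + 1 + 7) := by
      rw [le_div_iff₀ (by positivity)]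
      exact kp
    have h2 : 1 < reps S (2 * n) := by
      have : (1 : ℝ) < reps S (2 * n) := lt_of_lt_of_le (by linarith) hn2
      exact_mod_cast this
    unfold reps at h2
    obtain ⟨a, ha, b, hb, hab⟩ := one_lt_card.1 h2
    by_cases han : a = n
    · obtain ⟨ha1, ha2, ha3⟩ := mem_filter.1 hb
      exact ⟨b, ha1, fun h => hab (han.trans h.symm), ha2, ha3⟩
    · obtain ⟨ha1, ha2, ha3⟩ := mem_filter.1 ha
      exact ⟨a, ha1, han, ha2, ha3⟩
  refine le_trans ?_ (hmain.trans hsub)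
  have h3 : (0 : ℝ) < Real.log (Real.log (Real.log X)) := by linarith
  rw [div_le_div_iff₀ (by positivity) hL]
  have h7 : 0 ≤ X * Real.log X := by positivity
  have h8 := mul_le_mul_of_nonneg_right k1 h7
  nlinarith

end Pool.Agent.Lib.SW
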