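import Pool.Agent.Lib.SW.MP.MP8
import Pool.Agent.Lib.SW.MP.MP1

/-!
# MP-9b: sharpness

PROOFS.  `mid_gen_lower`: as `gen_lower` in LG4, from `mid_lower` and `kapW_asymp`; `p` has `≥ X/log^(K+8) X > 1`
elements `s ∈ S` with `2p - s` prime, so one with `s ≠ p`.
`mid_sharp`: as `sharp` in LG3, with the same `S` (primes `≤ 2X` which are `1 mod W`, `W = primorial z`, `z = ⌊(1/4) log log X⌋`; the first two
clauses are proved there: copy).  A midpoint `p ≤ X` of `s ∈ S` has `2p - s ≤ z` or `(2p - 1, W) = 1`.  First case: the number of `p` is at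
most `#S (z+1)`, `#S ≤ 10 X/(φ(W) log X)` (`mp9b_count`, from Siegel-Walfisz `theta_ap`) and `φ(W) ≥ z^2/16`
(two primes in `(z/4, z/2]` and `(z/2, z]`, Bertrand).
Second case: classes: reduced classes `x mod W` with `2x - 1` coprime to `W`: `φ(W) kapW z` of them (`card_mid`), each has at most
`(1 + ε') X/(φ(W) log X)` primes `≤ X` (`theta_ap` for `X`, and primes `≤ X/log^2 X` counted trivially).
-/

set_option autoImplicit false

open Finset Pool.Agent.Lib.GT

namespace Pool.Agent.Lib.SW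

/-- `φ(primorial z) ≥ z^2 / 16` -/
lemma mp9b_totient (z : ℕ) (hz : 12 ≤ z) :
    (z : ℝ) ^ 2 / 16 ≤ ((primorial z).totient : ℝ) := by
  obtain ⟨p, hp, hp1, hp2⟩ := Nat.exists_prime_lt_and_le_two_mul (z / 2) (by omega)
  obtain ⟨q, hq, hq1, hq2⟩ := Nat.exists_prime_lt_and_le_two_mul (z / 4) (by omega)
  have hpq : q ≠ p := by omega
  have hcop : Nat.Coprime q p := (Nat.coprime_primes hq hp).mpr hpq
  have hdp : p ∣ primorial z := (hp.dvd_primorial_iff).mpr (by omega)
  have hdq : q ∣ primorial z := (hq.dvd_primorial_iff).mpr (by omega)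
  have hd : q * p ∣ primorial z := hcop.mul_dvd_of_dvd_of_dvd hdq hdp
  have h1 : (q * p).totient ≤ (primorial z).totient :=
    Nat.le_of_dvd (Nat.totient_pos.mpr (primorial_pos z)) (Nat.totient_dvd_of_dvd hd)
  rw [Nat.totient_mul hcop, Nat.totient_prime hp, Nat.totient_prime hq] at h1
  have h2 : (z / 4) * (z / 2) ≤ (q - 1) * (p - 1) :=
    Nat.mul_le_mul (by omega) (by omega)
  have h3 : ((z / 4 : ℕ) : ℝ) * ((z / 2 : ℕ) : ℝ) ≤ ((primorial z).totient : ℝ) := by
    exact_mod_cast h2.trans h1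
  have h4 : (z : ℝ) - 3 ≤ 4 * ((z / 4 : ℕ) : ℝ) := by
    have : z ≤ 4 * (z / 4) + 3 := by omega
    have : (z : ℝ) ≤ 4 * ((z / 4 : ℕ) : ℝ) + 3 := by exact_mod_cast this
    linarith
  have h5 : (z : ℝ) - 1 ≤ 2 * ((z / 2 : ℕ) : ℝ) := by
    have : z ≤ 2 * (z / 2) + 1 := by omega
    have : (z : ℝ) ≤ 2 * ((z / 2 : ℕ) : ℝ) + 1 := by exact_mod_cast this
    linarith
  have hzR : (12 : ℝ) ≤ z := by exact_mod_cast hz
  have h6 : 3 / 16 * (z : ℝ) ≤ ((z / 4 : ℕ) : ℝ) := by linarith
  have h7 : 3 / 8 * (z : ℝ) ≤ ((z / 2 : ℕ) : ℝ) := by linarith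
  have h8 : 3 / 16 * (z : ℝ) * (3 / 8 * (z : ℝ)) ≤ ((z / 4 : ℕ) : ℝ) * ((z / 2 : ℕ) : ℝ) :=
    mul_le_mul h6 h7 (by positivity) (by positivity)
  nlinarith [sq_nonneg (z : ℝ)]

lemma mp9b_log4 {l : ℝ} (h : 16 ≤ l) : 4 * Real.log l ≤ l := by
  have h1 : Real.log (l / 16) ≤ l / 16 - 1 := Real.log_le_sub_one_of_pos (by positivity)
  rw [Real.log_div (by linarith) (by norm_num)] at h1
  have h2 : Real.log 16 = 4 * Real.log 2 := by
    rw [show (16 : ℝ) = 2 ^ 4 by norm_num, Real.log_pow]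
    norm_num
  have h3 := Real.log_two_lt_d9
  linarith

/-- primes in a residue class, upper bound from `theta_ap` -/
lemma mp9b_count {C : ℝ} (hθ : ∀ (q a : ℕ), 1 ≤ q → Nat.Coprime a q → ∀ x : ℝ, 2 ≤ x →
      |∑ n ∈ (Finset.Icc 1 ⌊x⌋₊).filter (fun n => n.Prime ∧ n ≡ a [MOD q]),
          Real.log n - x / q.totient| ≤
        C * (q : ℝ) ^ (1 : ℝ) * x / (Real.log x) ^ 3)
    (W x Z : ℕ) (hW : 1 ≤ W) (hx : Nat.Coprime x W) (hZ : 2 ≤ Z) (h1 : 1 ≤ Real.log Z)
    (h2 : 4 * Real.log (Real.log Z) ≤ Real.log Z) :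
    (((Icc 1 Z).filter (fun n => n.Prime ∧ n ≡ x [MOD W])).card : ℝ) ≤
      Z / (Real.log Z) ^ 2 + (Z / W.totient + C * W * Z / (Real.log Z) ^ 3) /
        (Real.log Z - 2 * Real.log (Real.log Z)) := by
  have hZR : (2 : ℝ) ≤ Z := by exact_mod_cast hZ
  have hθ' := hθ W x hW hx Z hZR
  rw [Nat.floor_natCast, Real.rpow_one] at hθ'
  set l : ℝ := Real.log Z with hl
  have hl0 : 0 < l := by linarith
  set Y : ℝ := Z / l ^ 2 with hY
  have hY0 : 0 < Y := by rw [hY]; positivity
  set A := (Icc 1 Z).filter (fun n => n.Prime ∧ n ≡ x [MOD W]) with hA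
  have hlY : Real.log Y = l - 2 * Real.log l := by
    rw [hY, Real.log_div (by linarith) (by positivity), Real.log_pow, ← hl]
    push_cast
    ring
  have hD0 : 0 < l - 2 * Real.log l := by linarith
  have hsplit : (A.card : ℝ) = ((A.filter (fun n : ℕ => (n : ℝ) ≤ Y)).card : ℝ) +
      ((A.filter (fun n : ℕ => ¬ (n : ℝ) ≤ Y)).card : ℝ) := by
    exact_mod_cast (Finset.card_filter_add_card_filter_not (s := A) (fun n : ℕ => (n : ℝ) ≤ Y)).symm
  have hsmall : ((A.filter (fun n : ℕ => (n : ℝ) ≤ Y)).card : ℝ) ≤ Y := by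
    have h3 : A.filter (fun n : ℕ => (n : ℝ) ≤ Y) ⊆ Icc 1 ⌊Y⌋₊ := by
      intro n hn
      obtain ⟨hn1, hn2⟩ := mem_filter.1 hn
      rw [hA] at hn1
      have hn3 := mem_Icc.1 (mem_filter.1 hn1).1
      exact mem_Icc.2 ⟨hn3.1, Nat.le_floor hn2⟩
    have h4 := card_le_card h3
    rw [Nat.card_Icc, Nat.add_sub_cancel] at h4
    calc ((A.filter (fun n : ℕ => (n : ℝ) ≤ Y)).card : ℝ) ≤ (⌊Y⌋₊ : ℝ) := by exact_mod_cast h4
      _ ≤ Y := Nat.floor_le hY0.le
  have hbig : ((A.filter (fun n : ℕ => ¬ (n : ℝ) ≤ Y)).card : ℝ) * (l - 2 * Real.log l) ≤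
      Z / W.totient + C * W * Z / l ^ 3 := by
    have h3 : ((A.filter (fun n : ℕ => ¬ (n : ℝ) ≤ Y)).card : ℝ) * (l - 2 * Real.log l) ≤
        ∑ n ∈ A.filter (fun n : ℕ => ¬ (n : ℝ) ≤ Y), Real.log n := by
      rw [← nsmul_eq_mul, ← sum_const]
      refine sum_le_sum fun n hn => ?_
      obtain ⟨hn1, hn2⟩ := mem_filter.1 hn
      rw [← hlY]
      exact Real.log_le_log hY0 (not_le.mp hn2).le
    have h4 : ∑ n ∈ A.filter (fun n : ℕ => ¬ (n : ℝ) ≤ Y), Real.log n ≤ ∑ n ∈ A, Real.log n := by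
      refine sum_le_sum_of_subset_of_nonneg (filter_subset _ _) fun n _ _ => ?_
      exact Real.log_natCast_nonneg n
    have h5 := (abs_le.1 hθ').2
    linarith
  have hbig' : ((A.filter (fun n : ℕ => ¬ (n : ℝ) ≤ Y)).card : ℝ) ≤
      (Z / W.totient + C * W * Z / l ^ 3) / (l - 2 * Real.log l) := by
    rw [le_div_iff₀ hD0]
    exact hbig
  rw [hsplit]
  linarith

/-! small real inequalities (outside of the main proof, to keep the contexts small) -/

lemma mp9b_r1 {s L : ℝ} (h : 4 ≤ s) (h2 : s * s = L) : s ≤ L / 4 := by nlinarith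

lemma mp9b_r2 {M s L : ℝ} (h : M ^ 4 ≤ 24 * L) (h2 : s * s = L) (hL : 0 ≤ L) :
    (M ^ 2) ^ 2 ≤ (5 * s) ^ 2 := by
  have h3 : (5 * s) ^ 2 = 25 * L := by rw [← h2]; ring
  have h4 : (M ^ 2) ^ 2 = M ^ 4 := by ring
  rw [h3, h4]
  linarith

lemma mp9b_r3 {M L : ℝ} (h : 104 ≤ M) (h2 : M ^ 2 ≤ 2 * L) : 4 * M ≤ L := by nlinarith

lemma mp9b_r4 {L l : ℝ} (hL : 0 ≤ L) (h : L ≤ l) : L * L ≤ l ^ 2 := by nlinarith

lemma mp9b_r5 {φ L : ℝ} (hL : 0 ≤ L) (h : φ ≤ L / 4) : φ * L * 4 ≤ L * L := by nlinarith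

lemma mp9b_r6 {X y q : ℝ} (hX : 0 ≤ X) (h : 4 ≤ y) (hq : q = X * y / 2) : 2 * X ≤ q := by
  rw [hq]; nlinarith

lemma mp9b_r7 {a L : ℝ} (hL : 16 ≤ L) (h : a ≤ L * L) : a ≤ 1 / 16 * L ^ 3 := by
  have h1 : L * L * 16 ≤ L * L * L := mul_le_mul_of_nonneg_left hL (by positivity)
  have h2 : L ^ 3 = L * L * L := by ring
  rw [h2]
  linarith

lemma mp9b_r8 {a y : ℝ} (h : a ≤ 1 / 16) (hy : 0 ≤ y) : 4 * y + 4 * a * y ≤ (4 + 1 / 4) * y := by
  nlinarith

lemma mp9b_r9 {T ε z : ℝ} (hT : 0 < T) (h1 : 40960 ≤ T * ε) (h2 : T ^ 2 ≤ 16 * z) (hε : 0 < ε) :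
    2560 * T ≤ ε * z := by
  have h3 : T * 40960 ≤ T * (T * ε) := mul_le_mul_of_nonneg_left h1 hT.le
  have h4 : ε * T ^ 2 ≤ ε * (16 * z) := mul_le_mul_of_nonneg_left h2 hε.le
  have h5 : T * (T * ε) = ε * T ^ 2 := by ring
  linarith

lemma mp9b_r10 {T ε z φ : ℝ} (hz : 0 ≤ z) (h3 : 2560 * T ≤ ε * z)
    (h4 : ε / 160 * (z ^ 2 / 16) ≤ ε / 160 * φ) : z * T ≤ ε / 160 * φ := by
  have h5 := mul_le_mul_of_nonneg_left h3 hz
  linarith

lemma mp9b_r11 {M L : ℝ} (hM : 0 ≤ M) (h4 : 4 * M / L ≤ 1) :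
    L ≤ L + 2 * M * (1 - 4 * M / L) := by
  have h5 : 0 ≤ 2 * M * (1 - 4 * M / L) := mul_nonneg (by linarith) (by linarith)
  linarith

lemma mp9b_r12 {κ ε M L : ℝ} (hκ : 0 ≤ κ) (hε : 0 < ε) (hM : 0 ≤ M) (h6 : 128 * (κ + ε) ≤ M * ε)
    (h2 : M ^ 2 ≤ 2 * L) : (κ + ε / 8) * (4 * M) ≤ ε / 16 * L := by
  have h3 := mul_le_mul_of_nonneg_left h6 hM
  have h4 := mul_le_mul_of_nonneg_left h2 hε.le
  have h5 : (κ + ε / 8) * (4 * M) ≤ (κ + ε) * (4 * M) :=
    mul_le_mul_of_nonneg_right (by linarith) (by linarith)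
  nlinarith

theorem mid_sharp (ε : ℝ) (hε : 0 < ε) : ∃ X₀ : ℕ, ∀ X : ℕ, X₀ ≤ X → ∃ S : Finset ℕ,
    (∀ s ∈ S, s.Prime ∧ s ≤ 2 * X) ∧
    (∀ Y : ℕ, Real.sqrt X ≤ Y → Y ≤ 2 * X →
      Y / (Real.log Y) ^ 2 ≤ ((S.filter (fun s => s ≤ Y)).card : ℝ)) ∧
    (((Icc 1 X).filter (fun p => p.Prime ∧ ∃ s ∈ S, s ≠ p ∧ s < 2 * p ∧
        (2 * p - s).Prime)).card : ℝ) ≤
      (2 * Robust.C2 * Real.exp (-Real.eulerMascheroniConstant) + ε) * X /
        (Real.log X * Real.log (Real.log (Real.log X))) := by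
  obtain ⟨C, hC, hθ⟩ := theta_ap 3 1 one_pos
  set κ : ℝ := 2 * Robust.C2 * Real.exp (-Real.eulerMascheroniConstant) with hκ
  have hκ0 : 0 ≤ κ := by
    have := Robust.C2_pos
    positivity
  have hm : ∀ᶠ X : ℕ in Filter.atTop, Real.log (Real.log (Real.log X)) *
      kapW ⌊1 / 4 * Real.log (Real.log X)⌋₊ ≤ κ + ε / 8 := by
    have h1 := (kapW_mertens (1 / 4) (by norm_num)).comp LG3_loglog
    exact (h1.eventually_lt_const (by linarith : κ < κ + ε / 8)).mono fun X hX => hX.le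
  obtain ⟨X₀, hX₀⟩ := Filter.eventually_atTop.1 (hm.and ((LG3_log3_ev (max 1 (40960 / ε))).and
    ((LG3_log_ev (max 16 (max C (384 / ε)))).and
      ((LG3_loglog_ev (max 104 (max (80 / ε) (128 * (κ + ε) / ε)))).and
      (Filter.eventually_ge_atTop 16)))))
  refine ⟨X₀, fun X hX => ?_⟩
  obtain ⟨k1, k2, k3, k4, k5⟩ := hX₀ X hX
  obtain ⟨L, hL⟩ : ∃ L, L = Real.log X := ⟨_, rfl⟩
  obtain ⟨M, hM⟩ : ∃ M, M = Real.log L := ⟨_, rfl⟩
  obtain ⟨T, hT⟩ : ∃ T, T = Real.log M := ⟨_, rfl⟩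
  rw [← hL, ← hM, ← hT] at k1
  rw [← hL, ← hM, ← hT] at k2
  rw [← hL] at k3
  rw [← hL, ← hM] at k4
  have hL16 : 16 ≤ L := (le_max_left _ _).trans k3
  have hLC : C ≤ L := ((le_max_left _ _).trans (le_max_right _ _)).trans k3
  have hLε : 384 / ε ≤ L := ((le_max_right _ _).trans (le_max_right _ _)).trans k3
  have hM104 : 104 ≤ M := (le_max_left _ _).trans k4
  have hMε : 80 / ε ≤ M := ((le_max_left _ _).trans (le_max_right _ _)).trans k4
  have hMκ : 128 * (κ + ε) / ε ≤ M := ((le_max_right _ _).trans (le_max_right _ _)).trans k4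
  have hT1 : 1 ≤ T := (le_max_left _ _).trans k2
  have hTε : 40960 / ε ≤ T := (le_max_right _ _).trans k2
  have hXr : (16 : ℝ) ≤ X := by exact_mod_cast k5
  have hX0 : (0 : ℝ) < X := by linarith
  obtain ⟨z, hz⟩ : ∃ z, z = ⌊1 / 4 * M⌋₊ := ⟨_, rfl⟩
  rw [← hz] at k1
  have hzM : (z : ℝ) ≤ 1 / 4 * M := by
    rw [hz]
    exact Nat.floor_le (by linarith)
  have hzM' : M / 8 ≤ (z : ℝ) := by
    have := Nat.lt_floor_add_one (1 / 4 * M)
    rw [← hz] at this
    linarith
  have hz12 : 12 ≤ z := by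
    have : (12 : ℝ) ≤ z := by linarith
    exact_mod_cast this
  obtain ⟨W, hW⟩ : ∃ W, W = primorial z := ⟨_, rfl⟩
  have hW0 : 0 < W := by
    rw [hW]
    exact primorial_pos z
  have hW1 : (1 : ℝ) ≤ W := by exact_mod_cast hW0
  have hWL : (W : ℝ) ≤ √L := by
    have h1 := LG3_four_pow (by linarith : 0 ≤ M) hzM
    rw [← hW] at h1
    refine h1.trans (le_of_eq ?_)
    rw [Real.exp_half, hM, Real.exp_log (by linarith)]
  have hsL0 : 0 ≤ √L := Real.sqrt_nonneg L
  have hsqL : √L * √L = L := Real.mul_self_sqrt (by linarith)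
  have hs4 : 4 ≤ √L := by
    rw [Real.le_sqrt (by norm_num) (by linarith)]
    linarith
  have hsL : √L ≤ L / 4 := mp9b_r1 hs4 hsqL
  have hφ : 0 < W.totient := Nat.totient_pos.2 hW0
  have hφ' : (0 : ℝ) < W.totient := by exact_mod_cast hφ
  have hφW : (W.totient : ℝ) ≤ W := by exact_mod_cast Nat.totient_le W
  have hφz : (z : ℝ) ^ 2 / 16 ≤ (W.totient : ℝ) := by
    rw [hW]
    exact mp9b_totient z hz12
  have hT0 : 0 < T := by linarith
  have hTM : T ≤ M := by
    rw [hT]
    exact (Real.log_le_sub_one_of_pos (by linarith)).trans (by linarith)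
  have hML : M ≤ L := by
    rw [hM]
    exact (Real.log_le_sub_one_of_pos (by linarith)).trans (by linarith)
  have hL1 : (1 : ℝ) ≤ L := by linarith
  -- `M ^ 4 ≤ 24 L`, `M ^ 2 ≤ 2 L`, `T ^ 2 ≤ 2 M`
  have hM4 : M ^ 4 ≤ 24 * L := by
    have h2 := LG3_pow 4 hL1
    rw [← hM] at h2
    norm_num [Nat.factorial] at h2
    exact h2
  have hM2 : M ^ 2 ≤ 2 * L := by
    have h2 := LG3_pow 2 hL1
    rw [← hM] at h2
    norm_num [Nat.factorial] at h2
    exact h2
  have hT2 : T ^ 2 ≤ 2 * M := by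
    have h2 := LG3_pow 2 (by linarith : (1 : ℝ) ≤ M)
    rw [← hT] at h2
    norm_num [Nat.factorial] at h2
    exact h2
  have hL4 : L ^ 4 ≤ 24 * X := by
    have h2 := LG3_pow 4 (by linarith : (1 : ℝ) ≤ X)
    rw [← hL] at h2
    norm_num [Nat.factorial] at h2
    exact h2
  have hMs : M ≤ ε / 16 * √L := by
    have h1 : M ^ 2 ≤ 5 * √L := by
      have h2 : (M ^ 2) ^ 2 ≤ (5 * √L) ^ 2 := mp9b_r2 hM4 hsqL (by linarith)
      exact (abs_le_of_sq_le_sq' h2 (by positivity)).2
    have h2 : 80 ≤ M * ε := by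
      rw [div_le_iff₀ hε] at hMε
      exact hMε
    have h3 : 80 * M ≤ ε * M ^ 2 := by
      have h4 := mul_le_mul_of_nonneg_right h2 (by linarith : (0 : ℝ) ≤ M)
      linarith
    have h5 : ε * M ^ 2 ≤ ε * (5 * √L) := mul_le_mul_of_nonneg_left h1 hε.le
    linarith
  have h4M : 4 * M ≤ L := mp9b_r3 hM104 hM2
  have hS : ∀ s ∈ (Icc 1 (2 * X)).filter (fun s => s.Prime ∧ s ≡ 1 [MOD W]),
      s.Prime ∧ s ≤ 2 * X := by
    intro s hs
    obtain ⟨hs1, hs2, -⟩ := mem_filter.1 hs
    exact ⟨hs2, (mem_Icc.1 hs1).2⟩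
  refine ⟨(Icc 1 (2 * X)).filter (fun s => s.Prime ∧ s ≡ 1 [MOD W]), hS, ?_, ?_⟩
  · intro Y hY1 hY2
    have h4 : (4 : ℝ) ≤ √X := by
      rw [Real.le_sqrt (by norm_num) (by linarith)]
      linarith
    have hY0 : (4 : ℝ) ≤ Y := h4.trans hY1
    have hlY : L / 2 ≤ Real.log Y := by
      rw [hL, ← Real.log_sqrt (by linarith)]
      exact Real.log_le_log (by linarith) hY1
    have h1 := hθ W 1 hW0 (Nat.coprime_one_left W) Y (by linarith)
    rw [Nat.floor_natCast, Real.rpow_one] at h1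
    have h2 : (Icc 1 Y).filter (fun n => n.Prime ∧ n ≡ 1 [MOD W]) ⊆
        ((Icc 1 (2 * X)).filter (fun s => s.Prime ∧ s ≡ 1 [MOD W])).filter (fun s => s ≤ Y) := by
      intro s hs
      obtain ⟨hs1, hs2⟩ := mem_filter.1 hs
      obtain ⟨hs3, hs4⟩ := mem_Icc.1 hs1
      exact mem_filter.2 ⟨mem_filter.2 ⟨mem_Icc.2 ⟨hs3, hs4.trans hY2⟩, hs2⟩, hs4⟩
    refine le_trans ?_ (Nat.cast_le.2 (card_le_card h2))
    have h3 : ∑ n ∈ (Icc 1 Y).filter (fun n => n.Prime ∧ n ≡ 1 [MOD W]), Real.log n ≤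
        (((Icc 1 Y).filter (fun n => n.Prime ∧ n ≡ 1 [MOD W])).card : ℝ) * Real.log Y := by
      rw [← nsmul_eq_mul, ← sum_const]
      refine sum_le_sum fun n hn => ?_
      obtain ⟨hn1, hn2⟩ := mem_Icc.1 (mem_filter.1 hn).1
      exact Real.log_le_log (by exact_mod_cast hn1) (by exact_mod_cast hn2)
    generalize (((Icc 1 Y).filter (fun n => n.Prime ∧ n ≡ 1 [MOD W])).card : ℝ) = c at *
    generalize ∑ n ∈ (Icc 1 Y).filter (fun n => n.Prime ∧ n ≡ 1 [MOD W]), Real.log n = A at *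
    have hYp : (0 : ℝ) < Y := by linarith
    generalize hl : Real.log Y = l at *
    have hl0 : 0 < l := by linarith
    have h5 : (Y : ℝ) / W ≤ Y / W.totient := div_le_div_of_nonneg_left hYp.le hφ' hφW
    have hWl : (W : ℝ) ≤ l / 2 := by linarith
    have h6 : 2 * (Y / l) ≤ (Y : ℝ) / W := by
      rw [le_div_iff₀ (by linarith)]
      calc 2 * (Y / l) * W ≤ 2 * (Y / l) * (l / 2) :=
            mul_le_mul_of_nonneg_left hWl (by positivity)
        _ = Y := by field_simp
    have h7 : C * W * Y / l ^ 3 ≤ Y / l := by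
      rw [div_le_div_iff₀ (by positivity) hl0]
      have h8 : C * W ≤ l * l := by
        have h9 : C ≤ 2 * l := by linarith
        calc C * W ≤ (2 * l) * (l / 2) := mul_le_mul h9 hWl (by linarith) (by linarith)
          _ = l * l := by ring
      calc C * W * Y * l ≤ (l * l) * Y * l := by
            refine mul_le_mul_of_nonneg_right (mul_le_mul_of_nonneg_right h8 hYp.le) hl0.le
        _ = Y * l ^ 3 := by ring
    have h8 := (abs_le.1 h1).1
    have h9 : Y / l ≤ c * l := by linarith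
    rw [div_le_iff₀ (by positivity)]
    rw [div_le_iff₀ hl0] at h9
    calc (Y : ℝ) ≤ c * l * l := h9
      _ = c * l ^ 2 := by ring
  · -- the upper bound
    set S := (Icc 1 (2 * X)).filter (fun s => s.Prime ∧ s ≡ 1 [MOD W]) with hSdef
    set U := (range W).filter (fun x => Nat.Coprime x W ∧
      IsCoprime (2 * (x : ℤ) - ((1 : ℕ) : ℤ)) (W : ℤ)) with hU
    have hUcard : (U.card : ℝ) = (W.totient : ℝ) * kapW z := by
      have := card_mid z 1 (by omega) (Nat.coprime_one_left _)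
      rw [← hW] at this
      exact this
    have hUφ : (U.card : ℝ) ≤ W.totient := by
      have h1 : U ⊆ (range W).filter (fun x => W.Coprime x) := by
        intro x hx
        obtain ⟨hx1, hx2, -⟩ := mem_filter.1 hx
        exact mem_filter.2 ⟨hx1, hx2.symm⟩
      have h2 := card_le_card h1
      have h3 : ((range W).filter (fun x => W.Coprime x)).card = W.totient := rfl
      rw [h3] at h2
      exact_mod_cast h2
    have hU0 : (0 : ℝ) ≤ U.card := Nat.cast_nonneg _
    have hcov : (Icc 1 X).filter (fun p => p.Prime ∧ ∃ s ∈ S, s ≠ p ∧ s < 2 * p ∧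
        (2 * p - s).Prime) ⊆
        ((S ×ˢ range (z + 1)).image (fun p => (p.1 + p.2) / 2) ∪ range (z + 1)) ∪
        U.biUnion (fun x => (Icc 1 X).filter (fun p => p.Prime ∧ p ≡ x [MOD W])) := by
      intro p hp
      obtain ⟨hp1, hpp, s, hs, -, hsn, hq⟩ := mem_filter.1 hp
      have hs' := hs
      rw [hSdef] at hs'
      obtain ⟨hs1, hs2, hs3⟩ := mem_filter.1 hs'
      rw [mem_union, mem_union]
      by_cases hpz : 2 * p - s ≤ z
      · left; left
        refine mem_image.2 ⟨(s, 2 * p - s), mem_product.2 ⟨hs, mem_range.2 (by omega)⟩, ?_⟩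
        simp only
        omega
      by_cases hpz' : p ≤ z
      · left; right
        exact mem_range.2 (by omega)
      · right
        have h1 : Nat.Coprime W (2 * p - s) := by
          rw [Nat.coprime_comm, Nat.Prime.coprime_iff_not_dvd hq, hW, hq.dvd_primorial_iff]
          exact hpz
        have h1' : Nat.Coprime p W := by
          rw [Nat.Prime.coprime_iff_not_dvd hpp, hW, hpp.dvd_primorial_iff]
          exact hpz'
        have h2 : W ∣ s - 1 := (Nat.modEq_iff_dvd' hs2.one_lt.le).1 hs3.symm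
        obtain ⟨m, hm⟩ := h2
        have hs1' := hs2.one_lt
        have h3 : 2 * p - 1 = (2 * p - s) + W * m := by
          rw [← hm]
          omega
        have h4 : Nat.Coprime W (2 * p - 1) := by
          rw [h3]
          exact (Nat.coprime_add_mul_left_right _ _ _).2 h1
        refine mem_biUnion.2 ⟨p % W, ?_, mem_filter.2 ⟨hp1, hpp, (Nat.mod_modEq p W).symm⟩⟩
        refine mem_filter.2 ⟨mem_range.2 (Nat.mod_lt _ hW0), ?_, ?_⟩
        · rw [Nat.coprime_iff_gcd_eq_one, Nat.mod_def] at *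
          have h5 : Nat.Coprime (p % W) W := by
            have h6 := (Nat.mod_modEq p W).gcd_eq
            rw [Nat.coprime_iff_gcd_eq_one, h6]
            exact h1'
          rwa [Nat.mod_def] at h5
        · have h5 : IsCoprime ((2 * p - 1 : ℕ) : ℤ) (W : ℤ) := Nat.isCoprime_iff_coprime.mpr h4.symm
          have h6 : (2 * ((p % W : ℕ) : ℤ) - ((1 : ℕ) : ℤ)) =
              ((2 * p - 1 : ℕ) : ℤ) + (W : ℤ) * (-2 * ((p / W : ℕ) : ℤ)) := by
            have h7 := Nat.div_add_mod p W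
            have h8 : (p : ℤ) = (W : ℤ) * ((p / W : ℕ) : ℤ) + ((p % W : ℕ) : ℤ) := by
              exact_mod_cast h7.symm
            have h9 : ((2 * p - 1 : ℕ) : ℤ) = 2 * (p : ℤ) - 1 := by
              have := hpp.one_lt
              omega
            rw [h9, Nat.cast_one]
            generalize ((p / W : ℕ) : ℤ) = u at *
            generalize ((p % W : ℕ) : ℤ) = v at *
            rw [h8]
            ring
          rw [h6]
          exact IsCoprime.add_mul_left_left_iff.mpr h5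
    -- the number of elements of `S`
    have hScard : (S.card : ℝ) ≤ 5 * X / (W.totient * L) := by
      have hl1 : Real.log ((2 * X : ℕ) : ℝ) = Real.log (2 * (X : ℝ)) := by push_cast; rfl
      have hlL : L ≤ Real.log ((2 * X : ℕ) : ℝ) := by
        rw [hL]
        refine Real.log_le_log hX0 ?_
        push_cast
        linarith
      have h1 := mp9b_count hθ W 1 (2 * X) hW0 (Nat.coprime_one_left W) (by omega)
        (by linarith) (mp9b_log4 (by linarith))
      have h2 := mp9b_log4 (show 16 ≤ Real.log ((2 * X : ℕ) : ℝ) by linarith)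
      generalize Real.log ((2 * X : ℕ) : ℝ) = l at *
      have hl0 : 0 < l := by linarith
      have hl2 : L / 2 ≤ l - 2 * Real.log l := by linarith
      push_cast at h1
      refine h1.trans ?_
      have f1 : 2 * (X : ℝ) / l ^ 2 ≤ 1 / 2 * (X / (W.totient * L)) := by
        rw [div_le_iff₀ (by positivity)]
        have g1 : (W.totient : ℝ) ≤ L / 4 := by linarith
        have g2 : L * L ≤ l ^ 2 := mp9b_r4 (by linarith) hlL
        have g3 : (W.totient : ℝ) * L * 4 ≤ l ^ 2 := (mp9b_r5 (by linarith) g1).trans g2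
        have g4 : 1 / 2 * ((X : ℝ) / (W.totient * L)) * l ^ 2 =
            (X : ℝ) * (l ^ 2 / (W.totient * L)) / 2 := by ring
        have g5 : 4 ≤ l ^ 2 / (W.totient * L) := by
          rw [le_div_iff₀ (by positivity)]
          linarith
        exact mp9b_r6 hX0.le g5 g4
      have f2 : (2 * (X : ℝ) / W.totient + C * W * (2 * X) / l ^ 3) / (l - 2 * Real.log l) ≤
          (2 * (X : ℝ) / W.totient + C * W * (2 * X) / L ^ 3) / (L / 2) := by
        apply div_le_div₀ (by positivity) _ (by linarith) hl2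
        have g1 : C * W * (2 * (X : ℝ)) / l ^ 3 ≤ C * W * (2 * X) / L ^ 3 :=
          div_le_div_of_nonneg_left (by positivity) (by positivity)
            (pow_le_pow_left₀ (by linarith) hlL 3)
        linarith
      have f3 : (2 * (X : ℝ) / W.totient + C * W * (2 * X) / L ^ 3) / (L / 2) ≤
          (4 + 1 / 4) * (X / (W.totient * L)) := by
        have g1 : (2 * (X : ℝ) / W.totient + C * W * (2 * X) / L ^ 3) / (L / 2) =
            4 * (X / (W.totient * L)) + 4 * (C * W * W.totient / L ^ 3) *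
              (X / (W.totient * L)) := by
          field_simp
          ring
        have g2 : C * W * W.totient ≤ L * L := by
          have g3 : (W : ℝ) * W.totient ≤ L := by
            calc (W : ℝ) * W.totient ≤ √L * √L :=
                  mul_le_mul hWL (hφW.trans hWL) hφ'.le hsL0
              _ = L := hsqL
          calc C * W * W.totient = C * (W * W.totient) := by ring
            _ ≤ L * L := mul_le_mul hLC g3 (by positivity) (by linarith)
        have g4 : C * W * W.totient / L ^ 3 ≤ 1 / 16 := by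
          rw [div_le_iff₀ (by positivity)]
          exact mp9b_r7 hL16 g2
        have g5 : 0 ≤ (X : ℝ) / (W.totient * L) := by positivity
        rw [g1]
        exact mp9b_r8 g4 g5
      have f4 : 5 * (X : ℝ) / (W.totient * L) = 5 * (X / (W.totient * L)) := by ring
      have g5 : 0 ≤ (X : ℝ) / (W.totient * L) := by positivity
      rw [f4]
      linarith
    -- the primes in a class
    have hcls : ∀ x ∈ U, (((Icc 1 X).filter (fun p => p.Prime ∧ p ≡ x [MOD W])).card : ℝ) ≤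
        X / L ^ 2 + (X / W.totient + C * W * X / L ^ 3) / (L - 2 * M) := by
      intro x hx
      have h1 := mp9b_count hθ W x X hW0 (mem_filter.1 hx).2.1 (by omega)
        (by rw [← hL]; linarith) (by rw [← hL, ← hM]; exact h4M)
      rw [← hL, ← hM] at h1
      exact h1
    have hcard : (((Icc 1 X).filter (fun p => p.Prime ∧ ∃ s ∈ S, s ≠ p ∧ s < 2 * p ∧
        (2 * p - s).Prime)).card : ℝ) ≤ (S.card : ℝ) * ((z : ℝ) + 1) + ((z : ℝ) + 1) +
        (U.card : ℝ) * (X / L ^ 2 + (X / W.totient + C * W * X / L ^ 3) / (L - 2 * M)) := by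
      have h1 := (card_le_card hcov).trans (card_union_le _ _)
      have h2 := card_union_le ((S ×ˢ range (z + 1)).image (fun p => (p.1 + p.2) / 2))
        (range (z + 1))
      have h3 : ((S ×ˢ range (z + 1)).image (fun p => (p.1 + p.2) / 2)).card ≤
          S.card * (z + 1) := by
        refine card_image_le.trans ?_
        rw [card_product, card_range]
      have h4 := card_biUnion_le (s := U)
        (t := fun x => (Icc 1 X).filter (fun p => p.Prime ∧ p ≡ x [MOD W]))
      have h5 : ((∑ x ∈ U, ((Icc 1 X).filter (fun p => p.Prime ∧ p ≡ x [MOD W])).card : ℕ) : ℝ) ≤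
          (U.card : ℝ) * (X / L ^ 2 + (X / W.totient + C * W * X / L ^ 3) / (L - 2 * M)) := by
        push_cast
        refine (sum_le_sum hcls).trans ?_
        rw [sum_const, nsmul_eq_mul]
      rw [card_range] at h2
      have h6 : ((Icc 1 X).filter (fun p => p.Prime ∧ ∃ s ∈ S, s ≠ p ∧ s < 2 * p ∧
          (2 * p - s).Prime)).card ≤ S.card * (z + 1) + (z + 1) +
          ∑ x ∈ U, ((Icc 1 X).filter (fun p => p.Prime ∧ p ≡ x [MOD W])).card := by
        omega
      have h7 := (Nat.cast_le (α := ℝ)).2 h6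
      push_cast at h7 h5
      linarith
    rw [← hL, ← hM, ← hT, le_div_iff₀ (by positivity)]
    have hD2 : L / 2 ≤ L - 2 * M := by linarith
    have hD0 : 0 < L - 2 * M := by linarith
    have hz0 : (12 : ℝ) ≤ z := by exact_mod_cast hz12
    have hLT : 0 < L * T := by positivity
    have hUs : (U.card : ℝ) ≤ √L := (hUφ.trans hφW).trans hWL
    -- term A
    have eA : (S.card : ℝ) * ((z : ℝ) + 1) * (L * T) ≤ ε / 16 * X := by
      have h1 : (S.card : ℝ) * ((z : ℝ) + 1) * (L * T) ≤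
          5 * X / (W.totient * L) * (2 * z) * (L * T) := by
        apply mul_le_mul_of_nonneg_right _ hLT.le
        exact mul_le_mul hScard (by linarith) (by positivity) (by positivity)
      have h2 : 5 * (X : ℝ) / (W.totient * L) * (2 * z) * (L * T) =
          10 * X * (z * T / W.totient) := by
        field_simp
        ring
      have h3 : (z : ℝ) * T / W.totient ≤ ε / 160 := by
        rw [div_le_iff₀ hφ']
        have g1 : 40960 ≤ T * ε := by
          rw [div_le_iff₀ hε] at hTε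
          exact hTε
        have g2 : T ^ 2 ≤ 16 * z := by linarith
        have g3 : 2560 * T ≤ ε * z := mp9b_r9 hT0 g1 g2 hε
        have g4 : ε / 160 * ((z : ℝ) ^ 2 / 16) ≤ ε / 160 * W.totient :=
          mul_le_mul_of_nonneg_left hφz (by positivity)
        exact mp9b_r10 (by linarith) g3 g4
      rw [h2] at h1
      have h4 := mul_le_mul_of_nonneg_left h3 (show 0 ≤ 10 * (X : ℝ) by positivity)
      linarith
    have eB : ((z : ℝ) + 1) * (L * T) ≤ ε / 16 * X := by
      have h1 : (z : ℝ) + 1 ≤ L := by linarith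
      have h2 : T ≤ L := hTM.trans hML
      have h3 : ((z : ℝ) + 1) * (L * T) ≤ L * (L * L) := by
        apply mul_le_mul h1 _ hLT.le (by linarith)
        exact mul_le_mul_of_nonneg_left h2 (by linarith)
      have h4 : 384 ≤ L * ε := by
        rw [div_le_iff₀ hε] at hLε
        exact hLε
      have h5 : L * (L * L) * 384 ≤ 24 * X * ε := by
        have h6 : L * (L * L) * 384 ≤ L * (L * L) * (L * ε) :=
          mul_le_mul_of_nonneg_left h4 (by positivity)
        have h7 : L * (L * L) * (L * ε) = L ^ 4 * ε := by ring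
        have h8 : L ^ 4 * ε ≤ 24 * X * ε := mul_le_mul_of_nonneg_right hL4 hε.le
        linarith
      linarith
    have hsT : √L * T ≤ ε / 16 * L := by
      calc √L * T ≤ √L * (ε / 16 * √L) := mul_le_mul_of_nonneg_left (hTM.trans hMs) hsL0
        _ = ε / 16 * (√L * √L) := by ring
        _ = ε / 16 * L := by rw [hsqL]
    have eC : (U.card : ℝ) * (X / L ^ 2) * (L * T) ≤ ε / 16 * X := by
      have h1 : (U.card : ℝ) * (X / L ^ 2) * (L * T) ≤ √L * (X / L ^ 2) * (L * T) := by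
        apply mul_le_mul_of_nonneg_right _ hLT.le
        exact mul_le_mul_of_nonneg_right hUs (by positivity)
      have h2 : √L * ((X : ℝ) / L ^ 2) * (L * T) = X / L * (√L * T) := by
        field_simp
      rw [h2] at h1
      refine h1.trans ?_
      calc (X : ℝ) / L * (√L * T) ≤ X / L * (ε / 16 * L) :=
            mul_le_mul_of_nonneg_left hsT (by positivity)
        _ = ε / 16 * X := by field_simp
    have eD : (U.card : ℝ) * ((X / W.totient) / (L - 2 * M)) * (L * T) ≤
        (κ + 3 * ε / 16) * X := by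
      have h1 : (U.card : ℝ) * ((X / W.totient) / (L - 2 * M)) * (L * T) =
          (T * kapW z) * (L / (L - 2 * M)) * X := by
        rw [hUcard]
        field_simp
      have h2 : L / (L - 2 * M) ≤ 1 + 4 * M / L := by
        rw [div_le_iff₀ hD0]
        have h3 : (1 + 4 * M / L) * (L - 2 * M) = L + 2 * M * (1 - 4 * M / L) := by
          field_simp
          ring
        have h4 : 4 * M / L ≤ 1 := by
          rw [div_le_one (by linarith)]
          exact h4M
        rw [h3]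
        exact mp9b_r11 (by linarith) h4
      have h3 : 0 ≤ L / (L - 2 * M) := by positivity
      have h5 : (κ + ε / 8) * (4 * M / L) ≤ ε / 16 := by
        have h6 : 128 * (κ + ε) ≤ M * ε := by
          rw [div_le_iff₀ hε] at hMκ
          exact hMκ
        rw [← mul_div_assoc, div_le_iff₀ (by linarith)]
        exact mp9b_r12 hκ0 hε (by linarith) h6 hM2
      have h7 : (T * kapW z) * (L / (L - 2 * M)) ≤ κ + 3 * ε / 16 := by
        calc (T * kapW z) * (L / (L - 2 * M)) ≤ (κ + ε / 8) * (L / (L - 2 * M)) :=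
              mul_le_mul_of_nonneg_right k1 h3
          _ ≤ (κ + ε / 8) * (1 + 4 * M / L) :=
              mul_le_mul_of_nonneg_left h2 (by positivity)
          _ ≤ κ + 3 * ε / 16 := by linarith
      rw [h1]
      exact mul_le_mul_of_nonneg_right h7 hX0.le
    have eE : (U.card : ℝ) * ((C * W * X / L ^ 3) / (L - 2 * M)) * (L * T) ≤ ε / 16 * X := by
      have h1 : (C * W * X / L ^ 3) / (L - 2 * M) ≤ (L * √L * X / L ^ 3) / (L / 2) := by
        apply div_le_div₀ (by positivity) _ (by linarith) hD2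
        apply div_le_div_of_nonneg_right _ (by positivity)
        apply mul_le_mul_of_nonneg_right _ hX0.le
        exact mul_le_mul hLC hWL (by linarith) (by linarith)
      have h2 : (U.card : ℝ) * ((C * W * X / L ^ 3) / (L - 2 * M)) * (L * T) ≤
          √L * ((L * √L * X / L ^ 3) / (L / 2)) * (L * T) := by
        apply mul_le_mul_of_nonneg_right _ hLT.le
        exact mul_le_mul hUs h1 (by positivity) hsL0
      have h3 : √L * ((L * √L * X / L ^ 3) / (L / 2)) * (L * T) = 2 * (√L * √L) * X * T / L ^ 2 := by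
        field_simp
      rw [h3, hsqL] at h2
      refine h2.trans ?_
      have h4 : 2 * L * X * T / L ^ 2 = X * (2 * T / L) := by
        field_simp
      rw [h4]
      have h5 : 2 * T / L ≤ ε / 16 := by
        rw [div_le_iff₀ (by linarith)]
        have h6 : 2 * T ≤ √L * T := mul_le_mul_of_nonneg_right (by linarith) hT0.le
        linarith
      have h7 := mul_le_mul_of_nonneg_left h5 hX0.le
      linarith
    have hfin := mul_le_mul_of_nonneg_right hcard hLT.le
    have hexpand : ((S.card : ℝ) * ((z : ℝ) + 1) + ((z : ℝ) + 1) +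
        (U.card : ℝ) * (X / L ^ 2 + (X / W.totient + C * W * X / L ^ 3) / (L - 2 * M))) *
          (L * T) = (S.card : ℝ) * ((z : ℝ) + 1) * (L * T) + ((z : ℝ) + 1) * (L * T) +
        (U.card : ℝ) * (X / L ^ 2) * (L * T) +
        (U.card : ℝ) * ((X / W.totient) / (L - 2 * M)) * (L * T) +
        (U.card : ℝ) * ((C * W * X / L ^ 3) / (L - 2 * M)) * (L * T) := by
      ring
    rw [hexpand] at hfin
    have hεX : 0 ≤ ε * X := by positivity
    linarith

end Pool.Agent.Lib.SW
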